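import Mathlib
import Pool.Agent.Helper9.NS
import Pool.Agent.Helper26.VC.Cycles

/-!
# More on places of function fields: residues, orders, Riemann-Roch spaces
-/

namespace VP

open VC VQ Function IntermediateField Polynomial WithZero

universe u

section basic

variable {k F : Type u} [Field k] [IsAlgClosed k] [CharZero k] [Field F] [Algebra k F]

lemma ord_add_ge (hF : IsFunctionField k F) (P : Place k F) {f g : F} (hf : f ≠ 0) (hg : g ≠ 0)
    (hfg : f + g ≠ 0) : min (ord P.ring f) (ord P.ring g) ≤ ord P.ring (f + g) := by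
  obtain ⟨w, hw, π, hπ⟩ := exists_valuation hF P
  have h := w.map_add f g
  rw [valuation_eq_exp_ord hw hπ hf, valuation_eq_exp_ord hw hπ hg,
    valuation_eq_exp_ord hw hπ hfg, le_max_iff, exp_le_exp, exp_le_exp] at h
  rw [min_le_iff]
  omega

lemma ord_add_eq (hF : IsFunctionField k F) (P : Place k F) {f g : F} (hf : f ≠ 0) (hg : g ≠ 0)
    (hne : ord P.ring f ≠ ord P.ring g) :
    f + g ≠ 0 ∧ ord P.ring (f + g) = min (ord P.ring f) (ord P.ring g) := by
  have hneg : ∀ {x : F}, x ≠ 0 → ord P.ring (-x) = ord P.ring x := by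
    intro x hx
    have h1 : -x = algebraMap k F (-1) * x := by simp
    rw [h1, ord_mul hF P (by simp) hx, ord_algebraMap hF P (by simp), zero_add]
  have hfg : f + g ≠ 0 := by
    intro h
    apply hne
    have : f = -g := eq_neg_of_add_eq_zero_left h
    rw [this, hneg hg]
  refine ⟨hfg, ?_⟩
  have h1 := ord_add_ge hF P hf hg hfg
  rcases lt_or_gt_of_ne hne with h | h
  · rw [min_eq_left h.le] at h1 ⊢
    by_contra hcon
    have h2 := ord_add_ge hF P hfg (neg_ne_zero.mpr hg) (by simpa using hf)
    rw [add_neg_cancel_right, hneg hg, min_le_iff] at h2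
    omega
  · rw [min_eq_right h.le] at h1 ⊢
    by_contra hcon
    have h2 := ord_add_ge hF P hfg (neg_ne_zero.mpr hf) (by simpa [add_comm] using hg)
    have h3 : f + g + -f = g := by abel
    rw [h3, hneg hf, min_le_iff] at h2
    omega

lemma ord_pow (hF : IsFunctionField k F) (P : Place k F) {f : F} (hf : f ≠ 0) (n : ℕ) :
    ord P.ring (f ^ n) = n * ord P.ring f := by
  induction n with
  | zero => rw [pow_zero, ord_one hF P]; simp
  | succ n ih =>
    rw [pow_succ, ord_mul hF P (pow_ne_zero n hf) hf, ih]
    push_cast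
    ring

lemma ord_prod (hF : IsFunctionField k F) (P : Place k F) {ι : Type*} (s : Finset ι) (f : ι → F)
    (hf : ∀ i ∈ s, f i ≠ 0) : ord P.ring (∏ i ∈ s, f i) = ∑ i ∈ s, ord P.ring (f i) := by
  classical
  induction s using Finset.induction_on with
  | empty => rw [Finset.prod_empty, Finset.sum_empty, ord_one hF P]
  | insert a s ha ih =>
    rw [Finset.prod_insert ha, Finset.sum_insert ha, ord_mul hF P (hf a (by simp))
      (Finset.prod_ne_zero_iff.mpr (fun i hi => hf i (by simp [hi]))),
      ih (fun i hi => hf i (by simp [hi]))]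

lemma exists_uniformizer (hF : IsFunctionField k F) (P : Place k F) :
    ∃ π : F, π ≠ 0 ∧ ord P.ring π = 1 := by
  obtain ⟨w, hw, π, hπ⟩ := exists_valuation hF P
  have h0 : π ≠ 0 := by
    rintro rfl
    rw [map_zero] at hπ
    exact exp_ne_zero hπ.symm
  refine ⟨π, h0, ?_⟩
  have h := valuation_eq_exp_ord hw hπ h0
  rw [hπ, exp_inj] at h
  omega

/-- Orders of functions pulled back under a morphism of curves. -/
lemma ord_comap {K : Type u} [Field K] [Algebra k K] (hF : IsFunctionField k F)
    (hK : IsFunctionField k K) (φ : F →ₐ[k] K) (v : Place k K) :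
    ∃ e : ℤ, 0 < e ∧ ∀ x : F, x ≠ 0 →
      ord v.ring (φ x) = e * ord (Place.comap hF hK φ v).ring x := by
  obtain ⟨π, hπ0, hπ⟩ := exists_uniformizer hF (Place.comap hF hK φ v)
  have hφ0 : ∀ x : F, x ≠ 0 → φ x ≠ 0 := fun x hx => (_root_.map_ne_zero φ).mpr hx
  have key : ∀ x : F, x ≠ 0 → ord (Place.comap hF hK φ v).ring x = 0 →
      ord v.ring (φ x) = 0 := by
    intro x hx h
    have h1 : x ∈ (Place.comap hF hK φ v).ring := by
      rw [← ord_nonneg_iff hF _ hx]; omega
    have h2 : x⁻¹ ∈ (Place.comap hF hK φ v).ring := by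
      rw [← ord_nonneg_iff hF _ (inv_ne_zero hx), ord_inv hF _ hx]; omega
    have h3 : φ x ∈ v.ring := h1
    have h4 : φ x⁻¹ ∈ v.ring := h2
    rw [map_inv₀] at h4
    rw [← ord_nonneg_iff hK _ (hφ0 x hx)] at h3
    rw [← ord_nonneg_iff hK _ (inv_ne_zero (hφ0 x hx)), ord_inv hK _ (hφ0 x hx)] at h4
    omega
  refine ⟨ord v.ring (φ π), ?_, ?_⟩
  · rw [ord_pos_iff hK v (hφ0 π hπ0)]
    have h1 : π ∈ (Place.comap hF hK φ v).ring.nonunits := by
      rw [← ord_pos_iff hF _ hπ0]; omega
    change π ∈ (v.ring.comap φ.toRingHom).nonunits at h1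
    rw [mem_nonunits_comap] at h1
    exact h1
  · intro x hx
    set m := ord (Place.comap hF hK φ v).ring x with hm
    obtain ⟨a, b, hab, ha, hb⟩ : ∃ a b : ℕ, m = a - b ∧ True ∧ True :=
      ⟨m.toNat, (-m).toNat, by omega, trivial, trivial⟩
    have h1 : ord (Place.comap hF hK φ v).ring (x * π ^ b * (π ^ a)⁻¹) = 0 := by
      rw [ord_mul hF _ (mul_ne_zero hx (pow_ne_zero _ hπ0)) (inv_ne_zero (pow_ne_zero _ hπ0)),
        ord_mul hF _ hx (pow_ne_zero _ hπ0), ord_inv hF _ (pow_ne_zero _ hπ0), ord_pow hF _ hπ0,
        ord_pow hF _ hπ0, hπ, ← hm]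
      omega
    have h2 := key _ (mul_ne_zero (mul_ne_zero hx (pow_ne_zero _ hπ0))
      (inv_ne_zero (pow_ne_zero _ hπ0))) h1
    rw [map_mul, map_mul, map_inv₀, map_pow, map_pow] at h2
    have hπK := hφ0 π hπ0
    rw [ord_mul hK _ (mul_ne_zero (hφ0 x hx) (pow_ne_zero _ hπK)) (inv_ne_zero (pow_ne_zero _ hπK)),
      ord_mul hK _ (hφ0 x hx) (pow_ne_zero _ hπK), ord_inv hK _ (pow_ne_zero _ hπK),
      ord_pow hK _ hπK, ord_pow hK _ hπK] at h2
    rw [hab]
    linarith

/-- Elements of the Riemann-Roch space. -/
lemma mem_rr (hF : IsFunctionField k F) (D : Place k F →₀ ℤ) {f : F} (hf : f ≠ 0) :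
    f ∈ riemannRochSpace k F D ↔ ∀ P : Place k F, 0 ≤ ord P.ring f + D P := by
  constructor
  · intro h
    unfold riemannRochSpace at h
    have key : f = 0 ∨ ∀ P : Place k F, 0 ≤ ord P.ring f + D P := by
      clear hf
      induction h using Submodule.span_induction with
      | mem x hx => exact Or.inr hx.2
      | zero => exact Or.inl rfl
      | add x y _ _ hx hy =>
        rcases eq_or_ne (x + y) 0 with h0 | h0
        · exact Or.inl h0
        · right
          rcases eq_or_ne x 0 with hx0 | hx0
          · subst hx0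
            rcases hy with hy | hy
            · subst hy; simp at h0
            · simpa using hy
          · rcases eq_or_ne y 0 with hy0 | hy0
            · subst hy0
              rcases hx with hx | hx
              · exact absurd hx hx0
              · simpa using hx
            · have hx' := hx.resolve_left hx0
              have hy' := hy.resolve_left hy0
              intro P
              have h1 := ord_add_ge hF P hx0 hy0 h0
              have h2 := hx' P
              have h3 := hy' P
              rw [min_le_iff] at h1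
              omega
      | smul a x _ hx =>
        rcases eq_or_ne a 0 with ha | ha
        · left; rw [ha, zero_smul]
        · rcases eq_or_ne x 0 with hx0 | hx0
          · left; rw [hx0, smul_zero]
          · right
            intro P
            rw [Algebra.smul_def, ord_mul hF P ((_root_.map_ne_zero _).mpr ha) hx0,
              ord_algebraMap hF P ha, zero_add]
            exact (hx.resolve_left hx0) P
    exact key.resolve_left hf
  · intro h
    exact Submodule.subset_span ⟨hf, h⟩

/-- The value of a regular function at a point. -/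
theorem exists_residue (hF : IsFunctionField k F) (P : Place k F) {x : F} (hx : x ∈ P.ring) :
    ∃ c : k, x - algebraMap k F c ∈ P.ring.nonunits := by
  by_contra hcon
  push Not at hcon
  have hunit : ∀ c : k, x - algebraMap k F c ≠ 0 ∧ (x - algebraMap k F c)⁻¹ ∈ P.ring := by
    intro c
    have h := hcon c
    rw [ValuationSubring.mem_nonunits_iff_or] at h
    push Not at h
    exact h
  by_cases ht : Transcendental k x
  · have hfin := hF.finiteDimensional ht
    have hpoly : ∀ p : k[X], aeval x p ∈ P.ring := by
      intro p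
      induction p using Polynomial.induction_on with
      | C a => rw [aeval_C]; exact P.algebraMap_mem a
      | add p q hp hq => rw [map_add]; exact P.ring.add_mem _ _ hp hq
      | monomial n a ih =>
        rw [pow_succ, ← mul_assoc, map_mul, aeval_X]
        exact P.ring.mul_mem _ _ ih hx
    have hinv : ∀ p : k[X], p ≠ 0 → (aeval x p)⁻¹ ∈ P.ring := by
      intro p hp
      have hs := (IsAlgClosed.splits p).eq_prod_roots
      rw [hs, map_mul, aeval_C, mul_inv]
      apply P.ring.mul_mem
      · rw [← map_inv₀]; exact P.algebraMap_mem _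
      · have : ∀ s : Multiset k, (aeval x (s.map (fun a => X - C a)).prod)⁻¹ ∈ P.ring := by
          intro s
          induction s using Multiset.induction_on with
          | empty => simp only [Multiset.map_zero, Multiset.prod_zero, map_one, inv_one]; exact P.ring.one_mem
          | cons a s ih =>
            rw [Multiset.map_cons, Multiset.prod_cons, map_mul, mul_inv, map_sub, aeval_X, aeval_C]
            exact P.ring.mul_mem _ _ (hunit a).2 ih
        exact this _
    have hmem : ∀ y : k⟮x⟯, (y : F) ∈ P.ring := by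
      intro y
      obtain ⟨r, s, hrs⟩ := (IntermediateField.mem_adjoin_simple_iff k (y : F)).mp y.2
      rw [hrs, div_eq_mul_inv]
      rcases eq_or_ne s 0 with hs | hs
      · rw [hs, map_zero, inv_zero, mul_zero]; exact P.ring.zero_mem
      · exact P.ring.mul_mem _ _ (hpoly r) (hinv s hs)
    apply P.ne_top
    rw [eq_top_iff]
    intro y _
    let f : k⟮x⟯ →+* P.ring := (algebraMap k⟮x⟯ F).codRestrict P.ring hmem
    obtain ⟨p, hp, hp'⟩ := Algebra.IsIntegral.isIntegral (R := k⟮x⟯) y
    have h1 : IsIntegral P.ring y := by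
      refine ⟨p.map f, hp.map f, ?_⟩
      rw [Polynomial.eval₂_map]
      exact hp'
    obtain ⟨z, hz⟩ := IsIntegrallyClosed.isIntegral_iff.mp h1
    rw [← hz]
    exact z.2
  · have hint : IsIntegral k x := (not_not.mp ht : IsAlgebraic k x).isIntegral
    obtain ⟨b, hb⟩ : ∃ b : k, algebraMap k F b = x := by
      have hdeg := IsAlgClosed.degree_eq_one_of_irreducible k (minpoly.irreducible hint)
      exact (minpoly.mem_range_of_degree_eq_one k x hdeg)
    exact (hunit b).1 (by rw [hb, sub_self])

omit [IsAlgClosed k] [CharZero k] in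
lemma residue_unique (P : Place k F) {x : F} {c d : k}
    (hc : x - algebraMap k F c ∈ P.ring.nonunits) (hd : x - algebraMap k F d ∈ P.ring.nonunits) :
    c = d := by
  by_contra hne
  have h1 : algebraMap k F (d - c) ∈ P.ring.nonunits := by
    have e : algebraMap k F (d - c) = (x - algebraMap k F c) - (x - algebraMap k F d) := by
      rw [map_sub]; ring
    rw [e]
    obtain ⟨ha, ha'⟩ := (ValuationSubring.mem_nonunits_iff_exists_mem_maximalIdeal).mp hc
    obtain ⟨hb, hb'⟩ := (ValuationSubring.mem_nonunits_iff_exists_mem_maximalIdeal).mp hd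
    rw [ValuationSubring.mem_nonunits_iff_exists_mem_maximalIdeal]
    refine ⟨P.ring.sub_mem ha hb, ?_⟩
    exact (IsLocalRing.maximalIdeal P.ring).sub_mem ha' hb'
  rcases (ValuationSubring.mem_nonunits_iff_or _).mp h1 with h | h
  · rw [map_eq_zero, sub_eq_zero] at h
    exact hne h.symm
  · apply h
    rw [← map_inv₀]
    exact P.algebraMap_mem _

end basic

end VP
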