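import Mathlib
import Pool.Agent.Helper9.NS
import Pool.Agent.Helper26.VC.Move
import Pool.Agent.Helper70.VP.Basic

/-!
# Principal divisors have degree zero, pencils with prescribed coincidences
-/

namespace VP

open VC VQ Function IntermediateField

universe u

section degree

variable {k F : Type u} [Field k] [IsAlgClosed k] [CharZero k] [Field F] [Algebra k F]

/-- A function with no zero at any place is constant; conversely constants have order zero. -/
lemma exists_const_of_not_transcendental {f : F} (hf : ¬ Transcendental k f) :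
    ∃ b : k, algebraMap k F b = f := by
  have hint : IsIntegral k f := (not_not.mp hf : IsAlgebraic k f).isIntegral
  have hdeg := IsAlgClosed.degree_eq_one_of_irreducible k (minpoly.irreducible hint)
  exact (minpoly.mem_range_of_degree_eq_one k f hdeg)

lemma transcendental_inv {f : F} (hf : Transcendental k f) : Transcendental k f⁻¹ := by
  intro h
  apply hf
  have := h.inv
  rwa [inv_inv] at this

lemma adjoin_inv (f : F) : k⟮f⁻¹⟯ = k⟮f⟯ := by
  apply le_antisymm
  · rw [IntermediateField.adjoin_simple_le_iff]
    exact inv_mem (IntermediateField.mem_adjoin_simple_self k _)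
  · rw [IntermediateField.adjoin_simple_le_iff]
    have h := inv_mem (IntermediateField.mem_adjoin_simple_self k f⁻¹)
    rwa [inv_inv] at h

theorem degree_zero (hF : IsFunctionField k F) {f : F} (hf : f ≠ 0) :
    ∑ v ∈ (finite_support_ord hF hf).toFinset, ord v.ring f = 0 := by
  classical
  by_cases ht : Transcendental k f
  swap
  · obtain ⟨b, rfl⟩ := exists_const_of_not_transcendental ht
    apply Finset.sum_eq_zero
    intro v _
    exact ord_algebraMap hF v (by rintro rfl; simp at hf)
  · obtain ⟨K, _, _, _, _, hK, G, _, _, _, hG⟩ := exists_cover hF f ht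
    have hfinv := transcendental_inv ht
    have hG' : IsGaloisGroup G k⟮algebraMap F K f⁻¹⟯ K := by rw [map_inv₀, adjoin_inv]; exact hG
    let Φ := {φ : F →ₐ[k] K // φ f = algebraMap F K f}
    have hΦ : Finite Φ := finite_homs f (hF.finiteDimensional ht)
    have : Fintype Φ := Fintype.ofFinite Φ
    have hιtr : Transcendental k (algebraMap F K f) :=
      (transcendental_algebraMap_iff (algebraMap F K).injective).mpr ht
    have hTtr : Transcendental k (algebraMap F K f⁻¹) :=
      (transcendental_algebraMap_iff (algebraMap F K).injective).mpr hfinv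
    obtain ⟨v0, hv0⟩ := exists_place hK hιtr
    obtain ⟨v1, hv1⟩ := exists_place hK hTtr
    set S := (finite_support_ord hF hf).toFinset with hS
    have cnt0 : ∀ P : Place k F, max (ord P.ring f) 0 =
        ∑ φ : Φ, if Place.comap hF hK φ.1 v0 = P then (1 : ℤ) else 0 := by
      intro P
      rw [← card_cover hF hK f ht G hG v0 hv0 P, Finset.sum_boole]
      congr 1
      rw [← Fintype.card_subtype, ← Nat.card_eq_fintype_card]
      exact Nat.card_congr ⟨fun φ => ⟨⟨φ.1, φ.2.1⟩, φ.2.2⟩, fun φ => ⟨φ.1.1, φ.1.2, φ.2⟩,
        fun φ => rfl, fun φ => rfl⟩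
    have cnt1 : ∀ P : Place k F, max (- ord P.ring f) 0 =
        ∑ φ : Φ, if Place.comap hF hK φ.1 v1 = P then (1 : ℤ) else 0 := by
      intro P
      rw [← ord_inv hF P hf, ← card_cover hF hK f⁻¹ hfinv G hG' v1 hv1 P, Finset.sum_boole]
      congr 1
      rw [← Fintype.card_subtype, ← Nat.card_eq_fintype_card]
      refine Nat.card_congr ⟨fun φ => ⟨⟨φ.1, ?_⟩, φ.2.2⟩, fun φ => ⟨φ.1.1, ?_, φ.2⟩,
        fun φ => rfl, fun φ => rfl⟩
      · have h := (map_inv₀ φ.1 f).symm.trans (φ.2.1.trans (map_inv₀ (algebraMap F K) f))
        exact inv_injective h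
      · rw [map_inv₀, φ.1.2, map_inv₀]
    have hmem : ∀ (P : Place k F), ord P.ring f ≠ 0 → P ∈ S := by
      intro P hP
      rw [hS, Set.Finite.mem_toFinset]
      exact hP
    have s0 : ∑ P ∈ S, max (ord P.ring f) 0 = Fintype.card Φ := by
      rw [Finset.sum_congr rfl (fun P _ => cnt0 P), Finset.sum_comm]
      have : ∀ φ : Φ, ∑ P ∈ S, (if Place.comap hF hK φ.1 v0 = P then (1 : ℤ) else 0) = 1 := by
        intro φ
        rw [Finset.sum_ite_eq, if_pos]
        apply hmem
        have h1 : f ∈ (Place.comap hF hK φ.1 v0).ring.nonunits := by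
          change f ∈ (v0.ring.comap φ.1.toRingHom).nonunits
          rw [mem_nonunits_comap]
          change φ.1 f ∈ _
          rw [φ.2]
          exact hv0
        rw [← ord_pos_iff hF _ hf] at h1
        omega
      rw [Finset.sum_congr rfl (fun φ _ => this φ), Finset.sum_const, Finset.card_univ]
      simp
    have s1 : ∑ P ∈ S, max (- ord P.ring f) 0 = Fintype.card Φ := by
      rw [Finset.sum_congr rfl (fun P _ => cnt1 P), Finset.sum_comm]
      have : ∀ φ : Φ, ∑ P ∈ S, (if Place.comap hF hK φ.1 v1 = P then (1 : ℤ) else 0) = 1 := by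
        intro φ
        rw [Finset.sum_ite_eq, if_pos]
        apply hmem
        have h1 : f⁻¹ ∈ (Place.comap hF hK φ.1 v1).ring.nonunits := by
          change f⁻¹ ∈ (v1.ring.comap φ.1.toRingHom).nonunits
          rw [mem_nonunits_comap]
          change φ.1 f⁻¹ ∈ _
          rw [map_inv₀, φ.2, ← map_inv₀]
          exact hv1
        rw [← ord_pos_iff hF _ (inv_ne_zero hf), ord_inv hF _ hf] at h1
        omega
      rw [Finset.sum_congr rfl (fun φ _ => this φ), Finset.sum_const, Finset.card_univ]
      simp
    have h2 : ∀ P : Place k F, ord P.ring f = max (ord P.ring f) 0 - max (- ord P.ring f) 0 := by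
      intro P
      rcases le_total (ord P.ring f) 0 with h | h
      · rw [max_eq_right h, max_eq_left (by omega)]; ring
      · rw [max_eq_left h, max_eq_right (by omega)]; ring
    rw [Finset.sum_congr rfl (fun P _ => h2 P), Finset.sum_sub_distrib, s0, s1, sub_self]

/-- The finite set of places where `f` has odd order. -/
noncomputable def oddSet (hF : IsFunctionField k F) {f : F} (hf : f ≠ 0) : Finset (Place k F) :=
  open Classical in (finite_support_ord hF hf).toFinset.filter (fun P => Odd (ord P.ring f))

lemma mem_oddSet (hF : IsFunctionField k F) {f : F} (hf : f ≠ 0) (P : Place k F) :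
    P ∈ oddSet hF hf ↔ Odd (ord P.ring f) := by
  classical
  unfold oddSet
  rw [Finset.mem_filter, Set.Finite.mem_toFinset]
  constructor
  · exact fun h => h.2
  · intro h
    refine ⟨?_, h⟩
    change ord P.ring f ≠ 0
    intro h0
    rw [h0] at h
    exact absurd h (by decide)

lemma even_card_oddSet (hF : IsFunctionField k F) {f : F} (hf : f ≠ 0) :
    Even (oddSet hF hf).card := by
  classical
  have h1 := degree_zero hF hf
  have h2 : ((∑ v ∈ (finite_support_ord hF hf).toFinset, ord v.ring f : ℤ) : ZMod 2) =
      ((oddSet hF hf).card : ZMod 2) := by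
    unfold oddSet
    rw [Finset.card_filter]
    push_cast
    apply Finset.sum_congr rfl
    intro v _
    split_ifs with h
    · exact (ZMod.intCast_eq_one_iff_odd).mpr h
    · exact (ZMod.intCast_eq_zero_iff_even).mpr (Int.not_odd_iff_even.mp h)
  rw [h1] at h2
  rw [← ZMod.natCast_eq_zero_iff_even, ← h2]
  simp

end degree

section pairing

/-- A nonempty finite set with an even number of elements is divided into pairs. -/
lemma exists_pairing {α : Type*} (R : Finset α) (hR : Even R.card) (hne : R.Nonempty) :
    ∃ (m : ℕ) (p q : Fin m → α) (a b : α), R.card = 2 * m + 2 ∧ (∀ i, p i ∈ R) ∧ (∀ i, q i ∈ R) ∧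
      a ∈ R ∧ b ∈ R ∧ ∀ g : α → ℕ, ∑ P ∈ R, g P = (∑ i, (g (p i) + g (q i))) + g a + g b := by
  classical
  obtain ⟨c, hc⟩ := hR
  induction c generalizing R with
  | zero =>
    rw [add_zero, Finset.card_eq_zero] at hc
    rw [hc] at hne
    exact absurd hne Finset.not_nonempty_empty
  | succ c ih =>
    obtain ⟨x, hx⟩ := hne
    have h1 : (R.erase x).card = c + c + 1 := by
      rw [Finset.card_erase_of_mem hx]; omega
    obtain ⟨y, hy⟩ : (R.erase x).Nonempty := by
      rw [← Finset.card_pos]; omega
    have h2 : ((R.erase x).erase y).card = c + c := by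
      rw [Finset.card_erase_of_mem hy]; omega
    have hsum : ∀ g : α → ℕ, ∑ P ∈ R, g P = g x + (g y + ∑ P ∈ (R.erase x).erase y, g P) := by
      intro g
      rw [Finset.add_sum_erase _ g hy, Finset.add_sum_erase _ g hx]
    have hyR : y ∈ R := Finset.mem_of_mem_erase hy
    rcases Nat.eq_zero_or_pos c with hc0 | hc0
    · refine ⟨0, Fin.elim0, Fin.elim0, x, y, by omega, fun i => i.elim0, fun i => i.elim0, hx,
        hyR, ?_⟩
      intro g
      rw [hsum]
      have h3 : (R.erase x).erase y = ∅ := by
        rw [← Finset.card_eq_zero, h2, hc0]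
      rw [h3]
      simp
    · obtain ⟨m, p, q, a, b, h4, h5, h6, h7, h8, h9⟩ := ih ((R.erase x).erase y)
        (by rw [← Finset.card_pos]; omega) h2
      have hsub : ∀ z ∈ (R.erase x).erase y, z ∈ R := fun z hz =>
        Finset.mem_of_mem_erase (Finset.mem_of_mem_erase hz)
      refine ⟨m + 1, Fin.cons x p, Fin.cons y q, a, b, by omega, ?_, ?_, hsub a h7, hsub b h8, ?_⟩
      · intro i
        refine Fin.cases hx (fun i => ?_) i
        exact hsub _ (h5 i)
      · intro i
        refine Fin.cases hyR (fun i => ?_) i
        exact hsub _ (h6 i)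
      · intro g
        rw [hsum, h9, Fin.sum_univ_succ]
        simp only [Fin.cons_zero, Fin.cons_succ]
        ring

end pairing

section pencil

variable {k F : Type u} [Field k] [IsAlgClosed k] [CharZero k] [Field F] [Algebra k F]

/-- evaluation at a place as a linear map on a space of functions regular there -/
noncomputable def evalAt (hF : IsFunctionField k F) (P : Place k F) (L : Submodule k F)
    (hL : ∀ f ∈ L, f ∈ P.ring) : L →ₗ[k] k where
  toFun f := (exists_residue hF P (hL f.1 f.2)).choose
  map_add' := by
    intro f g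
    apply residue_unique P (exists_residue hF P (hL _ (f + g).2)).choose_spec
    have h1 := (exists_residue hF P (hL f.1 f.2)).choose_spec
    have h2 := (exists_residue hF P (hL g.1 g.2)).choose_spec
    rw [ValuationSubring.mem_nonunits_iff_exists_mem_maximalIdeal] at h1 h2 ⊢
    obtain ⟨a, ha⟩ := h1
    obtain ⟨b, hb⟩ := h2
    have e : ((f + g : L) : F) - algebraMap k F ((exists_residue hF P (hL f.1 f.2)).choose +
        (exists_residue hF P (hL g.1 g.2)).choose) =
        (f.1 - algebraMap k F (exists_residue hF P (hL f.1 f.2)).choose) +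
        (g.1 - algebraMap k F (exists_residue hF P (hL g.1 g.2)).choose) := by
      rw [map_add]
      push_cast
      ring
    refine ⟨by rw [e]; exact P.ring.add_mem _ _ a b, ?_⟩
    have := (IsLocalRing.maximalIdeal P.ring).add_mem ha hb
    convert this using 1
    exact Subtype.ext e
  map_smul' := by
    intro c f
    apply residue_unique P (exists_residue hF P (hL _ (c • f).2)).choose_spec
    have h1 := (exists_residue hF P (hL f.1 f.2)).choose_spec
    rw [ValuationSubring.mem_nonunits_iff_exists_mem_maximalIdeal] at h1 ⊢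
    obtain ⟨a, ha⟩ := h1
    have e : ((c • f : L) : F) - algebraMap k F ((RingHom.id k) c •
        (exists_residue hF P (hL f.1 f.2)).choose) =
        algebraMap k F c * (f.1 - algebraMap k F (exists_residue hF P (hL f.1 f.2)).choose) := by
      rw [RingHom.id_apply, smul_eq_mul, map_mul, mul_sub]
      congr 1
      exact Algebra.smul_def c f.1
    refine ⟨by rw [e]; exact P.ring.mul_mem _ _ (P.algebraMap_mem c) a, ?_⟩
    have := (IsLocalRing.maximalIdeal P.ring).mul_mem_left ⟨algebraMap k F c, P.algebraMap_mem c⟩ ha
    convert this using 1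
    exact Subtype.ext e

lemma evalAt_spec (hF : IsFunctionField k F) (P : Place k F) (L : Submodule k F)
    (hL : ∀ f ∈ L, f ∈ P.ring) (f : L) :
    (f : F) - algebraMap k F (evalAt hF P L hL f) ∈ P.ring.nonunits :=
  (exists_residue hF P (hL f.1 f.2)).choose_spec

/-- A nonconstant function with poles at most at the points `x j` and taking the same value at
`p i` and `q i`. -/
theorem exists_pencil (hF : IsFunctionField k F) (g : ℕ) (hg : ∀ D : Place k F →₀ ℤ,
    (D.sum fun _ m => m) + 1 ≤ (Module.finrank k (riemannRochSpace k F D) : ℤ) + g)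
    {J : Type*} [Finite J] {m : ℕ} (hJ : g + m + 1 ≤ Nat.card J) (x : J → Place k F)
    (p q : Fin m → Place k F) (hp : ∀ i j, x j ≠ p i) (hq : ∀ i j, x j ≠ q i) :
    ∃ t : F, Transcendental k t ∧ (∀ P, 0 ≤ ord P.ring t + Nat.card {j // x j = P}) ∧
      ∀ i, ∃ c : k, t - algebraMap k F c ∈ (p i).ring.nonunits ∧
        t - algebraMap k F c ∈ (q i).ring.nonunits := by
  classical
  have : Fintype J := Fintype.ofFinite J
  let D : Place k F →₀ ℤ := ∑ j, Finsupp.single (x j) (1 : ℤ)
  have hD : ∀ P, D P = (Nat.card {j // x j = P} : ℤ) := by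
    intro P
    simp only [D, Finsupp.finsetSum_apply, Finsupp.single_apply]
    rw [Finset.sum_boole, Nat.card_eq_fintype_card, Fintype.card_subtype]
  have hdeg : (D.sum fun _ m => m) = Nat.card J := by
    have h1 : (D.sum fun _ m => m) = (Finsupp.liftAddHom (fun _ : Place k F => AddMonoidHom.id ℤ)) D := rfl
    rw [h1]
    simp only [D, map_sum, Finsupp.liftAddHom_apply_single, AddMonoidHom.id_apply,
      Finset.sum_const, Finset.card_univ, ← Nat.card_eq_fintype_card]
    simp
  set L := riemannRochSpace k F D with hL
  have h1 := hg D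
  rw [hdeg] at h1
  have h2 : m + 2 ≤ Module.finrank k L := by
    have : (Module.finrank k L : ℤ) = Module.finrank k (riemannRochSpace k F D) := rfl
    omega
  have hfd : FiniteDimensional k L := Module.finite_of_finrank_pos (by omega)
  have hreg : ∀ P : Place k F, (∀ j, x j ≠ P) → ∀ f ∈ L, f ∈ P.ring := by
    intro P hP f hf
    rcases eq_or_ne f 0 with h0 | h0
    · rw [h0]; exact P.ring.zero_mem
    · rw [← ord_nonneg_iff hF P h0]
      have h3 := (mem_rr hF D h0).mp hf P
      rw [hD] at h3
      have h4 : IsEmpty {j // x j = P} := ⟨fun j => hP j.1 j.2⟩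
      rw [Nat.card_of_isEmpty] at h3
      simpa using h3
  let Λ : L →ₗ[k] (Fin m → k) := LinearMap.pi (fun i =>
    evalAt hF (p i) L (hreg (p i) (hp i)) - evalAt hF (q i) L (hreg (q i) (hq i)))
  have h3 : 2 ≤ Module.finrank k (LinearMap.ker Λ) := by
    have h4 := LinearMap.finrank_range_add_finrank_ker Λ
    have h5 : Module.finrank k (LinearMap.range Λ) ≤ m := by
      have := Submodule.finrank_le (LinearMap.range Λ)
      simpa using this
    omega
  obtain ⟨t, htker, htr⟩ : ∃ t : L, t ∈ LinearMap.ker Λ ∧ Transcendental k (t : F) := by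
    by_contra hcon
    push Not at hcon
    have h4 : ∀ t : L, t ∈ LinearMap.ker Λ → ∃ b : k, algebraMap k F b = t := by
      intro t ht
      exact exists_const_of_not_transcendental (hcon t ht)
    have h5 : (LinearMap.ker Λ).map L.subtype ≤ Submodule.span k {(1 : F)} := by
      rintro _ ⟨t, ht, rfl⟩
      obtain ⟨b, hb⟩ := h4 t ht
      rw [Submodule.mem_span_singleton]
      exact ⟨b, by rw [Algebra.smul_def, mul_one, hb]; rfl⟩
    have h6 : Module.finrank k ((LinearMap.ker Λ).map L.subtype) =
        Module.finrank k (LinearMap.ker Λ) :=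
      Submodule.finrank_map_subtype_eq L (LinearMap.ker Λ)
    have h7 := Submodule.finrank_mono h5
    have h8 : Module.finrank k (Submodule.span k {(1 : F)}) ≤ 1 := by
      have := finrank_span_le_card (R := k) ({(1 : F)} : Set F)
      simpa using this
    omega
  refine ⟨t, htr, ?_, ?_⟩
  · have ht0 : (t : F) ≠ 0 := by
      intro h0
      rw [h0] at htr
      exact htr isAlgebraic_zero
    intro P
    rw [← hD]
    exact (mem_rr hF D ht0).mp t.2 P
  · intro i
    have h4 := congrFun (LinearMap.mem_ker.mp htker) i
    have h5 : evalAt hF (p i) L (hreg (p i) (hp i)) t = evalAt hF (q i) L (hreg (q i) (hq i)) t := by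
      have h6 : evalAt hF (p i) L (hreg (p i) (hp i)) t -
        evalAt hF (q i) L (hreg (q i) (hq i)) t = 0 := h4
      exact sub_eq_zero.mp h6
    refine ⟨_, evalAt_spec hF (p i) L (hreg (p i) (hp i)) t, ?_⟩
    rw [h5]
    exact evalAt_spec hF (q i) L (hreg (q i) (hq i)) t

end pencil

end VP
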