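import Mathlib
import Pool.Agent.Helper70.VP.Pencil

/-!
# The Riemann-Hurwitz inequality for double covers
-/

namespace VP

open VC VQ Function IntermediateField

universe u

section increments

variable {k F : Type u} [Field k] [IsAlgClosed k] [CharZero k] [Field F] [Algebra k F]

/-- the degree of a divisor -/
noncomputable def deg (D : Place k F →₀ ℤ) : ℤ := D.sum fun _ m => m

lemma deg_add (D D' : Place k F →₀ ℤ) : deg (D + D') = deg D + deg D' := by
  unfold deg
  rw [Finsupp.sum_add_index']
  · intro _; rfl
  · intro _ _ _; rfl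

lemma deg_single (P : Place k F) (m : ℤ) : deg (Finsupp.single P m) = m := by
  unfold deg
  rw [Finsupp.sum_single_index rfl]

lemma rr_mono (hF : IsFunctionField k F) {D D' : Place k F →₀ ℤ} (h : ∀ P, D P ≤ D' P) :
    riemannRochSpace k F D ≤ riemannRochSpace k F D' := by
  intro f hf
  rcases eq_or_ne f 0 with h0 | h0
  · rw [h0]; exact Submodule.zero_mem _
  · rw [mem_rr hF D' h0]
    rw [mem_rr hF D h0] at hf
    intro P
    have h1 := hf P
    have h2 := h P
    omega

/-- Adding a point raises the dimension at most by one. -/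
lemma rr_add_point (hF : IsFunctionField k F) (D : Place k F →₀ ℤ) (P : Place k F) :
    (Module.finrank k (riemannRochSpace k F (D + Finsupp.single P 1)) : ℤ) ≤
      Module.finrank k (riemannRochSpace k F D) + 1 := by
  classical
  set L' := riemannRochSpace k F (D + Finsupp.single P 1) with hL'
  set L := riemannRochSpace k F D with hL
  by_cases hfd : FiniteDimensional k L'
  swap
  · rw [Module.finrank_of_not_finite hfd]
    push_cast
    positivity
  obtain ⟨π, hπ0, hπ⟩ := exists_uniformizer hF P
  -- the twisting function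
  obtain ⟨w, hw0, hword⟩ : ∃ w : F, w ≠ 0 ∧ ord P.ring w = D P + 1 := by
    obtain ⟨a, b, hab⟩ : ∃ a b : ℕ, D P + 1 = a - b := ⟨(D P + 1).toNat, (-(D P + 1)).toNat, by omega⟩
    refine ⟨π ^ a * (π ^ b)⁻¹, mul_ne_zero (pow_ne_zero _ hπ0) (inv_ne_zero (pow_ne_zero _ hπ0)), ?_⟩
    rw [ord_mul hF P (pow_ne_zero _ hπ0) (inv_ne_zero (pow_ne_zero _ hπ0)),
      ord_inv hF P (pow_ne_zero _ hπ0), ord_pow hF P hπ0, ord_pow hF P hπ0, hπ, hab]
    ring
  let M : Submodule k F := L'.map (LinearMap.mulRight k w)
  have hM : ∀ f ∈ M, f ∈ P.ring := by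
    rintro _ ⟨f, hf, rfl⟩
    rw [LinearMap.mulRight_apply]
    rcases eq_or_ne f 0 with h0 | h0
    · rw [h0, zero_mul]; exact P.ring.zero_mem
    · rw [← ord_nonneg_iff hF P (mul_ne_zero h0 hw0), ord_mul hF P h0 hw0, hword]
      have h1 := (mem_rr hF _ h0).mp hf P
      rw [Finsupp.add_apply, Finsupp.single_eq_same] at h1
      omega
  let Λ : L' →ₗ[k] k := (evalAt hF P M hM).comp
    ((LinearMap.mulRight k w).restrict (p := L') (q := M) (fun f hf => ⟨f, hf, rfl⟩))
  have hker : (LinearMap.ker Λ).map L'.subtype ≤ L := by
    rintro _ ⟨f, hf, rfl⟩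
    have hf' : Λ f = 0 := hf
    have h1 := evalAt_spec hF P M hM ((LinearMap.mulRight k w).restrict (p := L') (q := M)
      (fun f hf => ⟨f, hf, rfl⟩) f)
    have h2 : evalAt hF P M hM ((LinearMap.mulRight k w).restrict (p := L') (q := M)
      (fun f hf => ⟨f, hf, rfl⟩) f) = 0 := hf'
    rw [h2, map_zero, sub_zero] at h1
    have h3 : (f : F) * w ∈ P.ring.nonunits := h1
    rw [Submodule.coe_subtype]
    rcases eq_or_ne (f : F) 0 with h0 | h0
    · rw [h0]; exact Submodule.zero_mem _
    · rw [hL, mem_rr hF D h0]
      rw [← ord_pos_iff hF P (mul_ne_zero h0 hw0), ord_mul hF P h0 hw0, hword] at h3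
      have h4 := (mem_rr hF _ h0).mp f.2
      intro Q
      have h5 := h4 Q
      rw [Finsupp.add_apply, Finsupp.single_apply] at h5
      split_ifs at h5 with hPQ
      · subst hPQ; omega
      · omega
  have h1 := LinearMap.finrank_range_add_finrank_ker Λ
  have h2 : Module.finrank k (LinearMap.range Λ) ≤ 1 := by
    have := Submodule.finrank_le (LinearMap.range Λ)
    simpa using this
  have hLL' : L ≤ L' := rr_mono hF (fun Q => by
    rw [Finsupp.add_apply, Finsupp.single_apply]
    split_ifs <;> omega)
  have hfdL : FiniteDimensional k L := Submodule.finiteDimensional_of_le hLL'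
  have h3 := Submodule.finrank_mono hker
  rw [Submodule.finrank_map_subtype_eq] at h3
  have h4 : Module.finrank k L' ≤ Module.finrank k L + 1 := by omega
  exact_mod_cast h4

lemma rr_le (hF : IsFunctionField k F) (D E : Place k F →₀ ℤ) (h : ∀ P, D P ≤ E P) :
    (Module.finrank k (riemannRochSpace k F E) : ℤ) ≤
      Module.finrank k (riemannRochSpace k F D) + (deg E - deg D) := by
  classical
  have key : ∀ (n : ℕ) (A : Place k F →₀ ℤ), (∀ P, 0 ≤ A P) → deg A = n → ∀ D : Place k F →₀ ℤ,
      (Module.finrank k (riemannRochSpace k F (D + A)) : ℤ) ≤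
      Module.finrank k (riemannRochSpace k F D) + n := by
    intro n
    induction n with
    | zero =>
      intro A hA hdeg D
      have hA0 : A = 0 := by
        ext P
        by_contra hne
        have h1 : 0 < deg A := by
          unfold deg Finsupp.sum
          apply Finset.sum_pos'
          · intro Q _; exact hA Q
          · exact ⟨P, by rw [Finsupp.mem_support_iff]; exact hne,
              lt_of_le_of_ne (hA P) (fun h => hne h.symm)⟩
        rw [hdeg] at h1
        exact absurd h1 (by norm_num)
      rw [hA0, add_zero]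
      simp
    | succ n ih =>
      intro A hA hdeg D
      obtain ⟨P, hP⟩ : ∃ P, 0 < A P := by
        by_contra hcon
        push Not at hcon
        have hA0 : A = 0 := by
          ext P
          exact le_antisymm (hcon P) (hA P)
        rw [hA0] at hdeg
        have : deg (0 : Place k F →₀ ℤ) = 0 := by unfold deg; simp
        rw [this] at hdeg
        push_cast at hdeg
        omega
      have h1 := ih (A - Finsupp.single P 1) (by
        intro Q
        rw [Finsupp.sub_apply, Finsupp.single_apply]
        split_ifs with hPQ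
        · subst hPQ; omega
        · have := hA Q; omega) (by
        have h2 := deg_add (A - Finsupp.single P 1) (Finsupp.single P 1)
        rw [sub_add_cancel, deg_single, hdeg] at h2
        push_cast at h2
        omega) D
      have h2 := rr_add_point hF (D + (A - Finsupp.single P 1)) P
      have e : D + (A - Finsupp.single P 1) + Finsupp.single P 1 = D + A := by
        rw [add_assoc, sub_add_cancel]
      rw [e] at h2
      push_cast
      linarith
  have h1 : 0 ≤ deg E - deg D ∧ deg (E - D) = deg E - deg D := by
    have h2 := deg_add (E - D) D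
    rw [sub_add_cancel] at h2
    have h3 : 0 ≤ deg (E - D) := by
      unfold deg Finsupp.sum
      apply Finset.sum_nonneg
      intro P _
      change 0 ≤ (E - D) P
      rw [Finsupp.sub_apply]
      have := h P
      omega
    constructor
    · omega
    · omega
  obtain ⟨n, hn⟩ := Int.eq_ofNat_of_zero_le h1.1
  have h2 := key n (E - D) (fun P => by rw [Finsupp.sub_apply]; have := h P; omega)
    (by rw [h1.2, hn]) D
  rw [add_sub_cancel] at h2
  rw [hn]
  exact h2

/-- For large divisors the Riemann inequality for the genus is an equality. -/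
lemma exists_large (hF : IsFunctionField k F) (γ : ℕ) (hγ : IsGenus k F γ) :
    ∃ D₀ : Place k F →₀ ℤ, ∀ D : Place k F →₀ ℤ, (∀ P, D₀ P ≤ D P) →
      (Module.finrank k (riemannRochSpace k F D) : ℤ) ≤ deg D + 1 - γ := by
  suffices h : ∃ D₀ : Place k F →₀ ℤ,
      (Module.finrank k (riemannRochSpace k F D₀) : ℤ) ≤ deg D₀ + 1 - γ by
    obtain ⟨D₀, hD₀⟩ := h
    refine ⟨D₀, fun D hD => ?_⟩
    have := rr_le hF D₀ D hD
    linarith
  rcases Nat.eq_zero_or_pos γ with h0 | h0
  · refine ⟨0, ?_⟩
    subst h0
    have hsub : riemannRochSpace k F 0 ≤ Submodule.span k {(1 : F)} := by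
      intro f hf
      rcases eq_or_ne f 0 with hf0 | hf0
      · rw [hf0]; exact Submodule.zero_mem _
      · rw [mem_rr hF 0 hf0] at hf
        by_cases ht : Transcendental k f
        · exfalso
          obtain ⟨P, hP⟩ := exists_place hF (transcendental_inv ht)
          rw [← ord_pos_iff hF P (inv_ne_zero hf0), ord_inv hF P hf0] at hP
          have := hf P
          rw [Finsupp.zero_apply] at this
          omega
        · obtain ⟨b, hb⟩ := exists_const_of_not_transcendental ht
          rw [Submodule.mem_span_singleton]
          exact ⟨b, by rw [Algebra.smul_def, mul_one, hb]⟩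
    have h1 := Submodule.finrank_mono hsub
    have h2 : Module.finrank k (Submodule.span k {(1 : F)}) ≤ 1 := by
      have := finrank_span_le_card (R := k) ({(1 : F)} : Set F)
      simpa using this
    have h3 : deg (0 : Place k F →₀ ℤ) = 0 := by unfold deg; simp
    rw [h3]
    push_cast
    omega
  · have h1 : γ - 1 ∉ {g : ℕ | ∀ D : Place k F →₀ ℤ,
        (D.sum fun _ m => m) + 1 ≤ (Module.finrank k (riemannRochSpace k F D) : ℤ) + g} := by
      intro hmem
      have := hγ.2 hmem
      omega
    rw [Set.mem_ofPred_eq] at h1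
    push Not at h1
    obtain ⟨D, hD⟩ := h1
    refine ⟨D, ?_⟩
    have h2 : deg D = D.sum fun _ m => m := rfl
    rw [h2]
    omega

end increments

end VP
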