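import Mathlib
import Pool.Agent.Helper9.NS
import Pool.Agent.Helper70.VP.RH
import Pool.Agent.Helper94.VQ.MoveLift

/-!
# The Riemann-Hurwitz inequality for double covers
-/

namespace VP

open VC VQ Function IntermediateField

universe u

section rh

variable {k F F₁ : Type u} [Field k] [IsAlgClosed k] [CharZero k] [Field F] [Algebra k F]
  [Field F₁] [Algebra k F₁] [Algebra F F₁] [IsScalarTower k F F₁]
  (hF : IsFunctionField k F) (hF₁ : IsFunctionField k F₁)

/-- Every place extends. -/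
theorem exists_res (P : Place k F) : ∃ Q : Place k F₁, res hF hF₁ Q = P := by
  obtain ⟨π, hπ0, hπ⟩ := exists_uniformizer hF P
  have hπn : π ∈ P.ring.nonunits := by
    rw [← ord_pos_iff hF P hπ0]; omega
  have ht := transcendental_of_mem_nonunits P hπ0 hπn
  have htE : Transcendental k (algebraMap F F₁ π) :=
    (transcendental_algebraMap_iff (algebraMap F F₁).injective).mpr ht
  obtain ⟨K, _, _, _, _, hK, G, _, _, _, hG₀⟩ := exists_cover hF₁ (algebraMap F F₁ π) htE
  let iFK : Algebra F K := ((algebraMap F₁ K).comp (algebraMap F F₁)).toAlgebra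
  have tFEK : IsScalarTower F F₁ K := IsScalarTower.of_algebraMap_eq (fun _ => rfl)
  have tkFK : IsScalarTower k F K := IsScalarTower.of_algebraMap_eq (fun a => by
    change algebraMap k K a = algebraMap F₁ K (algebraMap F F₁ (algebraMap k F a))
    rw [← IsScalarTower.algebraMap_apply k F F₁, ← IsScalarTower.algebraMap_apply k F₁ K])
  have hG : IsGaloisGroup G k⟮algebraMap F K π⟯ K := hG₀
  have htK : Transcendental k (algebraMap F K π) :=
    (transcendental_algebraMap_iff (algebraMap F K).injective).mpr ht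
  obtain ⟨v, hv⟩ := exists_place hK htK
  have h1 := card_cover hF hK π ht G hG v hv P
  rw [hπ] at h1
  have hne : Nonempty {φ : F →ₐ[k] K // φ π = algebraMap F K π ∧ Place.comap hF hK φ v = P} := by
    by_contra hcon
    rw [not_nonempty_iff] at hcon
    rw [Nat.card_of_isEmpty] at h1
    norm_num at h1
  obtain ⟨φ, hφ1, hφ2⟩ := hne
  obtain ⟨ψ, hψ⟩ := exists_lift (K := K) π ht G hG φ hφ1
  refine ⟨Place.comap hF₁ hK (ψ.comp (IsScalarTower.toAlgHom k F₁ K)) v, ?_⟩
  rw [← hφ2]
  exact res_comap hF hF₁ hK φ _ hψ v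

lemma ord_res (Q : Place k F₁) :
    ∃ e : ℤ, 0 < e ∧ ∀ x : F, x ≠ 0 →
      ord Q.ring (algebraMap F F₁ x) = e * ord (res hF hF₁ Q).ring x :=
  ord_comap hF hF₁ (IsScalarTower.toAlgHom k F F₁) Q

/-- the ramification index -/
noncomputable def ram (Q : Place k F₁) : ℤ := (ord_res hF hF₁ Q).choose

lemma ram_pos (Q : Place k F₁) : 0 < ram hF hF₁ Q := (ord_res hF hF₁ Q).choose_spec.1

lemma ord_ram (Q : Place k F₁) (x : F) (hx : x ≠ 0) :
    ord Q.ring (algebraMap F F₁ x) = ram hF hF₁ Q * ord (res hF hF₁ Q).ring x :=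
  (ord_res hF hF₁ Q).choose_spec.2 x hx

lemma finite_res (P : Place k F) : {Q : Place k F₁ | res hF hF₁ Q = P}.Finite := by
  obtain ⟨π, hπ0, hπ⟩ := exists_uniformizer hF P
  have hπn : π ∈ P.ring.nonunits := by
    rw [← ord_pos_iff hF P hπ0]; omega
  have ht := transcendental_of_mem_nonunits P hπ0 hπn
  have htE : Transcendental k (algebraMap F F₁ π) :=
    (transcendental_algebraMap_iff (algebraMap F F₁).injective).mpr ht
  apply (finite_zeros hF₁ htE).subset
  intro Q hQ
  rw [Set.mem_ofPred_eq] at hQ ⊢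
  rw [← hQ] at hπn
  change π ∈ (Q.ring.comap _).nonunits at hπn
  rw [mem_nonunits_comap] at hπn
  exact hπn

/-- The pullback of a divisor. -/
noncomputable def pull (D : Place k F →₀ ℤ) : Place k F₁ →₀ ℤ :=
  Finsupp.onFinset
    ((Set.Finite.biUnion D.support.finite_toSet (fun P _ => finite_res hF hF₁ P)).toFinset)
    (fun Q => ram hF hF₁ Q * D (res hF hF₁ Q)) (by
      intro Q hQ
      rw [Set.Finite.mem_toFinset, Set.mem_iUnion₂]
      refine ⟨res hF hF₁ Q, ?_, rfl⟩
      rw [Finset.mem_coe, Finsupp.mem_support_iff]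
      intro h
      rw [h, mul_zero] at hQ
      exact hQ rfl)

lemma pull_apply (D : Place k F →₀ ℤ) (Q : Place k F₁) :
    pull hF hF₁ D Q = ram hF hF₁ Q * D (res hF hF₁ Q) := rfl

variable (ι : F₁ →ₐ[k] F₁) (y : F₁) (f : F)

/-- The sum of the ramification indices over a point is at least two. -/
theorem two_le_sum_ram (hιF : ∀ x : F, ι (algebraMap F F₁ x) = algebraMap F F₁ x)
    (hy0 : y ≠ 0) (hιy : ι y = -y) (hyf : y ^ 2 = algebraMap F F₁ f) (P : Place k F) :
    2 ≤ ∑ Q ∈ (finite_res hF hF₁ P).toFinset, ram hF hF₁ Q := by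
  classical
  have hf0 : f ≠ 0 := by
    rintro rfl
    rw [map_zero] at hyf
    exact pow_ne_zero 2 hy0 hyf
  obtain ⟨Q, hQ⟩ := exists_res hF hF₁ P
  have hmemQ : Q ∈ (finite_res hF hF₁ P).toFinset := by
    rw [Set.Finite.mem_toFinset]; exact hQ
  have hnonneg : ∀ Q' ∈ (finite_res hF hF₁ P).toFinset, 0 ≤ ram hF hF₁ Q' :=
    fun Q' _ => (ram_pos hF hF₁ Q').le
  have hy2 : 2 * ord Q.ring y = ram hF hF₁ Q * ord P.ring f := by
    rw [← hQ, ← ord_ram hF hF₁ Q f hf0, ← hyf, ord_pow hF₁ Q hy0]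
    rfl
  by_cases hpar : Even (ord P.ring f)
  swap
  · -- ramified
    rw [Int.not_even_iff_odd] at hpar
    have h1 : Even (ram hF hF₁ Q) := by
      have h2 : Even (ram hF hF₁ Q * ord P.ring f) := ⟨ord Q.ring y, by rw [← hy2]; ring⟩
      rcases Int.even_mul.mp h2 with h | h
      · exact h
      · exact absurd h (Int.not_even_iff_odd.mpr hpar)
    have h2 := ram_pos hF hF₁ Q
    have h3 : 2 ≤ ram hF hF₁ Q := by
      obtain ⟨c, hc⟩ := h1
      omega
    exact h3.trans (Finset.single_le_sum hnonneg hmemQ)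
  · obtain ⟨m, hm⟩ := hpar
    obtain ⟨π, hπ0, hπ⟩ := exists_uniformizer hF P
    have hm1π : algebraMap F F₁ π ≠ 0 := (_root_.map_ne_zero _).mpr hπ0
    obtain ⟨w, hw0, hword⟩ : ∃ w : F, w ≠ 0 ∧ ord P.ring w = - m := by
      obtain ⟨a, b, hab⟩ : ∃ a b : ℕ, - m = a - b := ⟨(-m).toNat, (m).toNat, by omega⟩
      refine ⟨π ^ a * (π ^ b)⁻¹, mul_ne_zero (pow_ne_zero _ hπ0) (inv_ne_zero (pow_ne_zero _ hπ0)), ?_⟩
      rw [ord_mul hF P (pow_ne_zero _ hπ0) (inv_ne_zero (pow_ne_zero _ hπ0)),
        ord_inv hF P (pow_ne_zero _ hπ0), ord_pow hF P hπ0, ord_pow hF P hπ0, hπ, hab]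
      ring
    set z := y * algebraMap F F₁ w with hz
    have hw1 : algebraMap F F₁ w ≠ 0 := (_root_.map_ne_zero _).mpr hw0
    have hz0 : z ≠ 0 := mul_ne_zero hy0 hw1
    have hzord : ord Q.ring z = 0 := by
      rw [hz, ord_mul hF₁ Q hy0 hw1, ord_ram hF hF₁ Q w hw0, hQ, hword]
      have : 2 * ord Q.ring y = 2 * (ram hF hF₁ Q * m) := by rw [hy2, hm]; ring
      linarith
    have hιz : ι z = -z := by
      rw [hz, map_mul, hιy, hιF, neg_mul]
    have hzmem : z ∈ Q.ring := by rw [← ord_nonneg_iff hF₁ Q hz0]; omega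
    obtain ⟨c, hc⟩ := exists_residue hF₁ Q hzmem
    have hc0 : c ≠ 0 := by
      rintro rfl
      rw [map_zero, sub_zero, ← ord_pos_iff hF₁ Q hz0] at hc
      omega
    -- the conjugate place
    set Q' := Place.comap hF₁ hF₁ ι Q with hQ'
    have hresQ' : res hF hF₁ Q' = P := by
      rw [← hQ]
      ext x
      change ι (algebraMap F F₁ x) ∈ Q.ring ↔ algebraMap F F₁ x ∈ Q.ring
      rw [hιF]
    have hne : Q ≠ Q' := by
      intro heq
      have h1 : z - algebraMap k F₁ c ∈ Q'.ring.nonunits := by rw [← heq]; exact hc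
      have h2 : ι (z - algebraMap k F₁ c) ∈ Q.ring.nonunits := by
        change _ ∈ (Q.ring.comap _).nonunits at h1
        rw [mem_nonunits_comap] at h1
        exact h1
      rw [map_sub, hιz, AlgHom.commutes] at h2
      have h3 : z - algebraMap k F₁ (-c) ∈ Q.ring.nonunits := by
        have h4 : z - algebraMap k F₁ (-c) = -(-z - algebraMap k F₁ c) := by
          rw [map_neg]; ring
        rw [h4]
        obtain ⟨ha, ha'⟩ := (ValuationSubring.mem_nonunits_iff_exists_mem_maximalIdeal).mp h2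
        rw [ValuationSubring.mem_nonunits_iff_exists_mem_maximalIdeal]
        exact ⟨neg_mem ha, (IsLocalRing.maximalIdeal Q.ring).neg_mem ha'⟩
      have h5 := residue_unique Q hc h3
      have h6 : (2 : k) * c = 0 := by
        rw [two_mul]
        nth_rewrite 1 [h5]
        ring
      rcases mul_eq_zero.mp h6 with h | h
      · exact absurd h two_ne_zero
      · exact hc0 h
    have hmemQ' : Q' ∈ (finite_res hF hF₁ P).toFinset := by
      rw [Set.Finite.mem_toFinset]; exact hresQ'
    have h1 : ∑ R ∈ ({Q, Q'} : Finset (Place k F₁)), ram hF hF₁ R ≤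
        ∑ Q ∈ (finite_res hF hF₁ P).toFinset, ram hF hF₁ Q := by
      apply Finset.sum_le_sum_of_subset_of_nonneg
      · intro R hR
        rw [Finset.mem_insert, Finset.mem_singleton] at hR
        rcases hR with rfl | rfl
        · exact hmemQ
        · exact hmemQ'
      · intro R hR _; exact hnonneg R hR
    rw [Finset.sum_pair hne] at h1
    have h2 := ram_pos hF hF₁ Q
    have h3 := ram_pos hF hF₁ Q'
    omega

theorem deg_pull (hιF : ∀ x : F, ι (algebraMap F F₁ x) = algebraMap F F₁ x)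
    (hy0 : y ≠ 0) (hιy : ι y = -y) (hyf : y ^ 2 = algebraMap F F₁ f) (D : Place k F →₀ ℤ)
    (hD : ∀ P, 0 ≤ D P) : 2 * deg D ≤ deg (pull hF hF₁ D) := by
  classical
  set S := (Set.Finite.biUnion D.support.finite_toSet
    (fun P _ => finite_res hF hF₁ P)).toFinset with hS
  have h1 : deg (pull hF hF₁ D) = ∑ Q ∈ S, ram hF hF₁ Q * D (res hF hF₁ Q) := by
    unfold deg
    rw [Finsupp.sum_of_support_subset (s := S)]
    · rfl
    · exact Finsupp.support_onFinset_subset
    · intro _ _; rfl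
  have hmaps : ∀ Q ∈ S, res hF hF₁ Q ∈ D.support := by
    intro Q hQ
    rw [hS, Set.Finite.mem_toFinset, Set.mem_iUnion₂] at hQ
    obtain ⟨P, hP, hPQ⟩ := hQ
    have : res hF hF₁ Q = P := hPQ
    rw [this]
    exact hP
  rw [h1, ← Finset.sum_fiberwise_of_maps_to hmaps]
  unfold deg Finsupp.sum
  rw [Finset.mul_sum]
  apply Finset.sum_le_sum
  intro P hP
  have h2 : S.filter (fun Q => res hF hF₁ Q = P) = (finite_res hF hF₁ P).toFinset := by
    ext Q
    simp only [Finset.mem_filter, hS, Set.Finite.mem_toFinset, Set.mem_iUnion₂]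
    constructor
    · exact fun h => h.2
    · intro h
      exact ⟨⟨P, hP, h⟩, h⟩
  rw [h2]
  have h3 : ∑ Q ∈ (finite_res hF hF₁ P).toFinset, ram hF hF₁ Q * D (res hF hF₁ Q) =
      (∑ Q ∈ (finite_res hF hF₁ P).toFinset, ram hF hF₁ Q) * D P := by
    rw [Finset.sum_mul]
    apply Finset.sum_congr rfl
    intro Q hQ
    rw [Set.Finite.mem_toFinset] at hQ
    have : res hF hF₁ Q = P := hQ
    rw [this]
  rw [h3]
  exact mul_le_mul_of_nonneg_right (two_le_sum_ram hF hF₁ ι y f hιF hy0 hιy hyf P) (hD P)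

lemma ord_invol (hιι : ∀ x, ι (ι x) = x) (Q : Place k F₁) (z : F₁) (hz : z ≠ 0) :
    ord Q.ring (ι z) = ord (Place.comap hF₁ hF₁ ι Q).ring z := by
  obtain ⟨n, hn, hord⟩ := ord_comap hF₁ hF₁ ι Q
  obtain ⟨n', hn', hord'⟩ := ord_comap hF₁ hF₁ ι (Place.comap hF₁ hF₁ ι Q)
  have hQQ : Place.comap hF₁ hF₁ ι (Place.comap hF₁ hF₁ ι Q) = Q := by
    ext x
    change ι (ι x) ∈ Q.ring ↔ x ∈ Q.ring
    rw [hιι]
  rw [hQQ] at hord'
  obtain ⟨π, hπ0, hπ⟩ := exists_uniformizer hF₁ Q
  have hιπ : ι π ≠ 0 := (_root_.map_ne_zero ι).mpr hπ0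
  have h1 := hord (ι π) hιπ
  rw [hιι, hord' π hπ0, hπ, mul_one] at h1
  have h2 : n = 1 := by
    rcases Int.eq_one_or_neg_one_of_mul_eq_one h1.symm with h | h
    · exact h
    · omega
  rw [hord z hz, h2, one_mul]

/-- The floor of half the divisor of `f`. -/
noncomputable def halfDiv (hf : f ≠ 0) : Place k F →₀ ℤ :=
  Finsupp.onFinset (finite_support_ord hF hf).toFinset (fun P => ord P.ring f / 2) (by
    intro P hP
    rw [Set.Finite.mem_toFinset]
    intro h
    apply hP
    rw [h]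
    norm_num)

lemma halfDiv_apply (hf : f ≠ 0) (P : Place k F) : halfDiv hF f hf P = ord P.ring f / 2 := rfl

lemma deg_halfDiv (hf : f ≠ 0) (s : ℕ) (hs : (oddSet hF hf).card = 2 * s) :
    deg (halfDiv hF f hf) = - s := by
  classical
  have h1 : deg (halfDiv hF f hf) = ∑ P ∈ (finite_support_ord hF hf).toFinset, ord P.ring f / 2 := by
    unfold deg
    rw [Finsupp.sum_of_support_subset (s := (finite_support_ord hF hf).toFinset)]
    · rfl
    · exact Finsupp.support_onFinset_subset
    · intro _ _; rfl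
  have h2 := degree_zero hF hf
  have h3 : ∀ P : Place k F, ord P.ring f = 2 * (ord P.ring f / 2) +
      (if Odd (ord P.ring f) then 1 else 0) := by
    intro P
    split_ifs with h
    · obtain ⟨c, hc⟩ := h
      omega
    · rw [Int.not_odd_iff_even] at h
      obtain ⟨c, hc⟩ := h
      omega
  rw [Finset.sum_congr rfl (fun P _ => h3 P), Finset.sum_add_distrib, ← Finset.mul_sum,
    ← h1] at h2
  have h4 : ∑ P ∈ (finite_support_ord hF hf).toFinset, (if Odd (ord P.ring f) then (1 : ℤ) else 0) =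
      2 * s := by
    rw [← Finset.sum_filter, Finset.sum_const, nsmul_eq_mul, mul_one]
    have : (oddSet hF hf) = (finite_support_ord hF hf).toFinset.filter
      (fun P => Odd (ord P.ring f)) := by
      unfold oddSet
      congr
    rw [← this, hs]
    push_cast
    ring
  rw [h4] at h2
  linarith

include hF₁ in
/-- **Riemann-Hurwitz inequality** for double covers. -/
theorem riemann_hurwitz (hιF : ∀ x : F, ι (algebraMap F F₁ x) = algebraMap F F₁ x)
    (hιι : ∀ x, ι (ι x) = x)
    (hy0 : y ≠ 0) (hιy : ι y = -y) (hyf : y ^ 2 = algebraMap F F₁ f) (hf : f ≠ 0)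
    (hdec : ∀ z : F₁, ∃ α β : F, z = algebraMap F F₁ α + algebraMap F F₁ β * y)
    (γ : ℕ) (hγ : IsGenus k F γ) (g : ℕ) (hg : ∀ D : Place k F₁ →₀ ℤ,
      (D.sum fun _ m => m) + 1 ≤ (Module.finrank k (riemannRochSpace k F₁ D) : ℤ) + g)
    (s : ℕ) (hs : (oddSet hF hf).card = 2 * s) : 2 * γ + s ≤ g + 1 := by
  classical
  obtain ⟨D₀, hD₀⟩ := exists_large hF γ hγ
  set A := halfDiv hF f hf with hA
  obtain ⟨P₀, _⟩ : ∃ P : Place k F, True := by
    obtain ⟨t, ht, _⟩ := id hF
    obtain ⟨P, _⟩ := exists_place hF ht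
    exact ⟨P, trivial⟩
  -- a large divisor
  let D₁ : Place k F →₀ ℤ := D₀.mapRange (fun m => max m 0) (by simp) +
    A.mapRange (fun m => max (-m) 0) (by simp)
  have hD₁ : ∀ P, D₁ P = max (D₀ P) 0 + max (- A P) 0 := fun P => rfl
  have hD₁deg : 0 ≤ deg D₁ := by
    unfold deg Finsupp.sum
    apply Finset.sum_nonneg
    intro P _
    change 0 ≤ D₁ P
    rw [hD₁]
    have h1 := le_max_right (D₀ P) 0
    have h2 := le_max_right (- A P) 0
    omega
  let N : ℕ := γ + s
  let D : Place k F →₀ ℤ := D₁ + Finsupp.single P₀ (N : ℤ)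
  have hDP : ∀ P, D₁ P ≤ D P := by
    intro P
    simp only [D, Finsupp.add_apply, Finsupp.single_apply]
    split_ifs <;> omega
  have hDD₀ : ∀ P, D₀ P ≤ D P := by
    intro P
    have h1 := hDP P
    rw [hD₁] at h1
    have h2 := le_max_left (D₀ P) 0
    have h3 := le_max_right (- A P) 0
    omega
  have hDAD₀ : ∀ P, D₀ P ≤ (D + A) P := by
    intro P
    rw [Finsupp.add_apply]
    have h1 := hDP P
    rw [hD₁] at h1
    have h2 := le_max_left (D₀ P) 0
    have h3 := le_max_left (- A P) 0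
    omega
  have hDnn : ∀ P, 0 ≤ D P := by
    intro P
    have h1 := hDP P
    rw [hD₁] at h1
    have h2 := le_max_right (D₀ P) 0
    have h3 := le_max_right (- A P) 0
    omega
  have hdegD : (N : ℤ) ≤ deg D := by
    simp only [D]
    rw [deg_add, deg_single]
    omega
  have hdegA := deg_halfDiv hF f hf s hs
  rw [← hA] at hdegA
  have hl1 := hD₀ D hDD₀
  have hl2 := hD₀ (D + A) hDAD₀
  rw [deg_add, hdegA] at hl2
  have hfd1 : FiniteDimensional k (riemannRochSpace k F D) := by
    apply Module.finite_of_finrank_pos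
    have h1 := hγ.1 D
    have h2 : deg D = D.sum fun _ m => m := rfl
    rw [← h2] at h1
    omega
  have hfd2 : FiniteDimensional k (riemannRochSpace k F (D + A)) := by
    apply Module.finite_of_finrank_pos
    have h1 := hγ.1 (D + A)
    have h2 : deg (D + A) = (D + A).sum fun _ m => m := rfl
    rw [← h2, deg_add, hdegA] at h1
    omega
  -- the comparison map
  let Ψ : (riemannRochSpace k F D × riemannRochSpace k F (D + A)) →ₗ[k] F₁ :=
    ((IsScalarTower.toAlgHom k F F₁).toLinearMap ∘ₗ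
      (riemannRochSpace k F D).subtype).coprod
    ((LinearMap.mulRight k y) ∘ₗ ((IsScalarTower.toAlgHom k F F₁).toLinearMap ∘ₗ
      (riemannRochSpace k F (D + A)).subtype))
  have hrange : riemannRochSpace k F₁ (pull hF hF₁ D) ≤ LinearMap.range Ψ := by
    intro z hz
    obtain ⟨α, β, hαβ⟩ := hdec z
    have hιz : ι z = algebraMap F F₁ α - algebraMap F F₁ β * y := by
      rw [hαβ, map_add, map_mul, hιF, hιF, hιy]
      ring
    have h2F : (2 : k) ≠ 0 := two_ne_zero
    have hιmem : ι z ∈ riemannRochSpace k F₁ (pull hF hF₁ D) := by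
      rcases eq_or_ne z 0 with h0 | h0
      · rw [h0, map_zero]; exact Submodule.zero_mem _
      · rw [mem_rr hF₁ _ h0] at hz
        rw [mem_rr hF₁ _ ((_root_.map_ne_zero ι).mpr h0)]
        intro Q
        rw [ord_invol hF₁ ι hιι Q z h0]
        have h1 := hz (Place.comap hF₁ hF₁ ι Q)
        have hres : res hF hF₁ (Place.comap hF₁ hF₁ ι Q) = res hF hF₁ Q := by
          ext x
          change ι (algebraMap F F₁ x) ∈ Q.ring ↔ algebraMap F F₁ x ∈ Q.ring
          rw [hιF]
        have hram : ram hF hF₁ (Place.comap hF₁ hF₁ ι Q) = ram hF hF₁ Q := by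
          obtain ⟨π, hπ0, hπ⟩ := exists_uniformizer hF (res hF hF₁ Q)
          have e1 := ord_ram hF hF₁ Q π hπ0
          have e2 := ord_ram hF hF₁ (Place.comap hF₁ hF₁ ι Q) π hπ0
          rw [hres] at e2
          rw [hπ, mul_one] at e1 e2
          rw [← e1, ← e2, ← ord_invol hF₁ ι hιι Q _ ((_root_.map_ne_zero _).mpr hπ0), hιF]
        rw [pull_apply, hres, hram] at h1
        rw [pull_apply]
        exact h1
    have hα : α ∈ riemannRochSpace k F D := by
      rcases eq_or_ne α 0 with h0 | h0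
      · rw [h0]; exact Submodule.zero_mem _
      · have h1 : (2 : k)⁻¹ • (z + ι z) ∈ riemannRochSpace k F₁ (pull hF hF₁ D) :=
          Submodule.smul_mem _ _ (Submodule.add_mem _ hz hιmem)
        have h2 : (2 : k)⁻¹ • (z + ι z) = algebraMap F F₁ α := by
          rw [hιz, hαβ]
          have : algebraMap F F₁ α + algebraMap F F₁ β * y + (algebraMap F F₁ α -
              algebraMap F F₁ β * y) = (2 : k) • algebraMap F F₁ α := by
            rw [two_smul]; ring
          rw [this, smul_smul, inv_mul_cancel₀ h2F, one_smul]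
        rw [h2, mem_rr hF₁ _ ((_root_.map_ne_zero _).mpr h0)] at h1
        rw [mem_rr hF D h0]
        intro P
        obtain ⟨Q, hQ⟩ := exists_res hF hF₁ P
        have h3 := h1 Q
        rw [pull_apply, ord_ram hF hF₁ Q α h0, hQ, ← mul_add] at h3
        exact nonneg_of_mul_nonneg_right h3 (ram_pos hF hF₁ Q)
    have hβ : β ∈ riemannRochSpace k F (D + A) := by
      rcases eq_or_ne β 0 with h0 | h0
      · rw [h0]; exact Submodule.zero_mem _
      · have h1 : (2 : k)⁻¹ • (z - ι z) ∈ riemannRochSpace k F₁ (pull hF hF₁ D) :=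
          Submodule.smul_mem _ _ (Submodule.sub_mem _ hz hιmem)
        have h2 : (2 : k)⁻¹ • (z - ι z) = algebraMap F F₁ β * y := by
          rw [hιz, hαβ]
          have : algebraMap F F₁ α + algebraMap F F₁ β * y - (algebraMap F F₁ α -
              algebraMap F F₁ β * y) = (2 : k) • (algebraMap F F₁ β * y) := by
            rw [two_smul]; ring
          rw [this, smul_smul, inv_mul_cancel₀ h2F, one_smul]
        have hβ1 : algebraMap F F₁ β ≠ 0 := (_root_.map_ne_zero _).mpr h0
        rw [h2, mem_rr hF₁ _ (mul_ne_zero hβ1 hy0)] at h1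
        rw [mem_rr hF _ h0]
        intro P
        obtain ⟨Q, hQ⟩ := exists_res hF hF₁ P
        have h3 := h1 Q
        have hy2 : 2 * ord Q.ring y = ram hF hF₁ Q * ord P.ring f := by
          rw [← hQ, ← ord_ram hF hF₁ Q f hf, ← hyf, ord_pow hF₁ Q hy0]
          rfl
        rw [pull_apply, ord_mul hF₁ Q hβ1 hy0, ord_ram hF hF₁ Q β h0, hQ] at h3
        have h4 : 0 ≤ ram hF hF₁ Q * (2 * ord P.ring β + ord P.ring f + 2 * D P) := by
          have : ram hF hF₁ Q * (2 * ord P.ring β + ord P.ring f + 2 * D P) =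
            2 * (ram hF hF₁ Q * ord P.ring β + ord Q.ring y + ram hF hF₁ Q * D P) := by
            rw [mul_add, mul_add, ← hy2]; ring
          rw [this]
          linarith
        have h5 := nonneg_of_mul_nonneg_right h4 (ram_pos hF hF₁ Q)
        rw [Finsupp.add_apply, hA, halfDiv_apply]
        omega
    exact ⟨(⟨α, hα⟩, ⟨β, hβ⟩), hαβ.symm⟩
  have h1 := Submodule.finrank_mono hrange
  have h2 := LinearMap.finrank_range_le Ψ
  rw [Module.finrank_prod] at h2
  have h3 := hg (pull hF hF₁ D)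
  have h4 : deg (pull hF hF₁ D) = (pull hF hF₁ D).sum fun _ m => m := rfl
  rw [← h4] at h3
  have h5 := deg_pull hF hF₁ ι y f hιF hy0 hιy hyf D hDnn
  omega

end rh

end VP
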