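import Mathlib
import Pool.Agent.Helper9.NS
import Pool.Agent.Helper70.VP.Basic
import Pool.Agent.Helper94.VQ.Act

/-!
# Embeddings of a Galois extension which agree on the fixed field, the Galois action on the places
of a Galois cover of the line
-/

namespace VP

open VC VQ Function IntermediateField Polynomial

universe u

section liftdiff

variable {k E : Type u} [Field k] [Field E] [Algebra k E]

lemma isGaloisGroup_fixedField (H : Subgroup (E ≃ₐ[k] E)) [Finite H] :
    IsGaloisGroup H (fixedField H) E where
  faithful := inferInstance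
  commutes := ⟨fun h x z => by
    change h.1 ((x : E) * z) = (x : E) * h.1 z
    rw [map_mul]
    congr 1
    exact x.2 h⟩
  isInvariant := inferInstance

/-- Two embeddings of `E` which agree on the fixed field of `H` differ by an element of `H`. -/
theorem lift_diff {K : Type u} [Field K] [Algebra k K] (H : Subgroup (E ≃ₐ[k] E)) [Finite H]
    (ψ ψ' : E →ₐ[k] K) (h : ∀ x ∈ fixedField H, ψ x = ψ' x) :
    ∃ g : H, ∀ z, ψ' z = ψ (g.1 z) := by
  have hG := isGaloisGroup_fixedField H
  have hgal : IsGalois (fixedField H) E := IsGaloisGroup.isGalois H (fixedField H) E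
  let a1 : Algebra E K := ψ.toRingHom.toAlgebra
  let φ : E →ₐ[fixedField H] K := { ψ'.toRingHom with
    commutes' := by
      intro r
      exact (h r.1 r.2).symm }
  let ρ : E →ₐ[fixedField H] E := φ.restrictNormal E
  have hρ : ∀ z, ψ (ρ z) = ψ' z := fun z => φ.restrictNormal_commutes E z
  let ρ' : E ≃ₐ[fixedField H] E := AlgEquiv.ofBijective ρ (AlgHom.normal_bijective _ _ _ ρ)
  obtain ⟨g, hg⟩ := (IsGaloisGroup.mulEquivAlgEquiv H (fixedField H) E).surjective ρ'
  refine ⟨g, fun z => ?_⟩
  rw [← hρ z]
  congr 1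
  have h1 : (IsGaloisGroup.mulEquivAlgEquiv H (fixedField H) E) g z = ρ' z := by rw [hg]
  exact h1.symm

end liftdiff

section polys

variable {k K : Type u} [Field k] [IsAlgClosed k] [CharZero k] [Field K] [Algebra k K]

lemma ord_aeval (hK : IsFunctionField k K) (t : K) (a : k) (v : Place k K)
    (hv : t - algebraMap k K a ∈ v.ring.nonunits) (ht : Transcendental k t) (r : k[X])
    (hr : r ≠ 0) :
    ord v.ring (aeval t r) = r.rootMultiplicity a * ord v.ring (t - algebraMap k K a) := by
  have hta : t - algebraMap k K a ≠ 0 := by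
    intro h0
    rw [sub_eq_zero] at h0
    rw [h0] at ht
    exact ht (isAlgebraic_algebraMap a)
  have hinj : ∀ p : k[X], p ≠ 0 → aeval t p ≠ 0 := by
    intro p hp h0
    exact hp ((transcendental_iff.mp ht) p h0)
  obtain ⟨q, hq, hq'⟩ := Polynomial.exists_eq_pow_rootMultiplicity_mul_and_not_dvd r hr a
  have hqa : q.eval a ≠ 0 := by
    intro h0
    exact hq' (Polynomial.dvd_iff_isRoot.mpr h0)
  have hq0 : q ≠ 0 := by
    rintro rfl
    exact hq' (dvd_zero _)
  obtain ⟨s, hs⟩ := Polynomial.X_sub_C_dvd_sub_C_eval (p := q) (a := a)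
  have e1 : aeval t q = algebraMap k K (q.eval a) + (t - algebraMap k K a) * aeval t s := by
    have h1 := congrArg (aeval t) hs
    rw [map_sub, map_mul, map_sub, aeval_X, aeval_C, aeval_C] at h1
    rw [← h1]
    ring
  have htr : t ∈ v.ring := by
    have h1 := v.ring.add_mem _ _ (ValuationSubring.nonunits_subset hv) (v.algebraMap_mem a)
    rwa [sub_add_cancel] at h1
  have hpoly : ∀ p : k[X], aeval t p ∈ v.ring := by
    intro p
    induction p using Polynomial.induction_on with
    | C a => rw [aeval_C]; exact v.algebraMap_mem a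
    | add p q hp hq => rw [map_add]; exact v.ring.add_mem _ _ hp hq
    | monomial n a ih =>
      rw [pow_succ, ← mul_assoc, map_mul, aeval_X]
      exact v.ring.mul_mem _ _ ih htr
  have hta' := (ord_pos_iff hK v hta).mpr hv
  have e2 : ord v.ring (aeval t q) = 0 := by
    rw [e1]
    by_cases hs0 : s = 0
    · rw [hs0, map_zero, mul_zero, add_zero]
      exact ord_algebraMap hK v hqa
    · have hs1 := hinj s hs0
      have h2 : 0 ≤ ord v.ring (aeval t s) := (ord_nonneg_iff hK v hs1).mpr (hpoly s)
      have h3 : ord v.ring ((t - algebraMap k K a) * aeval t s) =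
          ord v.ring (t - algebraMap k K a) + ord v.ring (aeval t s) := ord_mul hK v hta hs1
      have h4 := ord_algebraMap hK v hqa
      obtain ⟨_, h5⟩ := ord_add_eq hK v ((_root_.map_ne_zero (algebraMap k K)).mpr hqa)
        (mul_ne_zero hta hs1) (by rw [h4, h3]; omega)
      rw [h5, h4, h3]
      apply min_eq_left
      omega
  conv_lhs => rw [hq]
  rw [map_mul, map_pow, map_sub, aeval_X, aeval_C, ord_mul hK v (pow_ne_zero _ hta)
    (hinj q hq0), ord_pow hK v hta, e2, add_zero]

/-- A place over `t = 0` meets `k(t)` in a ring which does not depend on the place. -/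
lemma mem_adjoin_iff (hK : IsFunctionField k K) (t : K) (ht : Transcendental k t)
    (v v' : Place k K) (hv : t ∈ v.ring.nonunits) (hv' : t ∈ v'.ring.nonunits) (x : K)
    (hx : x ∈ k⟮t⟯) : x ∈ v.ring ↔ x ∈ v'.ring := by
  have hinj : ∀ p : k[X], p ≠ 0 → aeval t p ≠ 0 := by
    intro p hp h0
    exact hp ((transcendental_iff.mp ht) p h0)
  obtain ⟨r, s, hrs⟩ := (IntermediateField.mem_adjoin_simple_iff k x).mp hx
  rcases eq_or_ne x 0 with hx0 | hx0
  · rw [hx0]
    exact ⟨fun _ => v'.ring.zero_mem, fun _ => v.ring.zero_mem⟩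
  have hr : r ≠ 0 := by
    rintro rfl
    rw [map_zero, zero_div] at hrs
    exact hx0 hrs
  have hs : s ≠ 0 := by
    rintro rfl
    rw [map_zero, div_zero] at hrs
    exact hx0 hrs
  have key : ∀ w : Place k K, t ∈ w.ring.nonunits → (x ∈ w.ring ↔
      s.rootMultiplicity 0 ≤ r.rootMultiplicity 0) := by
    intro w hw
    have ht0 : t ≠ 0 := by
      rintro rfl
      exact ht isAlgebraic_zero
    have hw0 : t - algebraMap k K 0 ∈ w.ring.nonunits := by rwa [map_zero, sub_zero]
    rw [← ord_nonneg_iff hK w hx0, hrs, div_eq_mul_inv, ord_mul hK w (hinj r hr)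
      (inv_ne_zero (hinj s hs)), ord_inv hK w (hinj s hs), ord_aeval hK t 0 w hw0 ht r hr,
      ord_aeval hK t 0 w hw0 ht s hs, map_zero, sub_zero]
    have hpos := (ord_pos_iff hK w ht0).mpr hw
    constructor
    · intro h
      have h1 : 0 ≤ ((r.rootMultiplicity 0 : ℤ) - s.rootMultiplicity 0) * ord w.ring t := by
        linarith
      have h2 := nonneg_of_mul_nonneg_left h1 hpos
      omega
    · intro h
      have h1 : 0 ≤ ((r.rootMultiplicity 0 : ℤ) - s.rootMultiplicity 0) * ord w.ring t :=
        mul_nonneg (by omega) hpos.le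
      linarith
  rw [key v hv, key v' hv']

end polys

section galois

variable {k K : Type u} [Field k] [IsAlgClosed k] [CharZero k] [Field K] [Algebra k K]
  (T : K) (G : Type u) [Group G] [Finite G] [MulSemiringAction G K]

/-- The automorphism of `K` over `k` given by an element of the Galois group over `k(T)`. -/
def gEquiv (hG : IsGaloisGroup G k⟮T⟯ K) : G →* (K ≃ₐ[k] K) where
  toFun g :=
    { (MulSemiringAction.toRingEquiv G K g : K ≃+* K) with
      commutes' := by
        intro a
        have hc := hG.commutes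
        have h1 : algebraMap k K a = algebraMap k⟮T⟯ K (algebraMap k k⟮T⟯ a) :=
          IsScalarTower.algebraMap_apply k k⟮T⟯ K a
        change g • (algebraMap k K a) = algebraMap k K a
        rw [h1]
        exact smul_algebraMap g _ }
  map_one' := by
    ext x
    exact one_smul G x
  map_mul' := by
    intro g g'
    ext x
    exact mul_smul g g' x

omit [IsAlgClosed k] [CharZero k] [Finite G] in
lemma gEquiv_apply (hG : IsGaloisGroup G k⟮T⟯ K) (g : G) (x : K) :
    gEquiv T G hG g x = g • x := rfl

omit [IsAlgClosed k] [CharZero k] [Finite G] in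
lemma gEquiv_gen (hG : IsGaloisGroup G k⟮T⟯ K) (g : G) : g • T = T := by
  have hc := hG.commutes
  have h1 : T = algebraMap k⟮T⟯ K (IntermediateField.AdjoinSimple.gen k T) := rfl
  rw [h1]
  exact smul_algebraMap g _

omit [IsAlgClosed k] [CharZero k] [Finite G] in
lemma mem_adjoin_of_fixed (hG : IsGaloisGroup G k⟮T⟯ K) (x : K) (hx : ∀ g : G, g • x = x) :
    x ∈ k⟮T⟯ := by
  obtain ⟨y, hy⟩ := hG.isInvariant.isInvariant x hx
  rw [← hy]
  exact y.2

/-- The Galois group is transitive on the places over `T = 0`. -/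
theorem exists_galois_place (hK : IsFunctionField k K) (hT : Transcendental k T)
    (hG : IsGaloisGroup G k⟮T⟯ K) (v v' : Place k K) (hv : T ∈ v.ring.nonunits)
    (hv' : T ∈ v'.ring.nonunits) : ∃ g : G, v' = act hK (gEquiv T G hG g) v := by
  have hfin : Finite (gEquiv T G hG).range :=
    Finite.of_surjective (gEquiv T G hG).rangeRestrict (MonoidHom.rangeRestrict_surjective _)
  obtain ⟨⟨_, g, rfl⟩, hσ⟩ := exists_act hK (gEquiv T G hG).range v v' (by
    intro x hx
    apply mem_adjoin_iff hK T hT v v' hv hv'
    apply mem_adjoin_of_fixed T G hG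
    intro g
    exact hx ⟨_, g, rfl⟩)
  exact ⟨g, hσ⟩

end galois

end VP
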