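import Mathlib
import Pool.Agent.Helper9.NS
import Pool.Agent.Helper70.VP.Basic
import Pool.Agent.Helper94.VQ.Char

/-!
# Ramified points of double covers and twisted averages
-/

namespace VP

open VC VQ Function IntermediateField

universe u

section ram

variable {k E : Type u} [Field k] [Field E] [Algebra k E]

/-- `y` spans the part of `E` over the fixed field of `H` on which `H` acts by the character
`χ`. -/
def IsTw (H : Subgroup (E ≃ₐ[k] E)) (χ : H →* ℤˣ) (y : E) : Prop :=
  y ≠ 0 ∧ ∀ h : H, h.1 y = ((χ h : ℤˣ) : ℤ) • y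

theorem exists_isTw (H : Subgroup (E ≃ₐ[k] E)) [Finite H] (χ : H →* ℤˣ) :
    ∃ y : E, IsTw H χ y := by
  classical
  have : Fintype H := Fintype.ofFinite H
  let m : H → (E →* E) := fun h => ((h.1 : E ≃ₐ[k] E) : E →* E)
  have hinj : Function.Injective m := by
    intro a b hab
    apply Subtype.ext
    ext x
    exact congrArg (fun f : E →* E => f x) hab
  have hli := (linearIndependent_monoidHom E E).comp m hinj
  have hne : ∃ z : E, ∑ h : H, ((χ h : ℤˣ) : ℤ) • h.1 z ≠ 0 := by
    by_contra hcon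
    push Not at hcon
    rw [Fintype.linearIndependent_iff] at hli
    have h1 := hli (fun h => (((χ h : ℤˣ) : ℤ) : E)) (by
      funext z
      have h2 := hcon z
      simp only [Finset.sum_apply, Pi.smul_apply, comp_apply, Pi.zero_apply]
      rw [← h2]
      apply Finset.sum_congr rfl
      intro h _
      rw [zsmul_eq_mul, smul_eq_mul]
      rfl) 1
    rw [map_one] at h1
    simp at h1
  obtain ⟨z, hz⟩ := hne
  refine ⟨_, hz, ?_⟩
  intro g
  rw [map_sum, Finset.smul_sum]
  refine Fintype.sum_equiv (Equiv.mulLeft g) _ _ (fun h => ?_)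
  rw [map_zsmul, Equiv.coe_mulLeft, smul_smul, map_mul, Units.val_mul, ← mul_assoc]
  have h1 : ((χ g : ℤˣ) : ℤ) * ((χ g : ℤˣ) : ℤ) = 1 := by
    rcases Int.units_eq_one_or (χ g) with h | h <;> rw [h] <;> rfl
  rw [h1, one_mul]
  rfl

lemma isTw_sq {H : Subgroup (E ≃ₐ[k] E)} {χ : H →* ℤˣ} {y : E} (hy : IsTw H χ y) :
    y ^ 2 ∈ fixedField H := by
  intro h
  change h.1 (y ^ 2) = y ^ 2
  rw [map_pow, hy.2]
  rcases Int.units_eq_one_or (χ h) with h | h <;> rw [h] <;> simp

/-- The function `y²` on the quotient curve. -/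
def twF (H : Subgroup (E ≃ₐ[k] E)) (χ : H →* ℤˣ) {y : E} (hy : IsTw H χ y) : fixedField H :=
  ⟨y ^ 2, isTw_sq hy⟩

lemma twF_ne_zero (H : Subgroup (E ≃ₐ[k] E)) (χ : H →* ℤˣ) {y : E} (hy : IsTw H χ y) :
    twF H χ hy ≠ 0 := by
  intro h
  have h2 : y ^ 2 = 0 := congrArg Subtype.val h
  exact pow_ne_zero 2 hy.1 h2

variable [IsAlgClosed k] [CharZero k] (hE : IsFunctionField k E)

lemma ord_resF (H : Subgroup (E ≃ₐ[k] E)) [Finite H] (P : Place k E) :
    ∃ e : ℤ, 0 < e ∧ ∀ x : fixedField H, x ≠ 0 →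
      ord P.ring (x : E) = e * ord (resF hE H P).ring x := by
  exact ord_comap (isFunctionField_fixed H hE) hE (IsScalarTower.toAlgHom k (fixedField H) E) P

/-- Over a point of the quotient curve where `y²` has odd order, the points are fixed by an element
of `H` on which the character is `-1`. -/
theorem exists_fixing (H : Subgroup (E ≃ₐ[k] E)) [Finite H] (χ : H →* ℤˣ) {y : E}
    (hy : IsTw H χ y) (P : Place k E) (hodd : Odd (ord (resF hE H P).ring (twF H χ hy))) :
    ∃ h : H, χ h = -1 ∧ act hE h.1 P = P := by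
  obtain ⟨e, he, hord⟩ := ord_resF hE H P
  have hy2 : 2 * ord P.ring y = e * ord (resF hE H P).ring (twF H χ hy) := by
    rw [← hord _ (twF_ne_zero H χ hy)]
    change _ = ord P.ring (y ^ 2)
    rw [ord_pow hE P hy.1]
    rfl
  obtain ⟨m, hm⟩ := hodd
  rw [hm] at hy2
  obtain ⟨h₀, h₀'⟩ : ∃ h : H, χ h = -1 := by
    by_contra hcon
    push Not at hcon
    have hfix : ∀ h : H, h.1 y = y := by
      intro h
      rw [hy.2]
      rcases Int.units_eq_one_or (χ h) with h1 | h1
      · rw [h1]; simp
      · exact absurd h1 (hcon h)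
    have h1 := hord ⟨y, fun h => hfix h⟩ (by
      intro h0
      exact hy.1 (congrArg Subtype.val h0))
    change ord P.ring y = _ at h1
    rw [h1] at hy2
    have h2 : e * (2 * ord (resF hE H P).ring ⟨y, fun h => hfix h⟩) = e * (2 * m + 1) := by
      rw [← hy2]; ring
    have h3 := mul_left_cancel₀ he.ne' h2
    omega
  -- the action on elements fixed by the kernel
  have hker : ∀ z ∈ fixedField (kerS H χ), ∀ h : H, (χ h = 1 → h.1 z = z) ∧
      (χ h = -1 → h.1 z = h₀.1 z) := by
    intro z hz h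
    have h1 : ∀ g : H, χ g = 1 → g.1 z = z := by
      intro g hg
      exact hz ⟨g.1, g, hg, rfl⟩
    refine ⟨h1 h, fun hh => ?_⟩
    have h2 := h1 (h₀⁻¹ * h) (by rw [map_mul, map_inv, hh, h₀']; simp)
    have h3 : h₀.1 ((h₀⁻¹ * h).1 z) = h.1 z := by
      change h₀.1 (h₀.1⁻¹ (h.1 z)) = h.1 z
      exact (h₀.1 : E ≃ₐ[k] E).apply_symm_apply _
    rw [← h3, h2]
  have hker2 : ∀ z ∈ fixedField (kerS H χ), h₀.1 (h₀.1 z) = z := by
    intro z hz
    have := (hker z hz (h₀ * h₀)).1 (by rw [map_mul, h₀']; rfl)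
    exact this
  have hker3 : ∀ z ∈ fixedField (kerS H χ), h₀.1 z ∈ fixedField (kerS H χ) := by
    rintro z hz ⟨_, g, hg, rfl⟩
    change g.1 (h₀.1 z) = h₀.1 z
    exact (hker z hz (g * h₀)).2 (by rw [map_mul, h₀', MonoidHom.mem_ker.mp hg, one_mul])
  have h2ne : (2 : E) ≠ 0 := by
    have : CharZero E := charZero_of_injective_algebraMap (algebraMap k E).injective
    exact two_ne_zero
  have hmem : ∀ z ∈ fixedField (kerS H χ), z ∈ P.ring ↔ h₀.1 z ∈ P.ring := by
    intro z hz
    have hinvol : ∀ h : H, h.1 (h₀.1 z) = if χ h = 1 then h₀.1 z else z := by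
      intro h
      split_ifs with hh
      · exact (hker _ (hker3 z hz) h).1 hh
      · rw [(hker _ (hker3 z hz) h).2 ((Int.units_eq_one_or _).resolve_left hh), hker2 z hz]
    have hz' : ∀ h : H, h.1 z = if χ h = 1 then z else h₀.1 z := by
      intro h
      split_ifs with hh
      · exact (hker z hz h).1 hh
      · exact (hker z hz h).2 ((Int.units_eq_one_or _).resolve_left hh)
    let α : fixedField H := ⟨(z + h₀.1 z) / 2, by
      intro h
      change h.1 ((z + h₀.1 z) / 2) = (z + h₀.1 z) / 2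
      rw [map_div₀, map_add, hz', hinvol]
      have : h.1 (2 : E) = 2 := map_ofNat _ 2
      rw [this]
      split_ifs with hh
      · rfl
      · rw [add_comm]⟩
    let β : fixedField H := ⟨(z - h₀.1 z) / (2 * y), by
      intro h
      change h.1 ((z - h₀.1 z) / (2 * y)) = (z - h₀.1 z) / (2 * y)
      have : h.1 (2 : E) = 2 := map_ofNat _ 2
      rw [map_div₀, map_sub, hz', hinvol, map_mul, this, hy.2]
      split_ifs with hh
      · rw [hh]; simp
      · rw [(Int.units_eq_one_or _).resolve_left hh]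
        simp only [Units.val_neg, Units.val_one, neg_smul, one_smul]
        rw [mul_neg, div_neg, ← neg_div, neg_sub]⟩
    have e1 : z = (α : E) + (β : E) * y := by
      change z = (z + h₀.1 z) / 2 + (z - h₀.1 z) / (2 * y) * y
      have := hy.1
      field_simp
      ring
    have e2 : h₀.1 z = (α : E) - (β : E) * y := by
      change h₀.1 z = (z + h₀.1 z) / 2 - (z - h₀.1 z) / (2 * y) * y
      have := hy.1
      field_simp
      ring
    have key : ∀ c : E, c = y ∨ c = -y → ((α : E) + (β : E) * c ∈ P.ring ↔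
        ((α : E) ∈ P.ring ∧ (β : E) * y ∈ P.ring)) := by
      intro c hc
      have hcm : (β : E) * c ∈ P.ring ↔ (β : E) * y ∈ P.ring := by
        rcases hc with rfl | rfl
        · rfl
        · rw [mul_neg]; exact neg_mem_iff
      rw [← hcm]
      constructor
      · intro h
        by_cases hα : α = 0
        · rw [hα] at h ⊢
          simp only [ZeroMemClass.coe_zero, zero_add] at h ⊢
          exact ⟨P.ring.zero_mem, h⟩
        by_cases hβ : β = 0
        · rw [hβ] at h ⊢
          simp only [ZeroMemClass.coe_zero, zero_mul, add_zero] at h ⊢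
          exact ⟨h, P.ring.zero_mem⟩
        have hα' : (α : E) ≠ 0 := fun h0 => hα (Subtype.ext h0)
        have hβ' : (β : E) ≠ 0 := fun h0 => hβ (Subtype.ext h0)
        have hc0 : c ≠ 0 := by
          rcases hc with rfl | rfl
          · exact hy.1
          · exact neg_ne_zero.mpr hy.1
        have hcord : 2 * ord P.ring c = 2 * ord P.ring y := by
          have h1 : c ^ 2 = y ^ 2 := by
            rcases hc with rfl | rfl
            · rfl
            · ring
          have h2 := ord_pow hE P hc0 2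
          rw [h1, ord_pow hE P hy.1] at h2
          push_cast at h2
          omega
        have hne : ord P.ring (α : E) ≠ ord P.ring ((β : E) * c) := by
          rw [ord_mul hE P hβ' hc0, hord α hα, hord β hβ]
          intro h0
          have h1 : e * (2 * ord (resF hE H P).ring α) =
              e * (2 * ord (resF hE H P).ring β + (2 * m + 1)) := by
            rw [mul_add e, ← hy2, ← hcord]
            linarith
          have h2 := mul_left_cancel₀ he.ne' h1
          omega
        obtain ⟨h1, h2⟩ := ord_add_eq hE P hα' (mul_ne_zero hβ' hc0) hne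
        rw [← ord_nonneg_iff hE P h1, h2, le_min_iff, ord_nonneg_iff hE P hα',
          ord_nonneg_iff hE P (mul_ne_zero hβ' hc0)] at h
        exact h
      · rintro ⟨h1, h2⟩
        exact P.ring.add_mem _ _ h1 h2
    conv_lhs => rw [e1]
    rw [e2, sub_eq_add_neg, ← mul_neg, key y (Or.inl rfl), key (-y) (Or.inr rfl)]
  have : Fintype H := Fintype.ofFinite H
  obtain ⟨⟨_, κ, hκ, rfl⟩, hσ⟩ := exists_act hE (kerS H χ) P (act hE h₀.1 P) (by
    intro z hz
    rw [mem_act]
    exact hmem z hz)
  refine ⟨h₀ * κ⁻¹, by rw [map_mul, map_inv, MonoidHom.mem_ker.mp hκ, h₀']; simp, ?_⟩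
  have h1 : act hE (h₀ * κ⁻¹).1 P = act hE (κ⁻¹).1 (act hE h₀.1 P) := act_mul hE _ _ P
  rw [h1, hσ, ← act_mul]
  change act hE (κ.1 * κ.1⁻¹) P = P
  rw [mul_inv_cancel, act_one]

/-- Conversely, points fixed by an element on which the character is `-1` lie over points where
`y²` has odd order. -/
theorem odd_of_fixing (H : Subgroup (E ≃ₐ[k] E)) [Finite H] (χ : H →* ℤˣ) {y : E}
    (hy : IsTw H χ y) (P : Place k E) (h : H) (hχ : χ h = -1) (hP : act hE h.1 P = P) :
    Odd (ord (resF hE H P).ring (twF H χ hy)) := by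
  obtain ⟨e, he, hord⟩ := ord_resF hE H P
  by_contra hcon
  rw [Int.not_odd_iff_even] at hcon
  obtain ⟨m, hm⟩ := hcon
  obtain ⟨π, hπ0, hπ⟩ := exists_uniformizer (isFunctionField_fixed H hE) (resF hE H P)
  have hπE : (π : E) ≠ 0 := fun h0 => hπ0 (Subtype.ext h0)
  have hπo : ord P.ring (π : E) = e := by rw [hord π hπ0, hπ, mul_one]
  have hy2 : 2 * ord P.ring y = e * (m + m) := by
    rw [← hm, ← hord _ (twF_ne_zero H χ hy)]
    change _ = ord P.ring (y ^ 2)
    rw [ord_pow hE P hy.1]
    rfl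
  obtain ⟨w, hw0, hwfix, hword⟩ : ∃ w : E, w ≠ 0 ∧ (∀ g : H, g.1 w = w) ∧
      ord P.ring w = - (e * m) := by
    obtain ⟨a, b, hab⟩ : ∃ a b : ℕ, m = a - b := ⟨m.toNat, (-m).toNat, by omega⟩
    have hfixπ : ∀ g : H, g.1 (π : E) = π := fun g => π.2 g
    refine ⟨(π : E) ^ b * ((π : E) ^ a)⁻¹, mul_ne_zero (pow_ne_zero _ hπE)
      (inv_ne_zero (pow_ne_zero _ hπE)), ?_, ?_⟩
    · intro g
      rw [map_mul, map_inv₀, map_pow, map_pow, hfixπ]
    · rw [ord_mul hE P (pow_ne_zero _ hπE) (inv_ne_zero (pow_ne_zero _ hπE)),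
        ord_inv hE P (pow_ne_zero _ hπE), ord_pow hE P hπE, ord_pow hE P hπE, hπo, hab]
      ring
  have hyw0 : y * w ≠ 0 := mul_ne_zero hy.1 hw0
  have hyw : ord P.ring (y * w) = 0 := by
    rw [ord_mul hE P hy.1 hw0, hword]
    have : ord P.ring y = e * m := by linarith
    rw [this]
    ring
  have hmem : y * w ∈ P.ring := by rw [← ord_nonneg_iff hE P hyw0]; omega
  obtain ⟨c, hc⟩ := exists_residue hE P hmem
  have hc' : -(y * w) - algebraMap k E c ∈ P.ring.nonunits := by
    have h1 : h.1 (y * w - algebraMap k E c) = -(y * w) - algebraMap k E c := by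
      rw [map_sub, map_mul, hy.2, hχ, hwfix, AlgEquiv.commutes]
      simp
    rw [← h1]
    have h2 : y * w - algebraMap k E c ∈ (act hE h.1 P).ring.nonunits := by rw [hP]; exact hc
    change _ ∈ (P.ring.comap _).nonunits at h2
    rw [mem_nonunits_comap] at h2
    exact h2
  have hc'' : y * w - algebraMap k E (-c) ∈ P.ring.nonunits := by
    have h1 : y * w - algebraMap k E (-c) = -(-(y * w) - algebraMap k E c) := by
      rw [map_neg]; ring
    rw [h1]
    obtain ⟨ha, ha'⟩ := (ValuationSubring.mem_nonunits_iff_exists_mem_maximalIdeal).mp hc'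
    rw [ValuationSubring.mem_nonunits_iff_exists_mem_maximalIdeal]
    exact ⟨neg_mem ha, (IsLocalRing.maximalIdeal P.ring).neg_mem ha'⟩
  have h3 := residue_unique P hc hc''
  have h4 : c = 0 := by
    have h5 : c + c = 0 := by nth_rewrite 1 [h3]; ring
    have h6 : (2 : k) * c = 0 := by rw [two_mul]; exact h5
    rcases mul_eq_zero.mp h6 with h | h
    · exact absurd h two_ne_zero
    · exact h
  rw [h4, map_zero, sub_zero, ← ord_pos_iff hE P hyw0] at hc
  omega

end ram

end VP
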