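import Mathlib
import Pool.Agent.Helper9.NS
import Pool.Agent.Helper70.VP.Lift
import Pool.Agent.Helper70.VP.Ram

/-!
# The product of the conjugates of `y` and its square
-/

namespace VP

open VC VQ Function IntermediateField Polynomial

universe u

section square

variable {k : Type u} [Field k] [IsAlgClosed k]

open Classical in
theorem exists_square (R : k[X]) (hR : R ≠ 0) (a b : k)
    (h : ∀ c : k, (R.rootMultiplicity c : ZMod 2) = (if c = a then 1 else 0) +
      (if c = b then 1 else 0)) :
    ∃ S : k[X], S ≠ 0 ∧ R * (X - C a) * (X - C b) = S ^ 2 := by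
  classical
  set Q := R * (X - C a) * (X - C b) with hQ
  have hQ0 : Q ≠ 0 := mul_ne_zero (mul_ne_zero hR (X_sub_C_ne_zero a)) (X_sub_C_ne_zero b)
  have hev : ∀ c ∈ Q.roots, 2 ∣ Q.roots.count c := by
    intro c _
    rw [count_roots, hQ, rootMultiplicity_mul (by rw [hQ] at hQ0; exact hQ0),
      rootMultiplicity_mul (mul_ne_zero hR (X_sub_C_ne_zero a)), rootMultiplicity_X_sub_C,
      rootMultiplicity_X_sub_C, ← even_iff_two_dvd, ← ZMod.natCast_eq_zero_iff_even]
    push_cast
    rw [h]
    have h2 : ∀ x : ZMod 2, x + x = 0 := by decide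
    have h3 : ∀ x y : ZMod 2, x + y + x + y = (x + x) + (y + y) := by intro x y; ring
    rw [h3, h2, h2, add_zero]
  obtain ⟨u, hu⟩ := Multiset.exists_smul_of_dvd_count Q.roots hev
  obtain ⟨d, hd⟩ := IsAlgClosed.exists_pow_nat_eq Q.leadingCoeff (n := 2) (by norm_num)
  have hs := (IsAlgClosed.splits Q).eq_prod_roots
  have e : Q = (C d * (u.map (fun c => X - C c)).prod) ^ 2 := by
    rw [mul_pow, ← C_pow, hd]
    conv_lhs => rw [hs, hu]
    rw [Multiset.map_nsmul, Multiset.prod_nsmul]
  refine ⟨_, ?_, e⟩
  intro h0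
  rw [h0] at e
  exact hQ0 (by rw [e]; simp)

end square

section norm

variable {k E : Type u} [Field k] [IsAlgClosed k] [CharZero k] [Field E] [Algebra k E]
  (hE : IsFunctionField k E) (H : Subgroup (E ≃ₐ[k] E)) [Finite H] (χ : H →* ℤˣ)
  {K : Type u} [Field K] [Algebra k K] (hK : IsFunctionField k K)
  [Algebra E K] [IsScalarTower k E K]

lemma transcendental_sub {F : Type u} [Field F] [Algebra k F] {t : F} (ht : Transcendental k t)
    (a : k) : Transcendental k (t - algebraMap k F a) := by
  intro h
  apply ht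
  have := h.add (isAlgebraic_algebraMap a)
  rwa [sub_add_cancel] at this

lemma adjoin_sub {F : Type u} [Field F] [Algebra k F] (t : F) (a : k) :
    k⟮t - algebraMap k F a⟯ = k⟮t⟯ := by
  apply le_antisymm
  · rw [IntermediateField.adjoin_simple_le_iff]
    exact sub_mem (IntermediateField.mem_adjoin_simple_self k _) (IntermediateField.algebraMap_mem _ a)
  · rw [IntermediateField.adjoin_simple_le_iff]
    have h := add_mem (IntermediateField.mem_adjoin_simple_self k (t - algebraMap k F a))
      (IntermediateField.algebraMap_mem _ a)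
    rwa [sub_add_cancel] at h

/-- The places where `t` takes the value `a`. -/
noncomputable def fib {F : Type u} [Field F] [Algebra k F] (hF : IsFunctionField k F) {t : F}
    (ht : Transcendental k t) (a : k) : Finset (Place k F) :=
  (finite_zeros hF (transcendental_sub ht a)).toFinset

lemma mem_fib {F : Type u} [Field F] [Algebra k F] (hF : IsFunctionField k F) {t : F}
    (ht : Transcendental k t) (a : k) (P : Place k F) :
    P ∈ fib hF ht a ↔ t - algebraMap k F a ∈ P.ring.nonunits := by
  unfold fib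
  rw [Set.Finite.mem_toFinset]
  rfl

theorem card_cover_sub (t : fixedField H) (ht : Transcendental k t)
    (G : Type u) [Group G] [Finite G] [MulSemiringAction G K]
    (hG : IsGaloisGroup G k⟮algebraMap E K (t : E)⟯ K) (a : k) (v : Place k K)
    (hv : algebraMap E K (t : E) - algebraMap k K a ∈ v.ring.nonunits)
    (P : Place k (fixedField H)) :
    (Nat.card {φ : fixedField H →ₐ[k] K // φ t = algebraMap E K (t : E) ∧
      Place.comap (isFunctionField_fixed H hE) hK φ v = P} : ℤ) =
      max (ord P.ring (t - algebraMap k (fixedField H) a)) 0 := by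
  have htK : ∀ s : fixedField H, algebraMap (fixedField H) K s = algebraMap E K (s : E) :=
    fun s => rfl
  have e1 : algebraMap (fixedField H) K (t - algebraMap k (fixedField H) a) =
      algebraMap E K (t : E) - algebraMap k K a := by
    rw [map_sub, ← IsScalarTower.algebraMap_apply]
    rfl
  rw [← card_cover (isFunctionField_fixed H hE) hK (t - algebraMap k (fixedField H) a)
    (transcendental_sub ht a) G (by rw [e1, adjoin_sub]; exact hG) v (by rw [e1]; exact hv) P]
  congr 1
  apply Nat.card_congr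
  apply Equiv.subtypeEquivRight
  intro φ
  rw [e1, map_sub, AlgHom.commutes, sub_left_inj]

include hK in
theorem ord_norm {y : E} (hy : IsTw H χ y) (t : fixedField H) (ht : Transcendental k t)
    (G : Type u) [Group G] [Finite G] [MulSemiringAction G K]
    (hG : IsGaloisGroup G k⟮algebraMap E K (t : E)⟯ K)
    [Fintype {φ : fixedField H →ₐ[k] K // φ t = algebraMap E K (t : E)}]
    (Λ : {φ : fixedField H →ₐ[k] K // φ t = algebraMap E K (t : E)} → (E →ₐ[k] K))
    (hΛ : ∀ φ, ∀ x : fixedField H, Λ φ (x : E) = φ.1 x) (a : k) (v : Place k K)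
    (hv : algebraMap E K (t : E) - algebraMap k K a ∈ v.ring.nonunits) :
    2 * ord v.ring (∏ φ, Λ φ y) = ord v.ring (algebraMap E K (t : E) - algebraMap k K a) *
      ∑ P ∈ fib (isFunctionField_fixed H hE) ht a, ord P.ring (twF H χ hy) := by
  classical
  have hF := isFunctionField_fixed H hE
  have hW0 : ∀ φ, Λ φ y ≠ 0 := fun φ => (_root_.map_ne_zero (Λ φ)).mpr hy.1
  have hta : t - algebraMap k (fixedField H) a ≠ 0 := by
    intro h0
    have := transcendental_sub ht a
    rw [h0] at this
    exact this isAlgebraic_zero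
  have hf0 := twF_ne_zero H χ hy
  have h1 : 2 * ord v.ring (∏ φ, Λ φ y) = ∑ φ : {φ : fixedField H →ₐ[k] K //
      φ t = algebraMap E K (t : E)}, ord v.ring (φ.1 (twF H χ hy)) := by
    rw [ord_prod hK v _ _ (fun φ _ => hW0 φ), Finset.mul_sum]
    apply Finset.sum_congr rfl
    intro φ _
    rw [← hΛ]
    change _ = ord v.ring (Λ φ (y ^ 2))
    rw [map_pow, ord_pow hK v (hW0 φ)]
    rfl
  rw [h1]
  have hmaps : ∀ φ ∈ (Finset.univ : Finset {φ : fixedField H →ₐ[k] K //
      φ t = algebraMap E K (t : E)}), Place.comap hF hK φ.1 v ∈ fib hF ht a := by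
    intro φ _
    rw [mem_fib]
    change _ ∈ (v.ring.comap φ.1.toRingHom).nonunits
    rw [mem_nonunits_comap]
    change φ.1 (t - algebraMap k (fixedField H) a) ∈ _
    rw [map_sub, φ.2, AlgHom.commutes]
    exact hv
  rw [← Finset.sum_fiberwise_of_maps_to hmaps, Finset.mul_sum]
  apply Finset.sum_congr rfl
  intro P hP
  rw [mem_fib, ← ord_pos_iff hF P hta] at hP
  set n := ord P.ring (t - algebraMap k (fixedField H) a) with hn
  have hcard : (((Finset.univ : Finset {φ : fixedField H →ₐ[k] K //
      φ t = algebraMap E K (t : E)}).filter (fun φ => Place.comap hF hK φ.1 v = P)).card : ℤ) =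
      n := by
    have h2 := card_cover_sub hE H hK t ht G hG a v hv P
    rw [max_eq_left (by omega)] at h2
    rw [← hn] at h2
    rw [← h2]
    congr 1
    rw [← Fintype.card_subtype, ← Nat.card_eq_fintype_card]
    exact Nat.card_congr ⟨fun φ => ⟨φ.1.1, φ.1.2, φ.2⟩, fun φ => ⟨⟨φ.1, φ.2.1⟩, φ.2.2⟩,
      fun φ => rfl, fun φ => rfl⟩
  have hterm : ∀ φ ∈ ((Finset.univ : Finset {φ : fixedField H →ₐ[k] K //
      φ t = algebraMap E K (t : E)}).filter (fun φ => Place.comap hF hK φ.1 v = P)),
      n * ord v.ring (φ.1 (twF H χ hy)) =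
        ord v.ring (algebraMap E K (t : E) - algebraMap k K a) * ord P.ring (twF H χ hy) := by
    intro φ hφ
    rw [Finset.mem_filter] at hφ
    obtain ⟨e, he, hord⟩ := ord_comap hF hK φ.1 v
    rw [hφ.2] at hord
    have h2 := hord _ hta
    rw [map_sub, φ.2, AlgHom.commutes] at h2
    rw [h2, hord _ hf0, ← hn]
    ring
  apply mul_left_cancel₀ (show n ≠ 0 by omega)
  rw [Finset.mul_sum, Finset.sum_congr rfl hterm, Finset.sum_const, nsmul_eq_mul, hcard]

include hK in
theorem rootMult_parity {y : E} (hy : IsTw H χ y) (t : fixedField H) (ht : Transcendental k t)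
    (G : Type u) [Group G] [Finite G] [MulSemiringAction G K]
    (hG : IsGaloisGroup G k⟮algebraMap E K (t : E)⟯ K)
    [Fintype {φ : fixedField H →ₐ[k] K // φ t = algebraMap E K (t : E)}]
    (Λ : {φ : fixedField H →ₐ[k] K // φ t = algebraMap E K (t : E)} → (E →ₐ[k] K))
    (hΛ : ∀ φ, ∀ x : fixedField H, Λ φ (x : E) = φ.1 x) (R q : k[X]) (hR : R ≠ 0) (hq : q ≠ 0)
    (hRq : ((∏ φ, Λ φ y) * aeval (algebraMap E K (t : E)) q) ^ 2 =
      aeval (algebraMap E K (t : E)) R) (a : k) :
    (R.rootMultiplicity a : ℤ) = 2 * q.rootMultiplicity a +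
      ∑ P ∈ fib (isFunctionField_fixed H hE) ht a, ord P.ring (twF H χ hy) := by
  classical
  have htK : Transcendental k (algebraMap E K (t : E)) := by
    have h1 : Transcendental k (algebraMap (fixedField H) K t) :=
      (transcendental_algebraMap_iff (algebraMap (fixedField H) K).injective).mpr ht
    exact h1
  obtain ⟨v, hv⟩ := exists_place hK (transcendental_sub htK a)
  have hta : algebraMap E K (t : E) - algebraMap k K a ≠ 0 := by
    intro h0
    have := transcendental_sub htK a
    rw [h0] at this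
    exact this isAlgebraic_zero
  have hpos := (ord_pos_iff hK v hta).mpr hv
  have hW0 : (∏ φ, Λ φ y) ≠ 0 :=
    Finset.prod_ne_zero_iff.mpr (fun φ _ => (_root_.map_ne_zero (Λ φ)).mpr hy.1)
  have hq0 : aeval (algebraMap E K (t : E)) q ≠ 0 := by
    intro h0
    exact hq ((transcendental_iff.mp htK) q h0)
  have h1 := ord_aeval hK _ a v hv htK R hR
  rw [← hRq, ord_pow hK v (mul_ne_zero hW0 hq0), ord_mul hK v hW0 hq0,
    ord_aeval hK _ a v hv htK q hq] at h1
  have h2 := ord_norm hE H χ hK hy t ht G hG Λ hΛ a v hv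
  apply mul_right_cancel₀ hpos.ne'
  rw [← h1]
  push_cast
  linarith

end norm

end VP
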