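import Mathlib
import Pool.Agent.Helper9.NS
import Pool.Agent.Helper70.VP.Lift
import Pool.Agent.Helper70.VP.Ram

/-!
# Twisted averages and their behaviour under the Galois group of a cover of the line
-/

namespace VP

open VC VQ Function IntermediateField Polynomial

universe u

section tw

variable {k E : Type u} [Field k] [Field E] [Algebra k E] (hE : IsFunctionField k E)
  (H : Subgroup (E ≃ₐ[k] E)) [Fintype H] (χ : H →* ℤˣ)
  {J : Type*} [Fintype J] [DecidableEq J] {α : Type u}

/-- The average of a point over `H ^ J`, twisted by the character `χ`. -/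
noncomputable def tw (ins : (J → Place k E) → α) (w : J → Place k E) : α →₀ ℤ :=
  ∑ h : J → H, ((∏ j, χ (h j) : ℤˣ) : ℤ) •
    Finsupp.single (ins (fun j => act hE (h j).1 (w j))) (1 : ℤ)

lemma unit_mul_self (ε : ℤˣ) : ε * ε = 1 := by
  rcases Int.units_eq_one_or ε with h | h <;> rw [h] <;> rfl

lemma tw_act (ins : (J → Place k E) → α) (w : J → Place k E) (σ : J → H) :
    tw hE H χ ins (fun j => act hE (σ j).1 (w j)) =
      ((∏ j, χ (σ j) : ℤˣ) : ℤ) • tw hE H χ ins w := by
  unfold tw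
  rw [Finset.smul_sum]
  refine Fintype.sum_equiv (Equiv.mulLeft σ) _ _ (fun h => ?_)
  have e1 : (∏ j, χ (σ j)) * ∏ j, χ ((Equiv.mulLeft σ) h j) = ∏ j, χ (h j) := by
    rw [← Finset.prod_mul_distrib]
    apply Finset.prod_congr rfl
    intro j _
    change χ (σ j) * χ (σ j * h j) = χ (h j)
    rw [map_mul, ← mul_assoc, unit_mul_self, one_mul]
  have e2 : (fun j => act hE (h j).1 (act hE (σ j).1 (w j))) =
      fun j => act hE ((Equiv.mulLeft σ) h j).1 (w j) := by
    funext j
    rw [← act_mul]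
    rfl
  rw [smul_smul, ← Units.val_mul, e1, e2]

/-- The symmetrization of the twisted average. -/
noncomputable def TW (ins : (J → Place k E) → α) (w : J → Place k E) : α →₀ ℤ :=
  ∑ τ : Equiv.Perm J, tw hE H χ ins (w ∘ τ)

lemma TW_act (ins : (J → Place k E) → α) (w : J → Place k E) (σ : J → H) :
    TW hE H χ ins (fun j => act hE (σ j).1 (w j)) =
      ((∏ j, χ (σ j) : ℤˣ) : ℤ) • TW hE H χ ins w := by
  unfold TW
  rw [Finset.smul_sum]
  apply Finset.sum_congr rfl
  intro τ _
  have h := tw_act hE H χ ins (w ∘ τ) (σ ∘ τ)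
  have h2 : ∏ j, χ ((σ ∘ τ) j) = ∏ j, χ (σ j) := Equiv.prod_comp τ (fun j => χ (σ j))
  rw [h2] at h
  exact h

lemma TW_perm (ins : (J → Place k E) → α) (w : J → Place k E) (π : Equiv.Perm J) :
    TW hE H χ ins (w ∘ π) = TW hE H χ ins w := by
  unfold TW
  refine Fintype.sum_equiv (Equiv.mulLeft π) _ _ (fun τ => ?_)
  rfl

lemma TW_zero (ins : (J → Place k E) → α) (w : J → Place k E) (j : J) (h : H) (hχ : χ h = -1)
    (hj : act hE h.1 (w j) = w j) : TW hE H χ ins w = 0 := by
  have h1 := TW_act hE H χ ins w (update (fun _ => 1) j h)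
  have h2 : (fun i => act hE (update (fun _ => (1 : H)) j h i).1 (w i)) = w := by
    funext i
    by_cases hi : i = j
    · subst hi
      rw [update_self, hj]
    · rw [update_of_ne hi]
      exact act_one hE _
  have h3 : ∏ i, χ (update (fun _ => (1 : H)) j h i) = -1 := by
    rw [Finset.prod_eq_single j]
    · rw [update_self, hχ]
    · intro i _ hi
      rw [update_of_ne hi, map_one]
    · intro h; exact absurd (Finset.mem_univ j) h
  rw [h2, h3] at h1
  ext a
  have h4 := congrArg (fun f => f a) h1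
  simp only [Units.val_neg, Units.val_one, neg_smul, one_smul, Finsupp.neg_apply] at h4
  rw [Finsupp.zero_apply]
  omega

end tw

section galois

variable {k E : Type u} [Field k] [Field E] [Algebra k E]
  (hE : IsFunctionField k E) (H : Subgroup (E ≃ₐ[k] E)) [Fintype H] (χ : H →* ℤˣ)
  {K : Type u} [Field K] [Algebra k K] (hK : IsFunctionField k K)

/-- The morphisms to the covering curve given by lifts of embeddings, and constants. -/
noncomputable def zmor {Φ : Type*} (Λ : Φ → (E →ₐ[k] K)) {J : Type*} (e : Φ ↪ J)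
    (x : J → Place k E) : J → (curve hE).Mor K :=
  open Classical in fun j => if h : ∃ φ, e φ = j then Sum.inr (Λ h.choose) else Sum.inl (x j)

lemma zmor_emb {Φ : Type*} (Λ : Φ → (E →ₐ[k] K)) {J : Type*} (e : Φ ↪ J)
    (x : J → Place k E) (φ : Φ) : zmor hE Λ e x (e φ) = Sum.inr (Λ φ) := by
  classical
  have h : ∃ ψ, e ψ = e φ := ⟨φ, rfl⟩
  have h2 : h.choose = φ := e.injective h.choose_spec
  unfold zmor
  rw [dif_pos h, h2]

lemma zmor_not {Φ : Type*} (Λ : Φ → (E →ₐ[k] K)) {J : Type*} (e : Φ ↪ J)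
    (x : J → Place k E) (j : J) (hj : ¬ ∃ φ, e φ = j) : zmor hE Λ e x j = Sum.inl (x j) := by
  classical
  unfold zmor
  rw [dif_neg hj]

/-- the tuple of points over a place -/
noncomputable def zpt {Φ : Type*} (Λ : Φ → (E →ₐ[k] K)) {J : Type*} (e : Φ ↪ J)
    (x : J → Place k E) (v : Place k K) : J → Place k E :=
  fun j => (curve hE).eval hK (zmor hE Λ e x j) v

variable [IsAlgClosed k] [CharZero k] [Algebra E K] [IsScalarTower k E K]

/-- Under an element `g` of the Galois group of `K` over `k(t)` the product `W` of the conjugates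
of `y` and the symmetrized twisted averages change by the same sign. -/
theorem gal_TW {y : E} (hy : IsTw H χ y) (t : fixedField H)
    (G : Type u) [Group G] [Finite G] [MulSemiringAction G K]
    (hG : IsGaloisGroup G k⟮algebraMap E K (t : E)⟯ K)
    [Fintype {φ : fixedField H →ₐ[k] K // φ t = algebraMap E K (t : E)}]
    (Λ : {φ : fixedField H →ₐ[k] K // φ t = algebraMap E K (t : E)} → (E →ₐ[k] K))
    (hΛ : ∀ φ, ∀ x : fixedField H, Λ φ (x : E) = φ.1 x)
    {J : Type*} [Fintype J] [DecidableEq J]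
    (e : {φ : fixedField H →ₐ[k] K // φ t = algebraMap E K (t : E)} ↪ J)
    {α : Type u} (ins : (J → Place k E) → α) (x : J → Place k E) (g : G) :
    ∃ ε : ℤˣ, g • (∏ φ, Λ φ y) = (ε : ℤ) • (∏ φ, Λ φ y) ∧ ∀ v : Place k K,
      TW hE H χ ins (zpt hE hK Λ e x (act hK (gEquiv _ G hG g) v)) =
        (ε : ℤ) • TW hE H χ ins (zpt hE hK Λ e x v) := by
  classical
  have hgT : ∀ g : G, g • (algebraMap E K (t : E)) = algebraMap E K (t : E) :=
    fun g => gEquiv_gen _ G hG g
  let γ : G → {φ : fixedField H →ₐ[k] K // φ t = algebraMap E K (t : E)} →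
      {φ : fixedField H →ₐ[k] K // φ t = algebraMap E K (t : E)} := fun g φ =>
    ⟨(gEquiv _ G hG g : K →ₐ[k] K).comp φ.1, by
      change g • (φ.1 t) = _
      rw [φ.2, hgT]⟩
  have hγ1 : ∀ (a b : G) φ, γ a (γ b φ) = γ (a * b) φ := by
    intro a b φ
    apply Subtype.ext
    apply AlgHom.ext
    intro z
    change a • (b • (φ.1 z)) = (a * b) • (φ.1 z)
    rw [mul_smul]
  have hγ2 : ∀ φ, γ 1 φ = φ := by
    intro φ
    apply Subtype.ext
    apply AlgHom.ext
    intro z
    change (1 : G) • (φ.1 z) = φ.1 z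
    rw [one_smul]
  let P : Equiv.Perm {φ : fixedField H →ₐ[k] K // φ t = algebraMap E K (t : E)} :=
    ⟨γ g, γ g⁻¹, fun φ => by rw [hγ1, inv_mul_cancel, hγ2], fun φ => by
      rw [hγ1, mul_inv_cancel, hγ2]⟩
  have hex : ∀ φ, ∃ h : H, ∀ z : E, g • (Λ φ z) = Λ (P φ) (h.1 z) := by
    intro φ
    obtain ⟨h, hh⟩ := lift_diff H (Λ (P φ)) ((gEquiv _ G hG g : K →ₐ[k] K).comp (Λ φ)) (by
      intro z hz
      change _ = g • (Λ φ z)
      have h1 := hΛ (P φ) ⟨z, hz⟩
      have h2 := hΛ φ ⟨z, hz⟩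
      rw [h2]
      exact h1)
    exact ⟨h, hh⟩
  choose h hh using hex
  refine ⟨∏ φ, χ (h φ), ?_, ?_⟩
  · rw [Finset.smul_prod']
    have h1 : ∀ φ, g • (Λ φ y) = ((χ (h φ) : ℤˣ) : ℤ) • Λ (P φ) y := by
      intro φ
      rw [hh, hy.2, map_zsmul]
    rw [Finset.prod_congr rfl (fun φ _ => h1 φ)]
    simp only [zsmul_eq_mul]
    rw [Finset.prod_mul_distrib, Equiv.prod_comp P (fun φ => Λ φ y)]
    congr 1
    push_cast
    rfl
  · intro v
    let h' : J → H := fun j => if hj : ∃ φ, e φ = j then h hj.choose else 1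
    have h'e : ∀ φ, h' (e φ) = h φ := by
      intro φ
      have h0 : ∃ ψ, e ψ = e φ := ⟨φ, rfl⟩
      have h2 : h0.choose = φ := e.injective h0.choose_spec
      simp only [h']
      rw [dif_pos h0, h2]
    have h'n : ∀ j, (¬ ∃ φ, e φ = j) → h' j = 1 := by
      intro j hj
      simp only [h']
      rw [dif_neg hj]
    have hz : zpt hE hK Λ e x (act hK (gEquiv _ G hG g) v) =
        fun j => act hE (h' j).1 ((zpt hE hK Λ e x v ∘ (P.viaEmbedding e)) j) := by
      funext j
      by_cases hj : ∃ φ, e φ = j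
      · obtain ⟨φ, rfl⟩ := hj
        rw [h'e, comp_apply, Equiv.Perm.viaEmbedding_apply]
        unfold zpt
        rw [zmor_emb, zmor_emb]
        ext a
        change g • (Λ φ a) ∈ v.ring ↔ Λ (P φ) ((h φ).1 a) ∈ v.ring
        rw [hh]
      · rw [h'n j hj, comp_apply, Equiv.Perm.viaEmbedding_apply_of_notMem _ _ _ (by
          rintro ⟨φ, hφ⟩
          exact hj ⟨φ, hφ⟩)]
        unfold zpt
        rw [zmor_not hE Λ e x j hj]
        exact (act_one hE _).symm
    rw [hz, TW_act, TW_perm]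
    congr 2
    symm
    exact Fintype.prod_of_injective e e.injective _ _ (fun j hj => by
      rw [h'n j hj, map_one]) (fun φ => by rw [h'e])

end galois

end VP
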