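import Mathlib
import Pool.Agent.Helper9.NS
import Pool.Agent.Helper70.VP.Norm
import Pool.Agent.Helper70.VP.Pencil
import Pool.Agent.Helper70.VP.Tw

/-!
# The function on the covering curve
-/

namespace VP

open VC VQ Function IntermediateField Polynomial

universe u

section parity

variable {k F : Type u} [Field k] [IsAlgClosed k] [CharZero k] [Field F] [Algebra k F]

open Classical in
theorem parity_fib (hF : IsFunctionField k F) {f : F} (hf : f ≠ 0) (t : F)
    (ht : Transcendental k t) {m : ℕ} (p q : Fin m → Place k F) (ba bb : Place k F)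
    (hsum : ∀ g : Place k F → ℕ, ∑ P ∈ oddSet hF hf, g P =
      (∑ i, (g (p i) + g (q i))) + g ba + g bb)
    (hval : ∀ i, ∃ c : k, t - algebraMap k F c ∈ (p i).ring.nonunits ∧
        t - algebraMap k F c ∈ (q i).ring.nonunits)
    (ca cb : k) (hca : t - algebraMap k F ca ∈ ba.ring.nonunits)
    (hcb : t - algebraMap k F cb ∈ bb.ring.nonunits) (a : k) :
    ((∑ P ∈ fib hF ht a, ord P.ring f : ℤ) : ZMod 2) = (if a = ca then 1 else 0) +
      (if a = cb then 1 else 0) := by
  let g : Place k F → ℕ := fun P => if t - algebraMap k F a ∈ P.ring.nonunits then 1 else 0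
  have hg : ∀ (P : Place k F) (c : k), t - algebraMap k F c ∈ P.ring.nonunits →
      g P = if a = c then 1 else 0 := by
    intro P c hc
    simp only [g]
    by_cases hac : a = c
    · subst hac
      rw [if_pos hc, if_pos rfl]
    · rw [if_neg hac, if_neg]
      intro h
      exact hac (residue_unique P h hc)
  have h1 : ((∑ P ∈ fib hF ht a, ord P.ring f : ℤ) : ZMod 2) =
      ((∑ P ∈ oddSet hF hf, g P : ℕ) : ZMod 2) := by
    have e1 : ((∑ P ∈ fib hF ht a, ord P.ring f : ℤ) : ZMod 2) =
        ∑ P ∈ fib hF ht a, if P ∈ oddSet hF hf then (1 : ZMod 2) else 0 := by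
      push_cast
      apply Finset.sum_congr rfl
      intro P _
      split_ifs with h
      · rw [mem_oddSet] at h
        exact (ZMod.intCast_eq_one_iff_odd).mpr h
      · rw [mem_oddSet, Int.not_odd_iff_even] at h
        exact (ZMod.intCast_eq_zero_iff_even).mpr h
    have e2 : ((∑ P ∈ oddSet hF hf, g P : ℕ) : ZMod 2) =
        ∑ P ∈ oddSet hF hf, if P ∈ fib hF ht a then (1 : ZMod 2) else 0 := by
      push_cast
      apply Finset.sum_congr rfl
      intro P _
      simp only [g, mem_fib]
      split_ifs <;> simp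
    rw [e1, e2, ← Finset.sum_filter, ← Finset.sum_filter]
    apply Finset.sum_congr
    · ext P
      simp only [Finset.mem_filter]
      tauto
    · intro _ _; rfl
  rw [h1, hsum]
  push_cast
  have h2 : ∑ i, ((g (p i) : ZMod 2) + (g (q i) : ZMod 2)) = 0 := by
    apply Finset.sum_eq_zero
    intro i _
    obtain ⟨c, hc1, hc2⟩ := hval i
    rw [hg _ c hc1, hg _ c hc2]
    have : ∀ x : ZMod 2, x + x = 0 := by decide
    exact this _
  rw [h2, zero_add, hg ba ca hca, hg bb cb hcb]
  push_cast
  rfl

end parity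

section good

variable {k E : Type u} [Field k] [IsAlgClosed k] [CharZero k] [Field E] [Algebra k E]
  (hE : IsFunctionField k E) (H : Subgroup (E ≃ₐ[k] E)) [Fintype H] (χ : H →* ℤˣ)
  {K : Type u} [Field K] [Algebra k K] (hK : IsFunctionField k K)
  [Algebra E K] [IsScalarTower k E K]

include hK in
lemma ord_neg_of_sub (T : K) (c : k) (v : Place k K) (hT : Transcendental k T)
    (h : ord v.ring (T - algebraMap k K c) < 0) : ord v.ring T < 0 := by
  have hT0 : T - algebraMap k K c ≠ 0 := by
    intro h0
    have := transcendental_sub hT c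
    rw [h0] at this
    exact this isAlgebraic_zero
  by_cases hc : c = 0
  · subst hc
    rwa [map_zero, sub_zero] at h
  · have h1 := ord_algebraMap hK v hc
    obtain ⟨_, h2⟩ := ord_add_eq hK v hT0 ((_root_.map_ne_zero (algebraMap k K)).mpr hc)
      (by rw [h1]; omega)
    rw [sub_add_cancel, h1] at h2
    rw [h2]
    exact lt_of_le_of_lt (min_le_left _ _) h

lemma smul_aeval (T : K) (G : Type u) [Group G] [MulSemiringAction G K]
    (hG : IsGaloisGroup G k⟮T⟯ K) (g : G) (p : k[X]) : g • (aeval T p) = aeval T p := by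
  have h1 : (gEquiv T G hG g : K →ₐ[k] K) (aeval T p) =
      aeval ((gEquiv T G hG g : K →ₐ[k] K) T) p := (Polynomial.aeval_algHom_apply _ _ _).symm
  have h2 : (gEquiv T G hG g : K →ₐ[k] K) T = T := gEquiv_gen T G hG g
  rw [h2] at h1
  exact h1

theorem exists_good {y : E} (hy : IsTw H χ y) (t : fixedField H) (ht : Transcendental k t)
    (G : Type u) [Group G] [Finite G] [MulSemiringAction G K]
    (hG : IsGaloisGroup G k⟮algebraMap E K (t : E)⟯ K)
    [Fintype {φ : fixedField H →ₐ[k] K // φ t = algebraMap E K (t : E)}]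
    (Λ : {φ : fixedField H →ₐ[k] K // φ t = algebraMap E K (t : E)} → (E →ₐ[k] K))
    (hΛ : ∀ φ, ∀ x : fixedField H, Λ φ (x : E) = φ.1 x)
    {m : ℕ} (p q : Fin m → Place k (fixedField H)) (ba bb : Place k (fixedField H))
    (hsum : ∀ g : Place k (fixedField H) → ℕ,
      ∑ P ∈ oddSet (isFunctionField_fixed H hE) (twF_ne_zero H χ hy), g P =
      (∑ i, (g (p i) + g (q i))) + g ba + g bb)
    (hba : Odd (ord ba.ring (twF H χ hy)))
    (hval : ∀ i, ∃ c : k, t - algebraMap k _ c ∈ (p i).ring.nonunits ∧
        t - algebraMap k _ c ∈ (q i).ring.nonunits)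
    (ca cb : k) (hca : t - algebraMap k _ ca ∈ ba.ring.nonunits)
    (hcb : t - algebraMap k _ cb ∈ bb.ring.nonunits)
    {J : Type*} [Fintype J] [DecidableEq J]
    (e : {φ : fixedField H →ₐ[k] K // φ t = algebraMap E K (t : E)} ↪ J)
    {α : Type u} (ins : (J → Place k E) → α) (x : J → Place k E) :
    ∃ (T₀ : K) (v₀ : Place k K), T₀ ≠ 0 ∧
      (algebraMap E K (t : E))⁻¹ ∈ v₀.ring.nonunits ∧ 0 < ord v₀.ring T₀ ∧
      (∀ v : Place k K, 0 < ord v.ring T₀ →
        TW hE H χ ins (zpt hE hK Λ e x v) = TW hE H χ ins (zpt hE hK Λ e x v₀)) ∧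
      (∀ v : Place k K, ord v.ring T₀ < 0 →
        TW hE H χ ins (zpt hE hK Λ e x v) = - TW hE H χ ins (zpt hE hK Λ e x v₀) ∨
        TW hE H χ ins (zpt hE hK Λ e x v) = 0) := by
  classical
  have hF := isFunctionField_fixed H hE
  have hT : Transcendental k (algebraMap E K (t : E)) := by
    have h1 : Transcendental k (algebraMap (fixedField H) K t) :=
      (transcendental_algebraMap_iff (algebraMap (fixedField H) K).injective).mpr ht
    exact h1
  have hT0 : (algebraMap E K (t : E)) ≠ 0 := by
    rintro h0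
    rw [h0] at hT
    exact hT isAlgebraic_zero
  have hTi := transcendental_inv hT
  have hTinv : ∀ v : Place k K, ord v.ring (algebraMap E K (t : E)) < 0 → (algebraMap E K (t : E))⁻¹ ∈ v.ring.nonunits := by
    intro v hv
    rw [← ord_pos_iff hK v (inv_ne_zero hT0), ord_inv hK v hT0]
    omega
  have hG' : IsGaloisGroup G k⟮(algebraMap E K (t : E))⁻¹⟯ K := by rw [adjoin_inv]; exact hG
  have hsub0 : ∀ c : k, (algebraMap E K (t : E)) - algebraMap k K c ≠ 0 := by
    intro c h0
    have := transcendental_sub hT c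
    rw [h0] at this
    exact this isAlgebraic_zero
  set W : K := ∏ φ, Λ φ y with hW
  have hW0 : W ≠ 0 := by
    rw [hW]
    exact Finset.prod_ne_zero_iff.mpr (fun φ _ => (_root_.map_ne_zero (Λ φ)).mpr hy.1)
  have hWneg : W ≠ -W := by
    intro h
    have hc : CharZero K := charZero_of_injective_algebraMap (algebraMap k K).injective
    have h1 : (2 : K) * W = 0 := by rw [two_mul]; nth_rewrite 1 [h]; ring
    rcases mul_eq_zero.mp h1 with h | h
    · exact two_ne_zero h
    · exact hW0 h
  -- the Galois action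
  have hgal : ∀ g : G, (g • W = W ∧ ∀ v : Place k K,
      TW hE H χ ins (zpt hE hK Λ e x (act hK (gEquiv _ G hG g) v)) =
        TW hE H χ ins (zpt hE hK Λ e x v)) ∨ (g • W = -W ∧ ∀ v : Place k K,
      TW hE H χ ins (zpt hE hK Λ e x (act hK (gEquiv _ G hG g) v)) =
        - TW hE H χ ins (zpt hE hK Λ e x v)) := by
    intro g
    obtain ⟨ε, h1, h2⟩ := gal_TW hE H χ hK hy t G hG Λ hΛ e ins x g
    rcases Int.units_eq_one_or ε with h | h
    · left
      rw [h] at h1 h2
      simp only [Units.val_one, one_smul] at h1 h2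
      exact ⟨h1, h2⟩
    · right
      rw [h] at h1 h2
      simp only [Units.val_neg, Units.val_one, neg_smul, one_smul] at h1 h2
      exact ⟨h1, h2⟩
  have htrans : ∀ v v' : Place k K, (algebraMap E K (t : E))⁻¹ ∈ v.ring.nonunits → (algebraMap E K (t : E))⁻¹ ∈ v'.ring.nonunits →
      ∃ g : G, v' = act hK (gEquiv _ G hG g) v := by
    intro v v' hv hv'
    obtain ⟨g, hg⟩ := exists_galois_place (algebraMap E K (t : E))⁻¹ G hK hTi hG' v v' hv hv'
    exact ⟨g, hg⟩
  have hordg : ∀ (g : G) (v : Place k K) (z : K), z ≠ 0 → ∃ n : ℤ, 0 < n ∧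
      ord v.ring (g • z) = n * ord (act hK (gEquiv _ G hG g) v).ring z := by
    intro g v z hz
    obtain ⟨n, hn, hord⟩ := ord_comap hK hK (gEquiv _ G hG g : K →ₐ[k] K) v
    exact ⟨n, hn, hord z hz⟩
  by_cases hall : ∀ g : G, g • W = W
  · -- the product is rational
    have htr : Transcendental k ((algebraMap E K (t : E)) - algebraMap k K ca)⁻¹ :=
      transcendental_inv (transcendental_sub hT ca)
    have h0 : ((algebraMap E K (t : E)) - algebraMap k K ca)⁻¹ ≠ 0 := inv_ne_zero (hsub0 ca)
    obtain ⟨v₀, hv₀⟩ := exists_place hK htr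
    have hv₀' := (ord_pos_iff hK v₀ h0).mpr hv₀
    have hzero : ∀ v : Place k K, 0 < ord v.ring ((algebraMap E K (t : E)) - algebraMap k K ca)⁻¹ →
        (algebraMap E K (t : E))⁻¹ ∈ v.ring.nonunits := by
      intro v hv
      apply hTinv
      apply ord_neg_of_sub hK (algebraMap E K (t : E)) ca v hT
      rw [ord_inv hK v (hsub0 ca)] at hv
      omega
    refine ⟨((algebraMap E K (t : E)) - algebraMap k K ca)⁻¹, v₀, h0, hzero v₀ hv₀', hv₀', ?_, ?_⟩
    · intro v hv
      obtain ⟨g, rfl⟩ := htrans v₀ v (hzero v₀ hv₀') (hzero v hv)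
      rcases hgal g with h | h
      · exact h.2 v₀
      · exact absurd ((hall g).symm.trans h.1) hWneg
    · intro v hv
      right
      rw [ord_inv hK v (hsub0 ca)] at hv
      have hv' : (algebraMap E K (t : E)) - algebraMap k K ca ∈ v.ring.nonunits := by
        rw [← ord_pos_iff hK v (hsub0 ca)]; omega
      have h1 := card_cover_sub hE H hK t ht G hG ca v hv' ba
      have hta : t - algebraMap k (fixedField H) ca ≠ 0 := by
        intro h0
        have := transcendental_sub ht ca
        rw [h0] at this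
        exact this isAlgebraic_zero
      have h2 := (ord_pos_iff hF ba hta).mpr hca
      rw [max_eq_left (by omega)] at h1
      have hne : Nonempty {φ : fixedField H →ₐ[k] K // φ t = algebraMap E K (t : E) ∧
          Place.comap (isFunctionField_fixed H hE) hK φ v = ba} := by
        by_contra hcon
        rw [not_nonempty_iff] at hcon
        rw [Nat.card_of_isEmpty] at h1
        push_cast at h1
        omega
      obtain ⟨φ, hφ1, hφ2⟩ := hne
      have hres : resF hE H (zpt hE hK Λ e x v (e ⟨φ, hφ1⟩)) = ba := by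
        rw [← hφ2]
        unfold zpt
        rw [zmor_emb]
        exact res_comap hF hE hK φ (Λ ⟨φ, hφ1⟩) (hΛ ⟨φ, hφ1⟩) v
      obtain ⟨h, hh1, hh2⟩ := exists_fixing hE H χ hy (zpt hE hK Λ e x v (e ⟨φ, hφ1⟩))
        (by rw [hres]; exact hba)
      exact TW_zero hE H χ ins _ _ h hh1 hh2
  · -- the product is not rational
    push Not at hall
    obtain ⟨g₀, hg₀⟩ := hall
    have hg₀' : g₀ • W = -W := by
      rcases hgal g₀ with h | h
      · exact absurd h.1 hg₀
      · exact h.1
    have hW2 : W ^ 2 ∈ k⟮(algebraMap E K (t : E))⟯ := by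
      apply mem_adjoin_of_fixed (algebraMap E K (t : E)) G hG
      intro g
      rw [smul_pow']
      rcases hgal g with h | h
      · rw [h.1]
      · rw [h.1]; ring
    obtain ⟨r, s, hrs⟩ := (IntermediateField.mem_adjoin_simple_iff k (W ^ 2)).mp hW2
    have hinj : ∀ p : k[X], p ≠ 0 → aeval (algebraMap E K (t : E)) p ≠ 0 := by
      intro p hp h0
      exact hp ((transcendental_iff.mp hT) p h0)
    have hr : r ≠ 0 := by
      rintro rfl
      rw [map_zero, zero_div] at hrs
      exact pow_ne_zero 2 hW0 hrs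
    have hs : s ≠ 0 := by
      rintro rfl
      rw [map_zero, div_zero] at hrs
      exact pow_ne_zero 2 hW0 hrs
    have hsT := hinj s hs
    have hRq : (W * aeval (algebraMap E K (t : E)) s) ^ 2 = aeval (algebraMap E K (t : E)) (r * s) := by
      rw [mul_pow, hrs, map_mul]
      field_simp
    obtain ⟨S, hS0, hS⟩ := exists_square (r * s) (mul_ne_zero hr hs) ca cb (by
      intro a
      have h1 := rootMult_parity hE H χ hK hy t ht G hG Λ hΛ (r * s) s (mul_ne_zero hr hs) hs
        hRq a
      have h2 := parity_fib hF (twF_ne_zero H χ hy) t ht p q ba bb hsum hval ca cb hca hcb a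
      have h3 : (((r * s).rootMultiplicity a : ℤ) : ZMod 2) =
          ((2 * (s.rootMultiplicity a : ℤ) + ∑ P ∈ fib (isFunctionField_fixed H hE) ht a,
            ord P.ring (twF H χ hy) : ℤ) : ZMod 2) := by rw [h1]
      rw [Int.cast_add, h2] at h3
      push_cast at h3
      rw [h3]
      have h4 : (2 : ZMod 2) = 0 := by decide
      rw [h4, zero_mul, zero_add])
    have hST := hinj S hS0
    have hST2 : (aeval (algebraMap E K (t : E)) S) ^ 2 = (W * aeval (algebraMap E K (t : E)) s) ^ 2 * ((algebraMap E K (t : E)) - algebraMap k K ca) *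
        ((algebraMap E K (t : E)) - algebraMap k K cb) := by
      have h1 := congrArg (aeval (algebraMap E K (t : E))) hS
      rw [map_pow, map_mul, map_mul, map_sub, map_sub, aeval_X, aeval_C, aeval_C] at h1
      rw [← h1, hRq]
    have hgs : ∀ (g : G) (p : k[X]), g • (aeval (algebraMap E K (t : E)) p) = aeval (algebraMap E K (t : E)) p :=
      fun g p => smul_aeval (algebraMap E K (t : E)) G hG g p
    have hgc : ∀ (g : G) (c : k), g • ((algebraMap E K (t : E)) - algebraMap k K c) = (algebraMap E K (t : E)) - algebraMap k K c := by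
      intro g c
      have h1 := hgs g (X - C c)
      rwa [map_sub, aeval_X, aeval_C] at h1
    have hcab : ca ≠ cb := by
      rintro rfl
      have h1 : (aeval (algebraMap E K (t : E)) S) ^ 2 = (W * aeval (algebraMap E K (t : E)) s * ((algebraMap E K (t : E)) - algebraMap k K ca)) ^ 2 := by
        rw [hST2]; ring
      have h2 : W * (aeval (algebraMap E K (t : E)) s * ((algebraMap E K (t : E)) - algebraMap k K ca)) = aeval (algebraMap E K (t : E)) S ∨
          W * (aeval (algebraMap E K (t : E)) s * ((algebraMap E K (t : E)) - algebraMap k K ca)) = - aeval (algebraMap E K (t : E)) S := by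
        rcases sq_eq_sq_iff_eq_or_eq_neg.mp h1 with h | h
        · left; rw [h]; ring
        · right; rw [h]; ring
      have h3 : g₀ • (W * (aeval (algebraMap E K (t : E)) s * ((algebraMap E K (t : E)) - algebraMap k K ca))) =
          W * (aeval (algebraMap E K (t : E)) s * ((algebraMap E K (t : E)) - algebraMap k K ca)) := by
        rcases h2 with h | h
        · rw [h, hgs]
        · rw [h, smul_neg, hgs]
      rw [smul_mul', smul_mul', hgs, hgc, hg₀'] at h3
      have h4 := mul_right_cancel₀ (mul_ne_zero hsT (hsub0 ca)) h3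
      exact hWneg h4.symm
    set σ : K := aeval (algebraMap E K (t : E)) S / (W * aeval (algebraMap E K (t : E)) s * ((algebraMap E K (t : E)) - algebraMap k K cb)) with hσ
    have hσ2 : σ ^ 2 = ((algebraMap E K (t : E)) - algebraMap k K ca) / ((algebraMap E K (t : E)) - algebraMap k K cb) := by
      rw [hσ, div_pow, hST2]
      have h1 := hsub0 cb
      field_simp
    have hσg : ∀ g : G, (g • W = W → g • σ = σ) ∧ (g • W = -W → g • σ = -σ) := by
      intro g
      constructor
      · intro h
        rw [hσ, smul_div₀', smul_mul', smul_mul', hgs, hgs, hgc, h]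
      · intro h
        rw [hσ, smul_div₀', smul_mul', smul_mul', hgs, hgs, hgc, h]
        rw [neg_mul, neg_mul, div_neg]
    have hca0 : algebraMap k K cb - algebraMap k K ca ≠ 0 := by
      rw [← map_sub, Ne, map_eq_zero, sub_eq_zero]
      exact fun h => hcab h.symm
    have hσ21 : σ ^ 2 - 1 = (algebraMap k K cb - algebraMap k K ca) *
        ((algebraMap E K (t : E)) - algebraMap k K cb)⁻¹ := by
      rw [hσ2]
      have h1 := hsub0 cb
      field_simp
      ring
    have hσ21' : σ ^ 2 - 1 ≠ 0 := by
      rw [hσ21]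
      exact mul_ne_zero hca0 (inv_ne_zero (hsub0 cb))
    have hfac : σ ^ 2 - 1 = (σ - 1) * (σ + 1) := by ring
    have hm1 : σ - 1 ≠ 0 := by
      intro h; rw [hfac, h, zero_mul] at hσ21'; exact hσ21' rfl
    have hp1 : σ + 1 ≠ 0 := by
      intro h; rw [hfac, h, mul_zero] at hσ21'; exact hσ21' rfl
    set T₁ : K := (σ - 1) / (σ + 1) with hT₁
    have hT₁0 : T₁ ≠ 0 := div_ne_zero hm1 hp1
    have h2K : (2 : K) ≠ 0 := by
      have hc : CharZero K := charZero_of_injective_algebraMap (algebraMap k K).injective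
      exact two_ne_zero
    have h1T₁ : 1 - T₁ = 2 * (σ + 1)⁻¹ := by
      rw [hT₁]
      field_simp
      ring
    have h1T₁0 : 1 - T₁ ≠ 0 := by
      rw [h1T₁]
      exact mul_ne_zero h2K (inv_ne_zero hp1)
    have hkey : (algebraMap k K cb - algebraMap k K ca) * ((algebraMap E K (t : E)) - algebraMap k K cb)⁻¹ *
        (1 - T₁) ^ 2 = 4 * T₁ := by
      rw [← hσ21, h1T₁, hT₁, hfac]
      field_simp
      ring
    have hT₁tr : Transcendental k T₁ := by
      intro halg
      have h1 : IsAlgebraic k ((algebraMap E K (t : E)) - algebraMap k K cb)⁻¹ := by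
        have e : ((algebraMap E K (t : E)) - algebraMap k K cb)⁻¹ = 4 * T₁ * ((1 - T₁) ^ 2)⁻¹ *
            (algebraMap k K (cb - ca))⁻¹ := by
          rw [← hkey, map_sub]
          field_simp
        rw [e]
        have h4 : IsAlgebraic k (4 : K) := by
          have := isAlgebraic_algebraMap (R := k) (A := K) (4 : k)
          rwa [map_ofNat] at this
        have h1' : IsAlgebraic k (1 : K) := isAlgebraic_one
        exact (((h4.mul halg).mul ((h1'.sub halg).pow 2).inv)).mul
          (isAlgebraic_algebraMap (cb - ca)).inv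
      exact transcendental_inv (transcendental_sub hT cb) h1
    have hordkey : ∀ v : Place k K, ord v.ring T₁ ≠ 0 → (algebraMap E K (t : E))⁻¹ ∈ v.ring.nonunits := by
      intro v hv
      apply hTinv
      apply ord_neg_of_sub hK (algebraMap E K (t : E)) cb v hT
      have h4 : ord v.ring (4 : K) = 0 := by
        have := ord_algebraMap hK v (a := (4 : k)) (by norm_num)
        rwa [map_ofNat] at this
      have h4' : (4 : K) ≠ 0 := by
        have hc : CharZero K := charZero_of_injective_algebraMap (algebraMap k K).injective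
        norm_num
      have hc : ord v.ring (algebraMap k K cb - algebraMap k K ca) = 0 := by
        rw [← map_sub]
        exact ord_algebraMap hK v (sub_ne_zero.mpr (fun h => hcab h.symm))
      have h1 := congrArg (fun z => ord v.ring z) hkey
      rw [ord_mul hK v (mul_ne_zero hca0 (inv_ne_zero (hsub0 cb))) (pow_ne_zero 2 h1T₁0),
        ord_mul hK v hca0 (inv_ne_zero (hsub0 cb)), ord_inv hK v (hsub0 cb), hc,
        ord_pow hK v h1T₁0, ord_mul hK v h4' hT₁0, h4] at h1
      have hneg : ord v.ring (-T₁) = ord v.ring T₁ := by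
        have e : -T₁ = algebraMap k K (-1) * T₁ := by simp
        rw [e, ord_mul hK v (by simp) hT₁0, ord_algebraMap hK v (by simp), zero_add]
      obtain ⟨_, h2⟩ := ord_add_eq hK v (one_ne_zero (α := K)) (neg_ne_zero.mpr hT₁0)
        (by rw [ord_one hK v, hneg]; exact hv.symm)
      rw [← sub_eq_add_neg, ord_one hK v, hneg] at h2
      rw [h2] at h1
      push_cast at h1
      rcases lt_or_gt_of_ne hv with h | h
      · rw [min_eq_right h.le] at h1
        omega
      · rw [min_eq_left h.le] at h1
        omega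
    obtain ⟨v₀, hv₀⟩ := exists_place hK hT₁tr
    have hv₀' := (ord_pos_iff hK v₀ hT₁0).mpr hv₀
    have hgT₁ : ∀ g : G, (g • W = W → g • T₁ = T₁) ∧ (g • W = -W → g • T₁ = T₁⁻¹) := by
      intro g
      constructor
      · intro h
        rw [hT₁, smul_div₀', smul_sub, smul_add, smul_one, (hσg g).1 h]
      · intro h
        rw [hT₁, smul_div₀', smul_sub, smul_add, smul_one, (hσg g).2 h, inv_div]
        have e1 : -σ - 1 = -(σ + 1) := by ring
        have e2 : -σ + 1 = -(σ - 1) := by ring
        rw [e1, e2, neg_div_neg_eq]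
    refine ⟨T₁, v₀, hT₁0, hordkey v₀ hv₀'.ne', hv₀', ?_, ?_⟩
    · intro v hv
      obtain ⟨g, rfl⟩ := htrans v₀ v (hordkey v₀ hv₀'.ne') (hordkey v hv.ne')
      rcases hgal g with h | h
      · exact h.2 v₀
      · exfalso
        obtain ⟨n, hn, hord⟩ := hordg g v₀ T₁ hT₁0
        rw [(hgT₁ g).2 h.1, ord_inv hK v₀ hT₁0] at hord
        have : 0 < n * ord (act hK (gEquiv _ G hG g) v₀).ring T₁ := mul_pos hn hv
        omega
    · intro v hv
      left
      obtain ⟨g, rfl⟩ := htrans v₀ v (hordkey v₀ hv₀'.ne') (hordkey v hv.ne)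
      rcases hgal g with h | h
      · exfalso
        obtain ⟨n, hn, hord⟩ := hordg g v₀ T₁ hT₁0
        rw [(hgT₁ g).1 h.1] at hord
        have : n * ord (act hK (gEquiv _ G hG g) v₀).ring T₁ < 0 := mul_neg_of_pos_of_neg hn hv
        omega
      · exact h.2 v₀

end good

end VP
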