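import Mathlib
import Pool.Agent.Helper9.NS
import Pool.Agent.Helper94.VQ.Main

/-!
# Decomposition of invariant Albanese trivial cycles
-/

namespace VP

open VC VQ Function

universe u

section basic

variable {k : Type u} [Field k] [IsAlgClosed k] [CharZero k]
  {F₁ F₂ : Type u} [Field F₁] [Algebra k F₁] [Field F₂] [Algebra k F₂]
  (h₁ : IsFunctionField k F₁) (h₂ : IsFunctionField k F₂)

lemma bx_single_map {α β : Type u} (a : α) (b : β →₀ ℤ) :
    bx (Finsupp.single a 1) b = Finsupp.mapDomain (fun y => (a, y)) b := by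
  induction b using Finsupp.induction_linear with
  | zero => rw [bx_zero_right, Finsupp.mapDomain_zero]
  | add x y hx hy => rw [bx_add_right, hx, hy, Finsupp.mapDomain_add]
  | single y m => rw [bx_single, one_mul, Finsupp.mapDomain_single]

/-- The class of a box product with a torsion class vanishes. -/
lemma cl_bx_right (a : (curve h₁).Cycles) (b : (curve h₂).Cycles)
    (hb : ∃ m : ℕ, 0 < m ∧ m • b ∈ (curve h₂).Rat) :
    cl ((curve h₁).prod (curve h₂)) (bx a b) = 0 := by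
  obtain ⟨m, hm, hb⟩ := hb
  rw [cl_eq_zero_iff]
  refine ⟨m, hm, ?_⟩
  rw [← natCast_zsmul, ← bx_smul_right, natCast_zsmul]
  induction a using Finsupp.induction_linear with
  | zero => rw [bx_zero_left]; exact AddSubgroup.zero_mem _
  | add x y hx hy => rw [bx_add_left]; exact AddSubgroup.add_mem _ hx hy
  | single x l =>
    have e1 : (Finsupp.single x l : (curve h₁).Cycles) = l • Finsupp.single x 1 := by
      rw [Finsupp.smul_single, smul_eq_mul, mul_one]
    rw [e1, bx_smul_left, bx_single_map]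
    apply AddSubgroup.zsmul_mem
    apply map_rat _ _ _ _ hb
    intro K _ _ hK c
    exact ⟨(Sum.inl x, c), fun v => rfl⟩

/-- `t` acts trivially on the Picard group of degree zero, up to torsion. -/
def TrivOn {E : Type u} [Field E] [Algebra k E] (hE : IsFunctionField k E) (t : E ≃ₐ[k] E) :
    Prop :=
  ∀ P Q : Place k E, ∃ m : ℕ, 0 < m ∧
    m • ((Finsupp.single (act hE t P) 1 - Finsupp.single P 1) -
      (Finsupp.single (act hE t Q) 1 - Finsupp.single Q 1)) ∈ (curve hE).Rat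

lemma induced_right (t : F₂ ≃ₐ[k] F₂) :
    Induced ((curve h₁).prod (curve h₂)) ((curve h₁).prod (curve h₂))
      (fun p => (p.1, act h₂ t p.2)) := by
  intro K _ _ hK c
  refine ⟨(c.1, actM h₂ t c.2), fun v => ?_⟩
  change (_, (curve h₂).eval hK (actM h₂ t c.2) v) = _
  rw [eval_actM]

lemma cl_act_right (t : F₂ ≃ₐ[k] F₂) (ht : TrivOn h₂ t)
    (z : ((curve h₁).prod (curve h₂)).Cycles)
    (hz : AlbaneseTrivial (curve h₁) (curve h₂) z) :
    cl ((curve h₁).prod (curve h₂)) (Finsupp.mapDomain (fun p => (p.1, act h₂ t p.2)) z) =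
      cl ((curve h₁).prod (curve h₂)) z := by
  obtain ⟨t₁, ht₁, _⟩ := id h₁
  obtain ⟨t₂, ht₂, _⟩ := id h₂
  obtain ⟨o₁, _⟩ := exists_place h₁ ht₁
  obtain ⟨o₂, _⟩ := exists_place h₂ ht₂
  let o : Place k F₁ × Place k F₂ := (o₁, o₂)
  have h1 := albanese_sub_TS h₁ h₂ o z hz
  have h2 := map_rat _ _ _ (induced_right h₁ h₂ t) h1
  have e1 : cl ((curve h₁).prod (curve h₂)) z = cl ((curve h₁).prod (curve h₂)) (TS o z) := by
    rw [cl_eq_iff]
    exact ⟨1, one_pos, by rwa [one_smul]⟩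
  have e2 : cl ((curve h₁).prod (curve h₂)) (Finsupp.mapDomain (fun p => (p.1, act h₂ t p.2)) z) =
      cl ((curve h₁).prod (curve h₂))
        (Finsupp.mapDomain (fun p => (p.1, act h₂ t p.2)) (TS o z)) := by
    rw [cl_eq_iff]
    refine ⟨1, one_pos, ?_⟩
    rw [one_smul]
    rw [← Finsupp.lmapDomain_apply ℤ ℤ, map_sub] at h2
    exact h2
  rw [e1, e2]
  have key : (cl ((curve h₁).prod (curve h₂))) ∘ₗ
      (Finsupp.lmapDomain ℤ ℤ (fun p : Place k F₁ × Place k F₂ => (p.1, act h₂ t p.2))) ∘ₗ TS o =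
      (cl ((curve h₁).prod (curve h₂))) ∘ₗ TS o := by
    apply Finsupp.lhom_ext'
    rintro ⟨p, q⟩
    apply LinearMap.ext_ring
    have e3 : TS o (Finsupp.single (p, q) (1 : ℤ)) =
        bx (Finsupp.single p 1 - Finsupp.single o.1 1) (Finsupp.single q 1 - Finsupp.single o.2 1) := by
      rw [TS_apply]
      simp only [Finsupp.mapDomain_single, bx_sub_left, bx_sub_right, bx_single, one_mul]
      abel
    have e4 : Finsupp.lmapDomain ℤ ℤ (fun p : Place k F₁ × Place k F₂ => (p.1, act h₂ t p.2))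
        (TS o (Finsupp.single (p, q) (1 : ℤ))) =
        bx (Finsupp.single p 1 - Finsupp.single o.1 1)
          (Finsupp.single (act h₂ t q) 1 - Finsupp.single (act h₂ t o.2) 1) := by
      rw [e3]
      simp only [bx_sub_left, bx_sub_right, bx_single, one_mul, map_sub, Finsupp.lmapDomain_apply,
        Finsupp.mapDomain_single]
    rw [LinearMap.comp_apply, LinearMap.comp_apply, LinearMap.comp_apply, LinearMap.comp_apply,
      LinearMap.comp_apply, Finsupp.lsingle_apply, e4, e3, ← sub_eq_zero, ← map_sub,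
      ← bx_sub_right]
    apply cl_bx_right
    obtain ⟨m, hm, hmem⟩ := ht q o.2
    refine ⟨m, hm, ?_⟩
    have e5 : (Finsupp.single (act h₂ t q) (1 : ℤ) - Finsupp.single (act h₂ t o.2) 1 -
        (Finsupp.single q 1 - Finsupp.single o.2 1) : Place k F₂ →₀ ℤ) =
        Finsupp.single (act h₂ t q) 1 - Finsupp.single q 1 -
        (Finsupp.single (act h₂ t o.2) 1 - Finsupp.single o.2 1) := by abel
    rw [e5]
    exact hmem
  exact congrArg (fun f => f z) key

end basic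

section inv

variable {k : Type u} [Field k]
  {F₁ F₂ : Type u} [Field F₁] [Algebra k F₁] [Field F₂] [Algebra k F₂]
  (h₁ : IsFunctionField k F₁) (h₂ : IsFunctionField k F₂)
  (V₁ : Subgroup (F₁ ≃ₐ[k] F₁)) (V₂ : Subgroup (F₂ ≃ₐ[k] F₂)) [Fintype V₁] [Fintype V₂]

/-- the operator `1 ⊗ ∑ χ(t) t` -/
def Uop (χ : V₂ →* ℤˣ) : IOp ((curve h₁).prod (curve h₂)) :=
  (IOp.id (curve h₁)).prod (eop h₂ V₂ χ)

lemma Uop_apply (χ : V₂ →* ℤˣ) (z : ((curve h₁).prod (curve h₂)).Cycles) :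
    (Uop h₁ h₂ V₂ χ).toLin z = ∑ t : V₂, ((χ t : ℤˣ) : ℤ) •
      Finsupp.mapDomain (fun p => (p.1, act h₂ t.1 p.2)) z := by
  have h : (Uop h₁ h₂ V₂ χ).toLin = ∑ t : V₂, ((χ t : ℤˣ) : ℤ) •
      Finsupp.lmapDomain ℤ ℤ (fun p : Place k F₁ × Place k F₂ => (p.1, act h₂ t.1 p.2)) := by
    apply Finsupp.lhom_ext'
    rintro ⟨p, q⟩
    apply LinearMap.ext_ring
    rw [LinearMap.comp_apply, LinearMap.comp_apply, Finsupp.lsingle_apply, LinearMap.sum_apply]
    unfold Uop
    rw [prod_toLin_single, IOp.id_toLin, LinearMap.id_apply, eop_single, bx_sum_right]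
    apply Finset.sum_congr rfl
    intro t _
    rw [bx_smul_right, bx_single, one_mul, LinearMap.smul_apply, Finsupp.lmapDomain_apply,
      Finsupp.mapDomain_single]
  rw [h, LinearMap.sum_apply]
  rfl

/-- The product of the two isotypic operators, on an invariant cycle. -/
lemma eop_eop_inv (G : Subgroup (V₁ × V₂)) (hp₁ : ∀ s : V₁, ∃ t : V₂, (s, t) ∈ G)
    (χ₁ : V₁ →* ℤˣ) (χ₂ : V₂ →* ℤˣ) (hχ : ∀ s ∈ G, χ₁ s.1 = χ₂ s.2)
    (z : ((curve h₁).prod (curve h₂)).Cycles)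
    (hz : ∀ s ∈ G, Finsupp.mapDomain (act2 h₁ h₂ V₁ V₂ s) z = z) :
    ((eop h₁ V₁ χ₁).prod (eop h₂ V₂ χ₂)).toLin z =
      (Fintype.card V₁ : ℤ) • (Uop h₁ h₂ V₂ χ₂).toLin z := by
  have h : ∀ s : V₁, Finsupp.mapDomain (fun p => (act h₁ s.1 p.1, p.2))
      ((Uop h₁ h₂ V₂ χ₂).toLin z) = ((χ₁ s : ℤˣ) : ℤ) • (Uop h₁ h₂ V₂ χ₂).toLin z := by
    intro s
    obtain ⟨t, ht⟩ := hp₁ s
    have e : (Uop h₁ h₂ V₂ χ₂).toLin ∘ₗ Finsupp.lmapDomain ℤ ℤ (act2 h₁ h₂ V₁ V₂ (s, t)) =
        ((χ₂ t : ℤˣ) : ℤ) • (Finsupp.lmapDomain ℤ ℤ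
          (fun p : Place k F₁ × Place k F₂ => (act h₁ s.1 p.1, p.2))) ∘ₗ
          (Uop h₁ h₂ V₂ χ₂).toLin := by
      apply Finsupp.lhom_ext'
      rintro ⟨p, q⟩
      apply LinearMap.ext_ring
      rw [LinearMap.comp_apply, LinearMap.comp_apply, LinearMap.comp_apply, LinearMap.smul_apply,
        LinearMap.comp_apply, Finsupp.lsingle_apply, Finsupp.lmapDomain_apply,
        Finsupp.mapDomain_single]
      have e1 : act2 h₁ h₂ V₁ V₂ (s, t) (p, q) = (act h₁ s.1 p, act h₂ t.1 q) := rfl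
      unfold Uop
      rw [e1, prod_toLin_single, prod_toLin_single, IOp.id_toLin, LinearMap.id_apply,
        LinearMap.id_apply, eop_act, bx_smul_right]
      congr 1
      rw [bx_single_map, bx_single_map, Finsupp.lmapDomain_apply, ← Finsupp.mapDomain_comp]
      rfl
    have e' := congrArg (fun f => f z) e
    rw [LinearMap.comp_apply, LinearMap.smul_apply, LinearMap.comp_apply,
      Finsupp.lmapDomain_apply, Finsupp.lmapDomain_apply, hz _ ht] at e'
    rw [hχ _ ht]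
    change _ = ((χ₂ t : ℤˣ) : ℤ) • _
    conv_rhs => rw [e', smul_smul, ← Units.val_mul, Int.units_mul_self, Units.val_one, one_smul]
  have e : ((eop h₁ V₁ χ₁).prod (eop h₂ V₂ χ₂)).toLin = ∑ s : V₁, ((χ₁ s : ℤˣ) : ℤ) •
      (Finsupp.lmapDomain ℤ ℤ (fun p : Place k F₁ × Place k F₂ => (act h₁ s.1 p.1, p.2))) ∘ₗ
        (Uop h₁ h₂ V₂ χ₂).toLin := by
    apply Finsupp.lhom_ext'
    rintro ⟨p, q⟩
    apply LinearMap.ext_ring
    rw [LinearMap.comp_apply, LinearMap.comp_apply, Finsupp.lsingle_apply, LinearMap.sum_apply]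
    unfold Uop
    rw [prod_toLin_single, eop_single, bx_sum_left]
    apply Finset.sum_congr rfl
    intro s _
    rw [LinearMap.smul_apply, LinearMap.comp_apply, prod_toLin_single, IOp.id_toLin,
      LinearMap.id_apply, bx_smul_left, bx_single_map, bx_single_map, Finsupp.lmapDomain_apply,
      ← Finsupp.mapDomain_comp]
    rfl
  rw [e, LinearMap.sum_apply]
  have h' : ∀ s : V₁, (((χ₁ s : ℤˣ) : ℤ) •
      (Finsupp.lmapDomain ℤ ℤ (fun p : Place k F₁ × Place k F₂ => (act h₁ s.1 p.1, p.2))) ∘ₗ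
        (Uop h₁ h₂ V₂ χ₂).toLin) z = (Uop h₁ h₂ V₂ χ₂).toLin z := by
    intro s
    rw [LinearMap.smul_apply, LinearMap.comp_apply, Finsupp.lmapDomain_apply, h s, smul_smul,
      ← Units.val_mul, Int.units_mul_self, Units.val_one, one_smul]
  rw [Finset.sum_congr rfl (fun s _ => h' s), Finset.sum_const, Finset.card_univ, natCast_zsmul]

end inv

end VP
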