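import Mathlib
import Pool.Agent.Helper70.VP.Good

/-!
# Symmetrized products of more than `p` elements of a ramified Prym variety vanish
-/

namespace VP

open VC VQ Function IntermediateField Polynomial

universe u

section vanish

variable {k E : Type u} [Field k] [IsAlgClosed k] [CharZero k] [Field E] [Algebra k E]
  (hE : IsFunctionField k E) (H : Subgroup (E ≃ₐ[k] E)) [Fintype H] (χ : H →* ℤˣ)

/-- **Prym vanishing.** Let `C` be a curve with a finite group `H` of automorphisms, `χ` a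
character of `H` with values `± 1`, `γ` the genus of `C / H` and `2 s > 0` the number of branch
points of the double cover `C / ker χ → C / H`. Symmetrized products of `γ + s` or more cycles of
the form `∑ χ(h) [h x]` are torsion in the Chow group of zero-cycles. -/
theorem tw_vanish {y : E} (hy : IsTw H χ y) (γ : ℕ)
    (hγ : ∀ D : Place k (fixedField H) →₀ ℤ,
      (D.sum fun _ m => m) + 1 ≤
        (Module.finrank k (riemannRochSpace k (fixedField H) D) : ℤ) + γ)
    (s : ℕ) (hs : 0 < s)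
    (hram : (oddSet (isFunctionField_fixed H hE) (twF_ne_zero H χ hy)).card = 2 * s)
    {J : Type*} [Fintype J] [DecidableEq J] (hJ : γ + s ≤ Fintype.card J)
    (X : Variety k) (ins : (J → Place k E) → X.Pt)
    (hins : ∀ (K : Type u) [Field K] [Algebra k K] (hK : IsFunctionField k K)
      (z : J → (curve hE).Mor K), ∃ c : X.Mor K, ∀ v, X.eval hK c v =
        ins (fun j => (curve hE).eval hK (z j) v))
    (x : J → Place k E) :
    cl X (TW hE H χ ins x) = 0 := by
  classical
  have hF := isFunctionField_fixed H hE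
  -- the trivial case
  by_cases htriv : ∃ j, Odd (ord (resF hE H (x j)).ring (twF H χ hy))
  · obtain ⟨j, hj⟩ := htriv
    obtain ⟨h, hh1, hh2⟩ := exists_fixing hE H χ hy (x j) hj
    rw [TW_zero hE H χ ins x j h hh1 hh2, map_zero]
  push Not at htriv
  have hdisj : ∀ P ∈ oddSet hF (twF_ne_zero H χ hy), ∀ j, resF hE H (x j) ≠ P := by
    intro P hP j h
    rw [mem_oddSet, ← h] at hP
    exact htriv j hP
  obtain ⟨m, p, q, ba, bb, hcard, hp, hq, hba, hbb, hsum⟩ :=
    exists_pairing (oddSet hF (twF_ne_zero H χ hy)) ⟨s, by rw [hram]; ring⟩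
      (by rw [← Finset.card_pos]; omega)
  have hms : m + 1 = s := by omega
  obtain ⟨t, ht, hpole, hval⟩ := exists_pencil hF γ hγ (J := J) (m := m)
    (by rw [Nat.card_eq_fintype_card]; omega) (fun j => resF hE H (x j)) p q
    (fun i j => hdisj _ (hp i) j) (fun i j => hdisj _ (hq i) j)
  have ht0 : t ≠ 0 := by
    intro h0
    rw [h0] at ht
    exact ht isAlgebraic_zero
  have hreg : ∀ P ∈ oddSet hF (twF_ne_zero H χ hy), t ∈ P.ring := by
    intro P hP
    rw [← ord_nonneg_iff hF P ht0]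
    have h1 := hpole P
    have h2 : IsEmpty {j // resF hE H (x j) = P} := ⟨fun j => hdisj P hP j.1 j.2⟩
    rw [Nat.card_of_isEmpty] at h1
    simpa using h1
  obtain ⟨ca, hca⟩ := exists_residue hF ba (hreg ba hba)
  obtain ⟨cb, hcb⟩ := exists_residue hF bb (hreg bb hbb)
  -- the Galois cover
  have htE : Transcendental k (t : E) :=
    (transcendental_algebraMap_iff (algebraMap (fixedField H) E).injective).mpr ht
  obtain ⟨K, _, _, _, _, hK, G, _, _, _, hG⟩ := exists_cover hE (t : E) htE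
  have hΦ : Finite {φ : fixedField H →ₐ[k] K // φ t = algebraMap E K (t : E)} :=
    finite_homs (K := K) t (hF.finiteDimensional ht)
  have : Fintype {φ : fixedField H →ₐ[k] K // φ t = algebraMap E K (t : E)} := Fintype.ofFinite _
  have hlift : ∀ φ : {φ : fixedField H →ₐ[k] K // φ t = algebraMap E K (t : E)},
      ∃ ψ : E →ₐ[k] K, ∀ x : fixedField H, ψ (x : E) = φ.1 x := by
    intro φ
    obtain ⟨ψ, hψ⟩ := exists_lift (K := K) t ht G hG φ.1 φ.2
    exact ⟨ψ.comp (IsScalarTower.toAlgHom k E K), hψ⟩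
  choose Λ hΛ using hlift
  have htK : Transcendental k (algebraMap E K (t : E)) :=
    (transcendental_algebraMap_iff (algebraMap E K).injective).mpr htE
  have hTi := transcendental_inv htK
  have hti := transcendental_inv ht
  have hG' : IsGaloisGroup G k⟮(algebraMap E K (t : E))⁻¹⟯ K := by rw [adjoin_inv]; exact hG
  obtain ⟨v₁, hv₁⟩ := exists_place hK hTi
  have eK : algebraMap (fixedField H) K t⁻¹ = (algebraMap E K (t : E))⁻¹ := by
    rw [map_inv₀]
    rfl
  have hcnt : ∀ P : Place k (fixedField H),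
      (Nat.card {φ : {φ : fixedField H →ₐ[k] K // φ t = algebraMap E K (t : E)} //
        Place.comap hF hK φ.1 v₁ = P} : ℤ) = max (- ord P.ring t) 0 := by
    intro P
    rw [← ord_inv hF P ht0, ← card_cover hF hK t⁻¹ hti G (by rw [eK]; exact hG') v₁
      (by rw [eK]; exact hv₁) P]
    congr 1
    refine Nat.card_congr ⟨fun φ => ⟨φ.1.1, ?_, φ.2⟩, fun φ => ⟨⟨φ.1, ?_⟩, φ.2.2⟩, ?_, ?_⟩
    · rw [eK, map_inv₀, φ.1.2]
    · have h : φ.1 t⁻¹ = (algebraMap E K (t : E))⁻¹ := φ.2.1.trans eK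
      rw [map_inv₀] at h
      exact inv_injective h
    · intro φ; rfl
    · intro φ; rfl
  obtain ⟨e, he⟩ := exists_embedding_of_fibres
    (fun φ : {φ : fixedField H →ₐ[k] K // φ t = algebraMap E K (t : E)} =>
      Place.comap hF hK φ.1 v₁)
    (fun j => resF hE H (x j)) (by
    intro P
    have h1 := hcnt P
    have h2 := hpole P
    have h3 : (Nat.card {φ : {φ : fixedField H →ₐ[k] K // φ t = algebraMap E K (t : E)} //
        Place.comap hF hK φ.1 v₁ = P} : ℤ) ≤ Nat.card {j // resF hE H (x j) = P} := by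
      rw [h1]
      apply max_le <;> omega
    exact_mod_cast h3)
  have hex : ∀ φ, resF hE H (x (e φ)) = Place.comap hF hK φ.1 v₁ := fun φ => congrFun he φ
  -- the value at `v₁`
  have hz1 : ∃ ε : ℤˣ, TW hE H χ ins (zpt hE hK Λ e x v₁) = (ε : ℤ) • TW hE H χ ins x := by
    have h1 : ∀ j, ∃ h : H, zpt hE hK Λ e x v₁ j = act hE h.1 (x j) := by
      intro j
      by_cases hj : ∃ φ, e φ = j
      · obtain ⟨φ, rfl⟩ := hj
        apply exists_act_of_resF hE H
        rw [hex φ]
        unfold zpt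
        rw [zmor_emb]
        exact (res_comap hF hE hK φ.1 (Λ φ) (hΛ φ) v₁).symm
      · refine ⟨1, ?_⟩
        unfold zpt
        rw [zmor_not hE Λ e x j hj]
        exact (act_one hE _).symm
    choose h hh using h1
    refine ⟨∏ j, χ (h j), ?_⟩
    have h2 : zpt hE hK Λ e x v₁ = fun j => act hE (h j).1 (x j) := funext hh
    rw [h2, TW_act]
  obtain ⟨T₀, v₀, hT₀, hv₀, hv₀', hpos, hneg⟩ := exists_good hE H χ hK hy t ht G hG Λ hΛ p q ba bb
    hsum ((mem_oddSet hF _ ba).mp hba) hval ca cb hca hcb e ins x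
  -- the value at `v₀`
  have hz0 : ∃ ε : ℤˣ, TW hE H χ ins (zpt hE hK Λ e x v₀) = (ε : ℤ) • TW hE H χ ins x := by
    obtain ⟨g, hg⟩ := exists_galois_place _ G hK hTi hG' v₁ v₀ hv₁ hv₀
    have hg' : v₀ = act hK (gEquiv _ G hG g) v₁ := hg
    obtain ⟨ε, _, h2⟩ := gal_TW hE H χ hK hy t G hG Λ hΛ e ins x g
    obtain ⟨ε', h3⟩ := hz1
    refine ⟨ε * ε', ?_⟩
    rw [hg', h2, h3, smul_smul]
    push_cast
    rfl
  -- the relation
  set S := (finite_support_ord hK hT₀).toFinset with hS
  have hn : ∀ v : Place k K, ∃ n : ℤ, 0 ≤ n ∧ (0 < ord v.ring T₀ → 0 < n) ∧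
      ord v.ring T₀ • TW hE H χ ins (zpt hE hK Λ e x v) =
        n • TW hE H χ ins (zpt hE hK Λ e x v₀) := by
    intro v
    rcases lt_trichotomy (ord v.ring T₀) 0 with hlt | heq | hgt
    · rcases hneg v hlt with h | h
      · refine ⟨- ord v.ring T₀, by omega, by omega, ?_⟩
        rw [h, smul_neg, neg_smul]
      · refine ⟨0, le_rfl, by omega, ?_⟩
        rw [h, smul_zero, zero_smul]
    · refine ⟨0, le_rfl, by omega, ?_⟩
      rw [heq, zero_smul, zero_smul]
    · refine ⟨ord v.ring T₀, by omega, by omega, ?_⟩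
      rw [hpos v hgt]
  choose n hn0 hn1 hn2 using hn
  choose c hc using fun (τ : Equiv.Perm J) (h : J → H) =>
    hins K hK (fun j => actM hE (h j).1 ((zmor hE Λ e x ∘ τ) j))
  have h1 : ∑ τ : Equiv.Perm J, ∑ h : J → H, ((∏ j, χ (h j) : ℤˣ) : ℤ) • ∑ v ∈ S,
      Finsupp.single (X.eval hK (c τ h) v) (ord v.ring T₀) ∈
      X.Rat := AddSubgroup.sum_mem _ (fun τ _ => AddSubgroup.sum_mem _
        (fun h _ => AddSubgroup.zsmul_mem _ (gen_mem X hK (c τ h) hT₀) _))
  have h1' : ∑ v ∈ S, ∑ τ : Equiv.Perm J, ∑ h : J → H, ((∏ j, χ (h j) : ℤˣ) : ℤ) •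
      (Finsupp.single (X.eval hK (c τ h) v) (ord v.ring T₀) : X.Cycles) ∈ X.Rat := by
    rw [Finset.sum_comm, Finset.sum_congr rfl (fun τ _ => Finset.sum_comm)]
    simp only [← Finset.smul_sum]
    exact h1
  have h2 : ∀ v : Place k K, ∑ τ : Equiv.Perm J, ∑ h : J → H, ((∏ j, χ (h j) : ℤˣ) : ℤ) •
      (Finsupp.single (X.eval hK (c τ h) v) (ord v.ring T₀) : X.Cycles) =
      n v • TW hE H χ ins (zpt hE hK Λ e x v₀) := by
    intro v
    rw [← hn2]
    unfold TW tw
    rw [Finset.smul_sum]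
    apply Finset.sum_congr rfl
    intro τ _
    rw [Finset.smul_sum]
    apply Finset.sum_congr rfl
    intro h _
    rw [smul_comm, hc, Finsupp.smul_single (ord v.ring T₀), smul_eq_mul, mul_one]
    congr 3
    funext j
    rw [eval_actM]
    rfl
  rw [Finset.sum_congr rfl (fun v _ => h2 v), ← Finset.sum_smul] at h1'
  have hM : 0 < ∑ v ∈ S, n v := by
    apply Finset.sum_pos' (fun v _ => hn0 v)
    refine ⟨v₀, ?_, hn1 v₀ hv₀'⟩
    rw [hS, Set.Finite.mem_toFinset]
    exact hv₀'.ne'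
  obtain ⟨ε, hε⟩ := hz0
  rw [hε, smul_smul] at h1'
  rw [cl_eq_zero_iff]
  obtain ⟨M, hM'⟩ := Int.eq_ofNat_of_zero_le hM.le
  have hM0 : 0 < M := by omega
  refine ⟨M, hM0, ?_⟩
  rw [hM'] at h1'
  rcases Int.units_eq_one_or ε with h | h
  · rw [h, Units.val_one, mul_one] at h1'
    rwa [natCast_zsmul] at h1'
  · rw [h, Units.val_neg, Units.val_one, mul_neg, mul_one, neg_smul] at h1'
    have h3 := (AddSubgroup.neg_mem_iff _).mp h1'
    rwa [natCast_zsmul] at h3

end vanish

end VP
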