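import Mathlib
import Pool.Agent.Helper70.VP.RH2
import Pool.Agent.Helper70.VP.Vanish

/-!
# The Riemann-Hurwitz inequality for the double cover given by a character
-/

namespace VP

open VC VQ Function IntermediateField

universe u

section

variable {k E : Type u} [Field k] [Field E] [Algebra k E]
  (H : Subgroup (E ≃ₐ[k] E)) (χ : H →* ℤˣ) (h₀ : H) (h₀' : χ h₀ = -1)

include h₀' in
lemma ker_act (z : E) (hz : z ∈ fixedField (kerS H χ)) (h : H) :
    (χ h = 1 → h.1 z = z) ∧ (χ h = -1 → h.1 z = h₀.1 z) := by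
  have h1 : ∀ g : H, χ g = 1 → g.1 z = z := by
    intro g hg
    exact hz ⟨g.1, g, hg, rfl⟩
  refine ⟨h1 h, fun hh => ?_⟩
  have h2 := h1 (h₀⁻¹ * h) (by rw [map_mul, map_inv, hh, h₀']; simp)
  have h3 : h₀.1 ((h₀⁻¹ * h).1 z) = h.1 z := by
    change h₀.1 (h₀.1⁻¹ (h.1 z)) = h.1 z
    exact (h₀.1 : E ≃ₐ[k] E).apply_symm_apply _
  rw [← h3, h2]

include h₀' in
lemma ker_invol (z : E) (hz : z ∈ fixedField (kerS H χ)) : h₀.1 (h₀.1 z) = z := by
  have := (ker_act H χ h₀ h₀' z hz (h₀ * h₀)).1 (by rw [map_mul, h₀']; rfl)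
  exact this

include h₀' in
lemma ker_map (z : E) (hz : z ∈ fixedField (kerS H χ)) : h₀.1 z ∈ fixedField (kerS H χ) := by
  rintro ⟨_, g, hg, rfl⟩
  change g.1 (h₀.1 z) = h₀.1 z
  exact (ker_act H χ h₀ h₀' z hz (g * h₀)).2 (by
    rw [map_mul, h₀', MonoidHom.mem_ker.mp hg, one_mul])

lemma fixed_le : fixedField H ≤ fixedField (kerS H χ) := by
  intro z hz
  rintro ⟨_, g, _, rfl⟩
  exact hz g

variable [IsAlgClosed k] [CharZero k] (hE : IsFunctionField k E)

include h₀' in
/-- Riemann-Hurwitz inequality for the double cover `C / ker χ → C / H`. -/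
theorem rh_fixed [Finite H] {y : E} (hy : IsTw H χ y) (γ : ℕ) (hγ : IsGenus k (fixedField H) γ)
    (g : ℕ) (hg : ∀ D : Place k (fixedField (kerS H χ)) →₀ ℤ,
      (D.sum fun _ m => m) + 1 ≤
        (Module.finrank k (riemannRochSpace k (fixedField (kerS H χ)) D) : ℤ) + g)
    (s : ℕ) (hs : (oddSet (isFunctionField_fixed H hE) (twF_ne_zero H χ hy)).card = 2 * s) :
    2 * γ + s ≤ g + 1 := by
  have : Fintype H := Fintype.ofFinite H
  have hF := isFunctionField_fixed H hE
  have hF₁ := isFunctionField_fixed (kerS H χ) hE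
  let a : Algebra (fixedField H) (fixedField (kerS H χ)) :=
    (IntermediateField.inclusion (fixed_le H χ)).toRingHom.toAlgebra
  have t1 : IsScalarTower k (fixedField H) (fixedField (kerS H χ)) :=
    IsScalarTower.of_algebraMap_eq (fun _ => rfl)
  have h2ne : (2 : E) ≠ 0 := by
    have : CharZero E := charZero_of_injective_algebraMap (algebraMap k E).injective
    exact two_ne_zero
  have hcoe : ∀ x : fixedField H,
      ((algebraMap (fixedField H) (fixedField (kerS H χ)) x : fixedField (kerS H χ)) : E) = x :=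
    fun _ => rfl
  let ι : fixedField (kerS H χ) →ₐ[k] fixedField (kerS H χ) :=
    { toFun := fun z => ⟨h₀.1 z.1, ker_map H χ h₀ h₀' z.1 z.2⟩
      map_one' := Subtype.ext (map_one h₀.1)
      map_mul' := fun a b => Subtype.ext (map_mul h₀.1 a.1 b.1)
      map_zero' := Subtype.ext (map_zero h₀.1)
      map_add' := fun a b => Subtype.ext (map_add h₀.1 a.1 b.1)
      commutes' := fun c => Subtype.ext (h₀.1.commutes c) }
  have hιc : ∀ z : fixedField (kerS H χ), ((ι z : fixedField (kerS H χ)) : E) = h₀.1 z :=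
    fun _ => rfl
  let y₁ : fixedField (kerS H χ) := ⟨y, by
    rintro ⟨_, g, hg, rfl⟩
    change g.1 y = y
    rw [hy.2, MonoidHom.mem_ker.mp hg]
    simp⟩
  refine riemann_hurwitz hF hF₁ ι y₁ (twF H χ hy) ?_ ?_ ?_ ?_ ?_ (twF_ne_zero H χ hy) ?_ γ hγ g hg
    s hs
  · intro x
    apply Subtype.ext
    rw [hιc, hcoe]
    exact x.2 h₀
  · intro z
    apply Subtype.ext
    rw [hιc, hιc]
    exact ker_invol H χ h₀ h₀' z.1 z.2
  · intro h0
    exact hy.1 (congrArg Subtype.val h0)
  · apply Subtype.ext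
    rw [hιc]
    change h₀.1 y = -y
    rw [hy.2, h₀']
    simp
  · rfl
  · intro z
    have hz := z.2
    have hinvol : ∀ h : H, h.1 (h₀.1 z.1) = if χ h = 1 then h₀.1 z.1 else z.1 := by
      intro h
      split_ifs with hh
      · exact (ker_act H χ h₀ h₀' _ (ker_map H χ h₀ h₀' z.1 hz) h).1 hh
      · rw [(ker_act H χ h₀ h₀' _ (ker_map H χ h₀ h₀' z.1 hz) h).2
          ((Int.units_eq_one_or _).resolve_left hh), ker_invol H χ h₀ h₀' z.1 hz]
    have hz' : ∀ h : H, h.1 z.1 = if χ h = 1 then z.1 else h₀.1 z.1 := by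
      intro h
      split_ifs with hh
      · exact (ker_act H χ h₀ h₀' z.1 hz h).1 hh
      · exact (ker_act H χ h₀ h₀' z.1 hz h).2 ((Int.units_eq_one_or _).resolve_left hh)
    refine ⟨⟨(z.1 + h₀.1 z.1) / 2, ?_⟩, ⟨(z.1 - h₀.1 z.1) / (2 * y), ?_⟩, ?_⟩
    · intro h
      change h.1 ((z.1 + h₀.1 z.1) / 2) = (z.1 + h₀.1 z.1) / 2
      rw [map_div₀, map_add, hz', hinvol]
      have : h.1 (2 : E) = 2 := map_ofNat _ 2
      rw [this]
      split_ifs with hh
      · rfl
      · rw [add_comm]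
    · intro h
      change h.1 ((z.1 - h₀.1 z.1) / (2 * y)) = (z.1 - h₀.1 z.1) / (2 * y)
      have : h.1 (2 : E) = 2 := map_ofNat _ 2
      rw [map_div₀, map_sub, hz', hinvol, map_mul, this, hy.2]
      split_ifs with hh
      · rw [hh]; simp
      · rw [(Int.units_eq_one_or _).resolve_left hh]
        simp only [Units.val_neg, Units.val_one, neg_smul, one_smul]
        rw [mul_neg, div_neg, ← neg_div, neg_sub]
    · apply Subtype.ext
      change z.1 = (z.1 + h₀.1 z.1) / 2 + (z.1 - h₀.1 z.1) / (2 * y) * y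
      have := hy.1
      field_simp
      ring

/-- **Prym vanishing**, with the dimension of the Prym variety expressed through genera. -/
theorem prym_vanish [Fintype H] (γ : ℕ) (hγ : IsGenus k (fixedField H) γ)
    (g : ℕ) (hg : ∀ D : Place k (fixedField (kerS H χ)) →₀ ℤ,
      (D.sum fun _ m => m) + 1 ≤
        (Module.finrank k (riemannRochSpace k (fixedField (kerS H χ)) D) : ℤ) + g)
    (hram : ∃ h : H, χ h = -1 ∧ ∃ P : Place k E, act hE h.1 P = P)
    {J : Type*} [Fintype J] [DecidableEq J] (hJ : g - γ + 1 ≤ Fintype.card J)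
    (X : Variety k) (ins : (J → Place k E) → X.Pt)
    (hins : ∀ (K : Type u) [Field K] [Algebra k K] (hK : IsFunctionField k K)
      (z : J → (curve hE).Mor K), ∃ c : X.Mor K, ∀ v, X.eval hK c v =
        ins (fun j => (curve hE).eval hK (z j) v))
    (x : J → Place k E) :
    cl X (TW hE H χ ins x) = 0 := by
  obtain ⟨h₀, h₀', P, hP⟩ := hram
  obtain ⟨y, hy⟩ := exists_isTw H χ
  have hodd := odd_of_fixing hE H χ hy P h₀ h₀' hP
  obtain ⟨s, hs⟩ := even_card_oddSet (isFunctionField_fixed H hE) (twF_ne_zero H χ hy)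
  have hs' : (oddSet (isFunctionField_fixed H hE) (twF_ne_zero H χ hy)).card = 2 * s := by
    rw [hs]; ring
  have hpos : 0 < s := by
    have h1 : 0 < (oddSet (isFunctionField_fixed H hE) (twF_ne_zero H χ hy)).card := by
      rw [Finset.card_pos]
      exact ⟨_, (mem_oddSet _ _ _).mpr hodd⟩
    omega
  have hrh := rh_fixed H χ h₀ h₀' hE hy γ hγ g hg s hs'
  exact tw_vanish hE H χ hy γ hγ.1 s hpos hs' (by omega) X ins hins x

end

end VP
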