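import Mathlib
import Pool.Agent.Helper9.NS
import Pool.Agent.Helper70.VP.RH3
import Pool.Agent.Helper94.VQ.Main

/-!
# Alternating sums over blocks, for general operators
-/

namespace VP

open VC VQ Function

universe u

section general

variable {k : Type u} [Field k] [IsAlgClosed k] [CharZero k]
  {F₁ F₂ : Type u} [Field F₁] [Algebra k F₁] [Field F₂] [Algebra k F₂]
  (h₁ : IsFunctionField k F₁) (h₂ : IsFunctionField k F₂) (n : ℕ)

/-- symmetrization in the first factor over `J` kills -/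
def KillL (A : Fin n → IOp (curve h₁)) (B : Fin n → IOp (curve h₂)) (J : Finset (Fin n)) : Prop :=
  ∀ (x : Fin n → Place k F₁) (q : Fin n → Place k F₂),
    ∑ τ ∈ permOn J, cl (((curve h₁).prod (curve h₂)).pow n)
      (ext' (fun i => ((A i).prod (B i)).toLin (Finsupp.single (x (τ i), q i) 1))) = 0

/-- symmetrization in the second factor over `J` kills -/
def KillR (A : Fin n → IOp (curve h₁)) (B : Fin n → IOp (curve h₂)) (J : Finset (Fin n)) : Prop :=
  ∀ (x : Fin n → Place k F₁) (q : Fin n → Place k F₂),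
    ∑ τ ∈ permOn J, cl (((curve h₁).prod (curve h₂)).pow n)
      (ext' (fun i => ((A i).prod (B i)).toLin (Finsupp.single (x i, q (τ i)) 1))) = 0

theorem block_points_gen (g₁ g₂ : ℕ) (J : Finset (Fin n)) (hJ : g₁ * g₂ < J.card)
    (A : Fin n → IOp (curve h₁)) (B : Fin n → IOp (curve h₂))
    (hL : ∀ J' ⊆ J, J'.card = g₁ + 1 → KillL h₁ h₂ n A B J')
    (hR : ∀ J' ⊆ J, J'.card = g₂ + 1 → KillR h₁ h₂ n A B J')
    (p : Fin n → Place k F₁ × Place k F₂) :
    ∑ σ ∈ permOn J, ((Equiv.Perm.sign σ : ℤˣ) : ℤ) • cl (((curve h₁).prod (curve h₂)).pow n)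
      (ext' (fun i => ((A i).prod (B i)).toLin (Finsupp.single (p (σ i)) 1))) = 0 := by
  classical
  let Ψ : (J → Place k F₁) → (J → Place k F₂) → ChowQ (((curve h₁).prod (curve h₂)).pow n) :=
    fun x y => cl (((curve h₁).prod (curve h₂)).pow n)
      (ext' (fun i => ((A i).prod (B i)).toLin (Finsupp.single
        (if h : i ∈ J then x ⟨i, h⟩ else (p i).1, if h : i ∈ J then y ⟨i, h⟩ else (p i).2) 1)))
  have hsub : ∀ J' : Finset J, J'.map (Embedding.subtype _) ⊆ J := by
    intro J' i hi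
    rw [Finset.mem_map] at hi
    obtain ⟨j, _, rfl⟩ := hi
    exact j.2
  have key := abs_block Ψ g₁ g₂ (by simpa using hJ) (by
    intro J' hJ' x y
    have h := hL (J'.map (Embedding.subtype _)) (hsub J')
      (by rw [Finset.card_map, hJ']) (fun i => if h : i ∈ J then x ⟨i, h⟩ else (p i).1)
      (fun i => if h : i ∈ J then y ⟨i, h⟩ else (p i).2)
    rw [sum_permOn_map] at h
    rw [← h]
    apply Finset.sum_congr rfl
    intro τ _
    simp only [Ψ]
    congr 2
    funext i
    congr 3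
    by_cases hi : i ∈ J
    · rw [dif_pos hi, Equiv.Perm.ofSubtype_apply_of_mem τ hi, dif_pos (τ ⟨i, hi⟩).2]
    · rw [dif_neg hi, Equiv.Perm.ofSubtype_apply_of_not_mem τ hi, dif_neg hi]) (by
    intro J' hJ' x y
    have h := hR (J'.map (Embedding.subtype _)) (hsub J')
      (by rw [Finset.card_map, hJ']) (fun i => if h : i ∈ J then x ⟨i, h⟩ else (p i).1)
      (fun i => if h : i ∈ J then y ⟨i, h⟩ else (p i).2)
    rw [sum_permOn_map] at h
    rw [← h]
    apply Finset.sum_congr rfl
    intro τ _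
    simp only [Ψ]
    congr 2
    funext i
    congr 3
    by_cases hi : i ∈ J
    · rw [dif_pos hi, Equiv.Perm.ofSubtype_apply_of_mem τ hi, dif_pos (τ ⟨i, hi⟩).2]
    · rw [dif_neg hi, Equiv.Perm.ofSubtype_apply_of_not_mem τ hi, dif_neg hi])
    (fun j => (p j.1).1) (fun j => (p j.1).2)
  rw [sum_permOn_ofSubtype, ← key]
  apply Finset.sum_congr rfl
  intro τ _
  rw [Equiv.Perm.sign_ofSubtype]
  simp only [Ψ]
  congr 3
  funext i
  congr 2
  by_cases hi : i ∈ J
  · rw [dif_pos hi, dif_pos hi, Equiv.Perm.ofSubtype_apply_of_mem τ hi]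
  · rw [dif_neg hi, dif_neg hi, Equiv.Perm.ofSubtype_apply_of_not_mem τ hi]

theorem block_cycles_gen (g₁ g₂ : ℕ) (J : Finset (Fin n)) (hJ : g₁ * g₂ < J.card)
    (A : Fin n → IOp (curve h₁)) (B : Fin n → IOp (curve h₂))
    (hL : ∀ J' ⊆ J, J'.card = g₁ + 1 → KillL h₁ h₂ n A B J')
    (hR : ∀ J' ⊆ J, J'.card = g₂ + 1 → KillR h₁ h₂ n A B J')
    (a : Fin n → ((curve h₁).prod (curve h₂)).Cycles) :
    ∑ σ ∈ permOn J, ((Equiv.Perm.sign σ : ℤˣ) : ℤ) • cl (((curve h₁).prod (curve h₂)).pow n)
      (ext' (fun i => ((A i).prod (B i)).toLin (a (σ i)))) = 0 := by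
  classical
  let Θ : MultilinearMap ℤ (fun _ : Fin n => ((Place k F₁ × Place k F₂) →₀ ℤ))
      (ChowQ (((curve h₁).prod (curve h₂)).pow n)) :=
    ∑ σ ∈ permOn J, ((Equiv.Perm.sign σ : ℤˣ) : ℤ) •
      ((cl (((curve h₁).prod (curve h₂)).pow n)).compMultilinearMap
        ((extM (Place k F₁ × Place k F₂) n).compLinearMap
          (fun i => ((A i).prod (B i)).toLin))).domDomCongr σ
  have hΘ : ∀ b : Fin n → ((Place k F₁ × Place k F₂) →₀ ℤ), Θ b =
      ∑ σ ∈ permOn J, ((Equiv.Perm.sign σ : ℤˣ) : ℤ) •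
        cl (((curve h₁).prod (curve h₂)).pow n)
          (ext' (fun i => ((A i).prod (B i)).toLin (b (σ i)))) := by
    intro b
    simp only [Θ, sum_apply, smul_apply]
    rfl
  have hΘ0 : Θ = 0 := by
    apply Module.Basis.ext_multilinear (fun _ => (Finsupp.basisSingleOne : Module.Basis
      (Place k F₁ × Place k F₂) ℤ _))
    intro p
    rw [hΘ, zero_apply]
    simp only [Finsupp.coe_basisSingleOne]
    exact block_points_gen h₁ h₂ n g₁ g₂ J hJ A B hL hR p
  rw [← hΘ a, hΘ0, zero_apply]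

/-- The full alternating sum vanishes if it does over a block on which the operators agree. -/
theorem alternating_of_block (g₁ g₂ : ℕ) (J : Finset (Fin n)) (hJ : g₁ * g₂ < J.card)
    (A : Fin n → IOp (curve h₁)) (B : Fin n → IOp (curve h₂))
    (hL : ∀ J' ⊆ J, J'.card = g₁ + 1 → KillL h₁ h₂ n A B J')
    (hR : ∀ J' ⊆ J, J'.card = g₂ + 1 → KillR h₁ h₂ n A B J')
    (a : Fin n → ((curve h₁).prod (curve h₂)).Cycles) :
    ∑ σ : Equiv.Perm (Fin n), ((Equiv.Perm.sign σ : ℤˣ) : ℤ) •
      cl (((curve h₁).prod (curve h₂)).pow n)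
        (ext' (fun i => ((A i).prod (B i)).toLin (a (σ i)))) = 0 := by
  classical
  let W : Equiv.Perm (Fin n) → ChowQ (((curve h₁).prod (curve h₂)).pow n) := fun σ =>
    cl (((curve h₁).prod (curve h₂)).pow n)
      (ext' (fun i => ((A i).prod (B i)).toLin (a (σ i))))
  have hblock : ∀ σ : Equiv.Perm (Fin n),
      ∑ ρ ∈ permOn J, ((Equiv.Perm.sign ρ : ℤˣ) : ℤ) • W (σ * ρ) = 0 := fun σ =>
    block_cycles_gen h₁ h₂ n g₁ g₂ J hJ A B hL hR (fun i => a (σ i))
  change ∑ σ : Equiv.Perm (Fin n), ((Equiv.Perm.sign σ : ℤˣ) : ℤ) • W σ = 0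
  have h5 : (permOn J).card • ∑ σ : Equiv.Perm (Fin n), ((Equiv.Perm.sign σ : ℤˣ) : ℤ) •
      W σ = 0 := by
    have h6 : ∀ ρ ∈ permOn J, ∑ σ : Equiv.Perm (Fin n), ((Equiv.Perm.sign σ : ℤˣ) : ℤ) • W σ =
        ∑ σ : Equiv.Perm (Fin n), ((Equiv.Perm.sign σ : ℤˣ) : ℤ) •
          (((Equiv.Perm.sign ρ : ℤˣ) : ℤ) • W (σ * ρ)) := by
      intro ρ _
      symm
      refine Fintype.sum_equiv (Equiv.mulRight ρ) _ _ (fun σ => ?_)
      rw [Equiv.coe_mulRight, smul_smul, Equiv.Perm.sign_mul, Units.val_mul]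
    rw [← Finset.sum_const, Finset.sum_congr rfl h6, Finset.sum_comm]
    apply Finset.sum_eq_zero
    intro σ _
    rw [← Finset.smul_sum, hblock σ, smul_zero]
  rw [← Nat.cast_smul_eq_nsmul ℚ] at h5
  rcases smul_eq_zero.mp h5 with h | h
  · exfalso
    have h7 : (permOn J).card ≠ 0 := by
      apply Finset.card_ne_zero_of_mem (a := 1)
      rw [mem_permOn]
      intro i _
      rfl
    exact h7 (by exact_mod_cast h)
  · exact h

/-- Congruence for exterior products in the Chow group with rational coefficients. -/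
lemma cl_ext'_congr_cl (X : Variety k) (hconst : ∀ (K : Type u) [Field K] [Algebra k K]
    (hK : IsFunctionField k K) (p : X.Pt), ∃ c : X.Mor K, ∀ v, X.eval hK c v = p)
    (a b : Fin n → X.Cycles) (h : ∀ i, cl X (a i) = cl X (b i)) :
    cl (X.pow n) (ext' a) = cl (X.pow n) (ext' b) := by
  have h' : ∀ i, ∃ m : ℕ, 0 < m ∧ m • (a i - b i) ∈ X.Rat := fun i =>
    (cl_eq_iff X (a i) (b i)).mp (h i)
  choose m hm hm' using h'
  set M : ℕ := ∏ i, m i with hM
  have hM0 : 0 < M := Finset.prod_pos (fun i _ => hm i)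
  have h1 : ∀ i, (M : ℤ) • a i - (M : ℤ) • b i ∈ X.Rat := by
    intro i
    rw [← smul_sub, natCast_zsmul, hM, ← Finset.prod_erase_mul _ _ (Finset.mem_univ i), mul_smul]
    exact AddSubgroup.nsmul_mem _ (hm' i) _
  have h2 := cl_ext'_congr n X hconst (fun i => (M : ℤ) • a i) (fun i => (M : ℤ) • b i) h1
  have h3 : ∀ c : Fin n → X.Cycles, ext' (fun i => (M : ℤ) • c i) = ((M : ℤ) ^ n) • ext' c := by
    intro c
    rw [← extM_apply, MultilinearMap.map_smul_univ, extM_apply]
    simp
  rw [h3, h3, map_smul, map_smul] at h2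
  have h4 : ((M : ℤ) ^ n) • (cl (X.pow n) (ext' a) - cl (X.pow n) (ext' b)) = 0 := by
    rw [smul_sub, h2, sub_self]
  rw [← Int.cast_smul_eq_zsmul ℚ] at h4
  rcases smul_eq_zero.mp h4 with h | h
  · exfalso
    have : (M : ℤ) ^ n ≠ 0 := pow_ne_zero _ (by exact_mod_cast hM0.ne')
    exact this (by exact_mod_cast h)
  · exact sub_eq_zero.mp h

end general

section twisted

variable {k E : Type u} [Field k] [IsAlgClosed k] [CharZero k] [Field E] [Algebra k E]
  (hE : IsFunctionField k E) (V : Subgroup (E ≃ₐ[k] E)) [Fintype V] (χ : V →* ℤˣ)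

/-- Vanishing of the symmetrization for operators which transform by the character. -/
theorem rel_gen_tw (γ : ℕ) (hγ : IsGenus k (IntermediateField.fixedField V) γ)
    (g : ℕ) (hg : ∀ D : Place k (IntermediateField.fixedField (kerS V χ)) →₀ ℤ,
      (D.sum fun _ m => m) + 1 ≤
        (Module.finrank k (riemannRochSpace k (IntermediateField.fixedField (kerS V χ)) D) : ℤ)
          + g)
    (hram : ∃ h : V, χ h = -1 ∧ ∃ P : Place k E, act hE h.1 P = P)
    {J : Type*} [Fintype J] [DecidableEq J] (hJ : Fintype.card J = g - γ + 1)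
    (X : Variety k) (ins : (J → Place k E) → X.Pt)
    (hins : ∀ (K : Type u) [Field K] [Algebra k K] (hK : IsFunctionField k K)
      (z : J → (curve hE).Mor K), ∃ c : X.Mor K, ∀ v, X.eval hK c v =
        ins (fun j => (curve hE).eval hK (z j) v))
    (O : IOp X)
    (hinv : ∀ (w : J → Place k E) (h : J → V),
      O.toLin (Finsupp.single (ins (fun j => act hE (h j).1 (w j))) 1) =
        ((∏ j, χ (h j) : ℤˣ) : ℤ) • O.toLin (Finsupp.single (ins w) 1))
    (x : J → Place k E) :
    ∑ τ : Equiv.Perm J, cl X (O.toLin (Finsupp.single (ins (x ∘ τ)) 1)) = 0 := by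
  have h0 := prym_vanish V χ hE γ hγ g hg hram (J := J) (by omega) X ins hins x
  have h1 : ∀ w : J → Place k E, O.toLin (tw hE V χ ins w) =
      (Fintype.card (J → V)) • O.toLin (Finsupp.single (ins w) 1) := by
    intro w
    unfold tw
    rw [map_sum]
    have h2 : ∀ h : J → V, O.toLin (((∏ j, χ (h j) : ℤˣ) : ℤ) •
        Finsupp.single (ins (fun j => act hE (h j).1 (w j))) (1 : ℤ)) =
        O.toLin (Finsupp.single (ins w) 1) := by
      intro h
      rw [map_smul, hinv w h, smul_smul, ← Units.val_mul, unit_mul_self, Units.val_one, one_smul]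
    rw [Finset.sum_congr rfl (fun h _ => h2 h), Finset.sum_const, Finset.card_univ]
  have h2 := congrArg O.chow h0
  rw [IOp.chow_cl, map_zero] at h2
  unfold TW at h2
  rw [map_sum, map_sum] at h2
  simp only [h1, map_nsmul] at h2
  rw [← Finset.smul_sum, ← Nat.cast_smul_eq_nsmul ℚ] at h2
  rcases smul_eq_zero.mp h2 with h | h
  · exfalso
    have : Fintype.card (J → V) ≠ 0 := Fintype.card_ne_zero
    exact this (by exact_mod_cast h)
  · exact h

end twisted

section twprod

variable {k : Type u} [Field k] [IsAlgClosed k] [CharZero k]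
  {F₁ F₂ : Type u} [Field F₁] [Algebra k F₁] [Field F₂] [Algebra k F₂]
  (h₁ : IsFunctionField k F₁) (h₂ : IsFunctionField k F₂) (n : ℕ)

lemma pow_prod_single (A : Fin n → IOp (curve h₁)) (B : Fin n → IOp (curve h₂))
    (p : Fin n → Place k F₁ × Place k F₂) :
    (IOp.pow (fun i => (A i).prod (B i))).toLin (Finsupp.single p 1) =
      ext' (fun i => bx ((A i).toLin (Finsupp.single (p i).1 1))
        ((B i).toLin (Finsupp.single (p i).2 1))) := by
  rw [← ext'_single, IOp.pow_ext']
  congr 1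
  funext i
  exact prod_toLin_single _ _ _ _

/-- symmetrization in the first factor, twisted case -/
theorem killL_tw (V : Subgroup (F₁ ≃ₐ[k] F₁)) [Fintype V] (χ : V →* ℤˣ)
    (γ : ℕ) (hγ : IsGenus k (IntermediateField.fixedField V) γ)
    (g : ℕ) (hg : ∀ D : Place k (IntermediateField.fixedField (kerS V χ)) →₀ ℤ,
      (D.sum fun _ m => m) + 1 ≤
        (Module.finrank k (riemannRochSpace k (IntermediateField.fixedField (kerS V χ)) D) : ℤ)
          + g)
    (hram : ∃ h : V, χ h = -1 ∧ ∃ P : Place k F₁, act h₁ h.1 P = P)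
    (J : Finset (Fin n)) (hJ : J.card = g - γ + 1)
    (A : Fin n → IOp (curve h₁)) (B : Fin n → IOp (curve h₂))
    (hA : ∀ i ∈ J, A i = eop h₁ V χ) : KillL h₁ h₂ n A B J := by
  classical
  intro x q
  let ins : (J → Place k F₁) → (Fin n → Place k F₁ × Place k F₂) :=
    fun w i => (if h : i ∈ J then w ⟨i, h⟩ else x i, q i)
  have hO := pow_prod_single h₁ h₂ n A B
  have key := rel_gen_tw h₁ V χ γ hγ g hg hram (J := J) (by simpa using hJ) _ ins (by
    intro K _ _ hK z
    refine ⟨fun i => (if h : i ∈ J then z ⟨i, h⟩ else Sum.inl (x i), Sum.inl (q i)), ?_⟩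
    intro v
    funext i
    simp only [ins]
    ext1
    · by_cases h : i ∈ J
      · simp [h]
      · simp [h]
    · rfl) (IOp.pow (fun i => (A i).prod (B i))) (by
    intro w h
    rw [hO, hO]
    have e : ext' (fun i => bx ((A i).toLin (Finsupp.single
        (ins (fun j => act h₁ (h j).1 (w j)) i).1 1))
        ((B i).toLin (Finsupp.single (ins (fun j => act h₁ (h j).1 (w j)) i).2 1))) =
        ext' (fun i => (if hi : i ∈ J then ((χ (h ⟨i, hi⟩) : ℤˣ) : ℤ) else 1) •
          bx ((A i).toLin (Finsupp.single (ins w i).1 1))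
          ((B i).toLin (Finsupp.single (ins w i).2 1))) := by
      congr 1
      funext i
      by_cases hi : i ∈ J
      · simp only [ins, dif_pos hi]
        rw [hA i hi, eop_act, bx_smul_left]
      · simp only [ins, dif_neg hi]
        rw [one_smul]
    rw [e, ← extM_apply, MultilinearMap.map_smul_univ, extM_apply]
    congr 1
    push_cast
    rw [← Finset.prod_subset (Finset.subset_univ J)]
    · rw [← Finset.prod_coe_sort J]
      apply Finset.prod_congr rfl
      intro j _
      rw [dif_pos j.2]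
    · intro i _ hi
      rw [dif_neg hi]) (fun j => x j.1)
  rw [sum_permOn_ofSubtype, ← key]
  apply Finset.sum_congr rfl
  intro τ _
  rw [hO]
  congr 2
  funext i
  rw [prod_toLin_single]
  congr 3
  simp only [ins]
  by_cases h : i ∈ J
  · rw [dif_pos h, Equiv.Perm.ofSubtype_apply_of_mem τ h]
    rfl
  · rw [dif_neg h, Equiv.Perm.ofSubtype_apply_of_not_mem τ h]

/-- symmetrization in the second factor, twisted case -/
theorem killR_tw (V : Subgroup (F₂ ≃ₐ[k] F₂)) [Fintype V] (χ : V →* ℤˣ)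
    (γ : ℕ) (hγ : IsGenus k (IntermediateField.fixedField V) γ)
    (g : ℕ) (hg : ∀ D : Place k (IntermediateField.fixedField (kerS V χ)) →₀ ℤ,
      (D.sum fun _ m => m) + 1 ≤
        (Module.finrank k (riemannRochSpace k (IntermediateField.fixedField (kerS V χ)) D) : ℤ)
          + g)
    (hram : ∃ h : V, χ h = -1 ∧ ∃ P : Place k F₂, act h₂ h.1 P = P)
    (J : Finset (Fin n)) (hJ : J.card = g - γ + 1)
    (A : Fin n → IOp (curve h₁)) (B : Fin n → IOp (curve h₂))
    (hB : ∀ i ∈ J, B i = eop h₂ V χ) : KillR h₁ h₂ n A B J := by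
  classical
  intro x q
  let ins : (J → Place k F₂) → (Fin n → Place k F₁ × Place k F₂) :=
    fun w i => (x i, if h : i ∈ J then w ⟨i, h⟩ else q i)
  have hO := pow_prod_single h₁ h₂ n A B
  have key := rel_gen_tw h₂ V χ γ hγ g hg hram (J := J) (by simpa using hJ) _ ins (by
    intro K _ _ hK z
    refine ⟨fun i => (Sum.inl (x i), if h : i ∈ J then z ⟨i, h⟩ else Sum.inl (q i)), ?_⟩
    intro v
    funext i
    simp only [ins]
    ext1
    · rfl
    · by_cases h : i ∈ J
      · simp [h]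
      · simp [h]) (IOp.pow (fun i => (A i).prod (B i))) (by
    intro w h
    rw [hO, hO]
    have e : ext' (fun i => bx ((A i).toLin (Finsupp.single
        (ins (fun j => act h₂ (h j).1 (w j)) i).1 1))
        ((B i).toLin (Finsupp.single (ins (fun j => act h₂ (h j).1 (w j)) i).2 1))) =
        ext' (fun i => (if hi : i ∈ J then ((χ (h ⟨i, hi⟩) : ℤˣ) : ℤ) else 1) •
          bx ((A i).toLin (Finsupp.single (ins w i).1 1))
          ((B i).toLin (Finsupp.single (ins w i).2 1))) := by
      congr 1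
      funext i
      by_cases hi : i ∈ J
      · simp only [ins, dif_pos hi]
        rw [hB i hi, eop_act, bx_smul_right]
      · simp only [ins, dif_neg hi]
        rw [one_smul]
    rw [e, ← extM_apply, MultilinearMap.map_smul_univ, extM_apply]
    congr 1
    push_cast
    rw [← Finset.prod_subset (Finset.subset_univ J)]
    · rw [← Finset.prod_coe_sort J]
      apply Finset.prod_congr rfl
      intro j _
      rw [dif_pos j.2]
    · intro i _ hi
      rw [dif_neg hi]) (fun j => q j.1)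
  rw [sum_permOn_ofSubtype, ← key]
  apply Finset.sum_congr rfl
  intro τ _
  rw [hO]
  congr 2
  funext i
  rw [prod_toLin_single]
  congr 3
  simp only [ins]
  by_cases h : i ∈ J
  · rw [dif_pos h, Equiv.Perm.ofSubtype_apply_of_mem τ h]
    rfl
  · rw [dif_neg h, Equiv.Perm.ofSubtype_apply_of_not_mem τ h]

end twprod

end VP
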