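import Mathlib
import Pool.Agent.Helper9.NS
import Pool.Agent.Helper70.VP.Assemble
import Pool.Agent.Helper70.VP.Block
import Pool.Agent.Helper94.VQ.Fin

/-!
# The alternating sum for quotients with a quadratic character
-/

namespace VP

open VC VQ Function

universe u

section fin

variable {k : Type u} [Field k] [IsAlgClosed k] [CharZero k]
  {F₁ F₂ : Type u} [Field F₁] [Algebra k F₁] [Field F₂] [Algebra k F₂]
  (h₁ : IsFunctionField k F₁) (h₂ : IsFunctionField k F₂)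
  (V₁ : Subgroup (F₁ ≃ₐ[k] F₁)) (V₂ : Subgroup (F₂ ≃ₐ[k] F₂)) [Finite V₁] [Finite V₂]
  (G : Subgroup (V₁ × V₂)) (n : ℕ)

/-- Descent of the vanishing of the alternating sum to the quotient. -/
theorem descend (a : Fin n → (quotSurface h₁ h₂ V₁ V₂ G).Cycles)
    (h0 : cl (((curve h₁).prod (curve h₂)).pow n) (∑ σ : Equiv.Perm (Fin n),
      ((Equiv.Perm.sign σ : ℤˣ) : ℤ) • ext' (fun i => pullCycle h₁ h₂ V₁ V₂ G (a (σ i)))) = 0) :
    ∃ m : ℕ, 0 < m ∧ m • ∑ σ : Equiv.Perm (Fin n), ((Equiv.Perm.sign σ : ℤˣ) : ℤ) •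
      extProd (fun i => a (σ i)) ∈ ((quotSurface h₁ h₂ V₁ V₂ G).pow n).Rat := by
  rw [cl_eq_zero_iff] at h0
  obtain ⟨m, hm, hmem⟩ := h0
  have hind : Induced (((curve h₁).prod (curve h₂)).pow n) ((quotSurface h₁ h₂ V₁ V₂ G).pow n)
      (fun (p : Fin n → Place k F₁ × Place k F₂) i =>
        Quotient.mk (orbitSetoid h₁ h₂ V₁ V₂ G) (p i)) := by
    intro K _ _ hK c
    exact ⟨c, fun v => rfl⟩
  have h1 := map_rat _ _ _ hind hmem
  have hcard : Nat.card G ≠ 0 := Nat.card_pos.ne'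
  refine ⟨m * Nat.card G ^ n, by positivity, ?_⟩
  have h2 : Finsupp.mapDomain (fun (p : Fin n → Place k F₁ × Place k F₂) i =>
        Quotient.mk (orbitSetoid h₁ h₂ V₁ V₂ G) (p i))
      (m • ∑ σ : Equiv.Perm (Fin n), ((Equiv.Perm.sign σ : ℤˣ) : ℤ) •
        ext' (fun i => pullCycle h₁ h₂ V₁ V₂ G (a (σ i)))) =
      (m * Nat.card G ^ n) • ∑ σ : Equiv.Perm (Fin n), ((Equiv.Perm.sign σ : ℤˣ) : ℤ) •
        ext' (fun i => a (σ i)) := by
    rw [← Finsupp.lmapDomain_apply ℤ ℤ, map_nsmul, map_sum, mul_smul]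
    congr 1
    rw [Finset.smul_sum]
    apply Finset.sum_congr rfl
    intro σ _
    rw [map_smul, Finsupp.lmapDomain_apply,
      mapDomain_ext'' (fun (_ : Fin n) (p : Place k F₁ × Place k F₂) =>
        Quotient.mk (orbitSetoid h₁ h₂ V₁ V₂ G) p)]
    have h3 : ∀ i, Finsupp.mapDomain (fun p : Place k F₁ × Place k F₂ =>
        Quotient.mk (orbitSetoid h₁ h₂ V₁ V₂ G) p) (pullCycle h₁ h₂ V₁ V₂ G (a (σ i))) =
        (Nat.card G : ℤ) • a (σ i) := fun i => push_pull h₁ h₂ V₁ V₂ G (a (σ i))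
    simp only [h3]
    rw [← extM_apply, MultilinearMap.map_smul_univ, extM_apply]
    rw [smul_comm]
    congr 1
    simp only [Finset.prod_const, Finset.card_univ, Fintype.card_fin]
    rw [Nat.cast_pow]
  have h3 : (m * Nat.card G ^ n) • ∑ σ : Equiv.Perm (Fin n), ((Equiv.Perm.sign σ : ℤˣ) : ℤ) •
        ext' (fun i => a (σ i)) ∈ ((quotSurface h₁ h₂ V₁ V₂ G).pow n).Rat := by
    rw [← h2]
    exact h1
  exact h3

end fin

section main

variable {k : Type u} [Field k] [IsAlgClosed k] [CharZero k]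
  {F₁ F₂ : Type u} [Field F₁] [Algebra k F₁] [Field F₂] [Algebra k F₂]
  (h₁ : IsFunctionField k F₁) (h₂ : IsFunctionField k F₂)
  (V₁ : Subgroup (F₁ ≃ₐ[k] F₁)) (V₂ : Subgroup (F₂ ≃ₐ[k] F₂)) [Fintype V₁] [Fintype V₂]
  (G : Subgroup (V₁ × V₂)) (n : ℕ)

lemma cl_eop_one (o : Place k F₁ × Place k F₂) (z : ((curve h₁).prod (curve h₂)).Cycles)
    (hz : AlbaneseTrivial (curve h₁) (curve h₂) z) :
    cl ((curve h₁).prod (curve h₂)) (((eop h₁ V₁ 1).prod (eop h₂ V₂ 1)).toLin z) =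
      cl ((curve h₁).prod (curve h₂)) (((Lop h₁ V₁ o.1).prod (Lop h₂ V₂ o.2)).toLin z) := by
  have h1 := IOp.toLin_rat ((eop h₁ V₁ 1).prod (eop h₂ V₂ 1)) (albanese_sub_TS h₁ h₂ o z hz)
  rw [map_sub, eop_TS] at h1
  have h2 : ((Eop h₁ V₁ o.1 1).prod (Eop h₂ V₂ o.2 1)).toLin =
      ((Lop h₁ V₁ o.1).prod (Lop h₂ V₂ o.2)).toLin := by
    apply Finsupp.lhom_ext'
    rintro ⟨p, q⟩
    apply LinearMap.ext_ring
    rw [LinearMap.comp_apply, LinearMap.comp_apply, Finsupp.lsingle_apply, prod_toLin_single,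
      prod_toLin_single, Eop_single, Eop_single, Lop_single, Lop_single, map_sub, map_sub,
      eop_single, eop_single, eop_single, eop_single]
    simp
  rw [← h2, cl_eq_iff]
  exact ⟨1, one_pos, by rw [one_smul]; exact h1⟩

/-- Decomposition of an invariant Albanese trivial cycle. -/
lemma decomp (hp₁ : ∀ s : V₁, ∃ t : V₂, (s, t) ∈ G)
    (ε₁ : V₁ →* ℤˣ) (ε₂ : V₂ →* ℤˣ) (hε : ∀ s ∈ G, ε₁ s.1 = ε₂ s.2)
    (htriv : ∀ t : V₂, ε₂ t = 1 → TrivOn h₂ t.1)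
    (o : Place k F₁ × Place k F₂) (z : ((curve h₁).prod (curve h₂)).Cycles)
    (hz : AlbaneseTrivial (curve h₁) (curve h₂) z)
    (hinv : ∀ s ∈ G, Finsupp.mapDomain (act2 h₁ h₂ V₁ V₂ s) z = z) :
    ((Fintype.card V₁ : ℤ) * ∑ t : V₂, (1 + ((ε₂ t : ℤˣ) : ℤ))) •
      cl ((curve h₁).prod (curve h₂)) z =
      cl ((curve h₁).prod (curve h₂)) (((Lop h₁ V₁ o.1).prod (Lop h₂ V₂ o.2)).toLin z) +
      cl ((curve h₁).prod (curve h₂)) (((eop h₁ V₁ ε₁).prod (eop h₂ V₂ ε₂)).toLin z) := by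
  rw [← cl_eop_one h₁ h₂ V₁ V₂ o z hz,
    eop_eop_inv h₁ h₂ V₁ V₂ G hp₁ 1 1 (fun _ _ => rfl) z hinv,
    eop_eop_inv h₁ h₂ V₁ V₂ G hp₁ ε₁ ε₂ hε z hinv, ← map_add, ← smul_add, map_smul, mul_smul]
  congr 1
  rw [Uop_apply, Uop_apply, ← Finset.sum_add_distrib, map_sum, Finset.sum_smul]
  apply Finset.sum_congr rfl
  intro t _
  rw [map_add, map_smul, map_smul, ← add_smul]
  rcases Int.units_eq_one_or (ε₂ t) with h | h
  · rw [cl_act_right h₁ h₂ t.1 (htriv t h) z hz]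
    rfl
  · rw [h]
    simp

theorem alternating_invariant_tw (hp₁ : ∀ s : V₁, ∃ t : V₂, (s, t) ∈ G)
    (ε₁ : V₁ →* ℤˣ) (ε₂ : V₂ →* ℤˣ) (hε : ∀ s ∈ G, ε₁ s.1 = ε₂ s.2)
    (htriv : ∀ t : V₂, ε₂ t = 1 → TrivOn h₂ t.1)
    (hr₁ : ∃ h : V₁, ε₁ h = -1 ∧ ∃ P : Place k F₁, act h₁ h.1 P = P)
    (hr₂ : ∃ h : V₂, ε₂ h = -1 ∧ ∃ P : Place k F₂, act h₂ h.1 P = P)
    (γ₁ γ₂ g₁ g₂ : ℕ)
    (hγ₁ : IsGenus k (IntermediateField.fixedField V₁) γ₁)
    (hγ₂ : IsGenus k (IntermediateField.fixedField V₂) γ₂)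
    (hg₁ : IsGenus k (IntermediateField.fixedField (kerS V₁ ε₁)) g₁)
    (hg₂ : IsGenus k (IntermediateField.fixedField (kerS V₂ ε₂)) g₂)
    (hn : γ₁ * γ₂ + (g₁ - γ₁) * (g₂ - γ₂) < n)
    (b : Fin n → ((curve h₁).prod (curve h₂)).Cycles)
    (hb : ∀ i, AlbaneseTrivial (curve h₁) (curve h₂) (b i))
    (hinv : ∀ i, ∀ s ∈ G, Finsupp.mapDomain (act2 h₁ h₂ V₁ V₂ s) (b i) = b i) :
    cl (((curve h₁).prod (curve h₂)).pow n) (∑ σ : Equiv.Perm (Fin n),
      ((Equiv.Perm.sign σ : ℤˣ) : ℤ) • ext' (fun i => b (σ i))) = 0 := by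
  classical
  obtain ⟨t₁, ht₁, _⟩ := id h₁
  obtain ⟨t₂, ht₂, _⟩ := id h₂
  obtain ⟨o₁, _⟩ := exists_place h₁ ht₁
  obtain ⟨o₂, _⟩ := exists_place h₂ ht₂
  let o : Place k F₁ × Place k F₂ := (o₁, o₂)
  let X := ((curve h₁).prod (curve h₂))
  let A : Bool → IOp (curve h₁) := fun c => if c then eop h₁ V₁ ε₁ else Lop h₁ V₁ o.1
  let B : Bool → IOp (curve h₂) := fun c => if c then eop h₂ V₂ ε₂ else Lop h₂ V₂ o.2
  have hconst : ∀ (K : Type u) [Field K] [Algebra k K]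
      (hK : IsFunctionField k K) (p : X.Pt), ∃ c : X.Mor K, ∀ v, X.eval hK c v = p := by
    intro K _ _ hK p
    exact ⟨(Sum.inl p.1, Sum.inl p.2), fun v => rfl⟩
  -- the main vanishing
  have key : ∀ c : Fin n → Bool,
      ∑ σ : Equiv.Perm (Fin n), ((Equiv.Perm.sign σ : ℤˣ) : ℤ) •
        cl (X.pow n) (ext' (fun i => ((A (c i)).prod (B (c i))).toLin (b (σ i)))) = 0 := by
    intro c
    have hcard : (Finset.univ.filter (fun i => c i = true)).card +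
        (Finset.univ.filter (fun i => c i = false)).card = n := by
      have h := Finset.card_filter_add_card_filter_not (s := (Finset.univ : Finset (Fin n)))
        (fun i => c i = true)
      simp only [Bool.not_eq_true, Finset.card_univ, Fintype.card_fin] at h
      exact h
    by_cases hc : γ₁ * γ₂ < (Finset.univ.filter (fun i => c i = false)).card
    · have hmem : ∀ J' ⊆ Finset.univ.filter (fun i => c i = false), ∀ i ∈ J', c i = false := by
        intro J' hJ' i hi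
        have := hJ' hi
        simpa using this
      refine alternating_of_block h₁ h₂ n γ₁ γ₂ _ hc (fun i => A (c i)) (fun i => B (c i)) ?_ ?_ b
      · intro J' hJ' hcard' x q
        refine rel_left h₁ h₂ n V₁ γ₁ hγ₁.1 o.1 J' hcard' _ _ (fun i hi => ?_) x q
        simp [A, hmem J' hJ' i hi]
      · intro J' hJ' hcard' x q
        refine rel_right h₁ h₂ n V₂ γ₂ hγ₂.1 o.2 J' hcard' _ _ (fun i hi => ?_) x q
        simp [B, hmem J' hJ' i hi]
    · have hc' : (g₁ - γ₁) * (g₂ - γ₂) < (Finset.univ.filter (fun i => c i = true)).card := by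
        omega
      have hmem : ∀ J' ⊆ Finset.univ.filter (fun i => c i = true), ∀ i ∈ J', c i = true := by
        intro J' hJ' i hi
        have := hJ' hi
        simpa using this
      refine alternating_of_block h₁ h₂ n (g₁ - γ₁) (g₂ - γ₂) _ hc' (fun i => A (c i))
        (fun i => B (c i)) ?_ ?_ b
      · intro J' hJ' hcard'
        refine killL_tw h₁ h₂ n V₁ ε₁ γ₁ hγ₁ g₁ hg₁.1 hr₁ J' hcard' _ _ (fun i hi => ?_)
        simp [A, hmem J' hJ' i hi]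
      · intro J' hJ' hcard'
        refine killR_tw h₁ h₂ n V₂ ε₂ γ₂ hγ₂ g₂ hg₂.1 hr₂ J' hcard' _ _ (fun i hi => ?_)
        simp [B, hmem J' hJ' i hi]
  -- expansion
  set N : ℤ := (Fintype.card V₁ : ℤ) * ∑ t : V₂, (1 + ((ε₂ t : ℤˣ) : ℤ)) with hN
  have hN0 : N ≠ 0 := by
    have a1 : Fintype.card V₁ ≠ 0 := Fintype.card_ne_zero
    have a2 : 0 < ∑ t : V₂, (1 + ((ε₂ t : ℤˣ) : ℤ)) := by
      apply Finset.sum_pos'
      · intro t _
        rcases Int.units_eq_one_or (ε₂ t) with h | h <;> rw [h] <;> simp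
      · exact ⟨1, Finset.mem_univ _, by simp⟩
    exact mul_ne_zero (by exact_mod_cast a1) a2.ne'
  have hexp : ∀ σ : Equiv.Perm (Fin n), (N ^ n) • cl (X.pow n) (ext' (fun i => b (σ i))) =
      ∑ c : Fin n → Bool,
        cl (X.pow n) (ext' (fun i => ((A (c i)).prod (B (c i))).toLin (b (σ i)))) := by
    intro σ
    have h1 : ext' (fun i => N • b (σ i)) = (N ^ n) • ext' (fun i => b (σ i)) := by
      rw [← extM_apply, MultilinearMap.map_smul_univ, extM_apply]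
      simp
    rw [← map_smul, ← h1]
    have h2 : cl (X.pow n) (ext' (fun i => N • b (σ i))) =
        cl (X.pow n) (ext' (fun i => ∑ c : Bool, ((A c).prod (B c)).toLin (b (σ i)))) := by
      apply cl_ext'_congr_cl n X hconst
      intro i
      rw [map_smul, hN, decomp h₁ h₂ V₁ V₂ G hp₁ ε₁ ε₂ hε htriv o (b (σ i)) (hb (σ i))
        (hinv (σ i)), map_sum, Fintype.sum_bool, add_comm]
      rfl
    rw [h2, ← extM_apply, MultilinearMap.map_sum, map_sum]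
    rfl
  have hfin : (N ^ n) • cl (X.pow n) (∑ σ : Equiv.Perm (Fin n),
      ((Equiv.Perm.sign σ : ℤˣ) : ℤ) • ext' (fun i => b (σ i))) = 0 := by
    rw [map_sum, Finset.smul_sum]
    have h1 : ∀ σ : Equiv.Perm (Fin n), (N ^ n) • cl (X.pow n)
        (((Equiv.Perm.sign σ : ℤˣ) : ℤ) • ext' (fun i => b (σ i))) =
        ∑ c : Fin n → Bool, ((Equiv.Perm.sign σ : ℤˣ) : ℤ) •
          cl (X.pow n) (ext' (fun i => ((A (c i)).prod (B (c i))).toLin (b (σ i)))) := by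
      intro σ
      rw [map_smul, smul_comm, hexp, Finset.smul_sum]
    rw [Finset.sum_congr rfl (fun σ _ => h1 σ), Finset.sum_comm]
    exact Finset.sum_eq_zero (fun c _ => key c)
  rw [← Int.cast_smul_eq_zsmul ℚ] at hfin
  rcases smul_eq_zero.mp hfin with h | h
  · exfalso
    have : (N ^ n : ℤ) ≠ 0 := pow_ne_zero _ hN0
    exact this (by exact_mod_cast h)
  · exact h

end main

end VP
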